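import Pool.Agent.Zk98.WD.Path
import Pool.Agent.Helper41.Exist

/-!
# Existence and uniqueness of the Wiener measure
-/

open MeasureTheory ProbabilityTheory Filter Topology
open scoped ENNReal NNReal unitInterval RealInnerProductSpace

set_option linter.unusedSectionVars false
set_option linter.deprecated false

namespace Pool.Agent.Zk98.WD

/-- a pointwise limit of centred Gaussian variables is centred Gaussian -/
lemma gaussian_limit {Ω' : Type*} [MeasurableSpace Ω'] {P' : Measure Ω'} [IsProbabilityMeasure P']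
    {Z : ℕ → Ω' → ℝ} {Y : Ω' → ℝ} (hm : ∀ m, Measurable (Z m)) (hY : Measurable Y)
    (hlim : ∀ ω, Tendsto (fun m => Z m ω) atTop (𝓝 (Y ω))) (v : ℕ → ℝ≥0)
    (hZ : ∀ m, P'.map (Z m) = gaussianReal 0 (v m)) : ∃ w, P'.map Y = gaussianReal 0 w := by
  have : IsProbabilityMeasure (P'.map Y) := Measure.isProbabilityMeasure_map hY.aemeasurable
  have h1 : ∀ s : ℝ, Tendsto (fun m => ((Real.exp (-(v m : ℝ) * s ^ 2 / 2) : ℝ) : ℂ)) atTop
      (𝓝 (charFun (P'.map Y) s)) := by
    intro s
    have e1 : ∀ m, ((Real.exp (-(v m : ℝ) * s ^ 2 / 2) : ℝ) : ℂ) =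
        ∫ ω, Complex.exp (s * Z m ω * Complex.I) ∂P' := by
      intro m
      have e2 : charFun (P'.map (Z m)) s = ∫ ω, Complex.exp (s * Z m ω * Complex.I) ∂P' := by
        rw [charFun_apply_real, integral_map (hm m).aemeasurable (by fun_prop)]
      rw [← e2, hZ, charFun_gaussianReal]
      push_cast
      congr 1
      ring
    rw [charFun_apply_real, integral_map hY.aemeasurable (by fun_prop)]
    simp_rw [e1]
    refine tendsto_integral_of_dominated_convergence (fun _ => (1 : ℝ)) ?_ (integrable_const _) ?_ ?_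
    · intro m
      have := hm m
      exact Measurable.aestronglyMeasurable (by fun_prop)
    · intro m
      refine Eventually.of_forall fun ω => ?_
      rw [← Complex.ofReal_mul, Complex.norm_exp_ofReal_mul_I]
    · refine Eventually.of_forall fun ω => ?_
      have h2 : Continuous fun r : ℝ => Complex.exp (s * (r : ℂ) * Complex.I) := by fun_prop
      exact (h2.tendsto (Y ω)).comp (hlim ω)
  have hc : Continuous (charFun (P'.map Y)) := continuous_charFun
  have h0 : charFun (P'.map Y) 0 = 1 := by simp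
  obtain ⟨s0, hs0, hne⟩ : ∃ s0 : ℝ, s0 ≠ 0 ∧ charFun (P'.map Y) s0 ≠ 0 := by
    have h2 : ∀ᶠ s in 𝓝 (0 : ℝ), charFun (P'.map Y) s ≠ 0 :=
      (hc.tendsto 0).eventually_ne (by rw [h0]; exact one_ne_zero)
    have h3 : ∀ᶠ s in 𝓝[≠] (0 : ℝ), charFun (P'.map Y) s ≠ 0 := h2.filter_mono nhdsWithin_le_nhds
    obtain ⟨s, hs1, hs2⟩ := (h3.and self_mem_nhdsWithin).exists
    exact ⟨s, hs2, hs1⟩
  have h4 : Tendsto (fun m => Real.exp (-(v m : ℝ) * s0 ^ 2 / 2)) atTop
      (𝓝 (charFun (P'.map Y) s0).re) := by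
    have := (Complex.continuous_re.tendsto _).comp (h1 s0)
    exact this
  have h5 : (charFun (P'.map Y) s0).re ≠ 0 := by
    intro h6
    have h7 : charFun (P'.map Y) s0 = 0 := by
      rw [h6] at h4
      have h8 := (Complex.continuous_ofReal.tendsto _).comp h4
      exact tendsto_nhds_unique (h1 s0) (by simpa [Function.comp_def] using h8)
    exact hne h7
  have h6 : Tendsto (fun m => (v m : ℝ)) atTop
      (𝓝 (-(2 / s0 ^ 2) * Real.log (charFun (P'.map Y) s0).re)) := by
    have h7 := (h4.log h5).const_mul (-(2 / s0 ^ 2))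
    refine h7.congr fun m => ?_
    rw [Real.log_exp]
    field_simp
  set w : ℝ := -(2 / s0 ^ 2) * Real.log (charFun (P'.map Y) s0).re with hw
  have hw0 : 0 ≤ w := ge_of_tendsto h6 (Eventually.of_forall fun m => (v m).2)
  refine ⟨w.toNNReal, ?_⟩
  apply Measure.ext_of_charFun
  ext s
  rw [charFun_gaussianReal, Real.coe_toNNReal w hw0]
  have h8 : Tendsto (fun m => ((Real.exp (-(v m : ℝ) * s ^ 2 / 2) : ℝ) : ℂ)) atTop
      (𝓝 ((Real.exp (-w * s ^ 2 / 2) : ℝ) : ℂ)) := by
    refine (Complex.continuous_ofReal.tendsto _).comp ((Real.continuous_exp.tendsto _).comp ?_)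
    exact ((h6.neg).mul_const _).div_const _
  rw [tendsto_nhds_unique (h1 s) h8]
  push_cast
  congr 1
  simp
  ring

open Pool.Agent.Helper41

section

variable {n : ℕ} {Ω' : Type} [MeasurableSpace Ω'] {P' : Measure Ω'} [IsProbabilityMeasure P']
  {X : Fin n × ℝ≥0 × ℝ≥0 → Ω' → ℝ}

/-- the path of the Brownian motion -/
noncomputable def bmPath (X : Fin n × ℝ≥0 × ℝ≥0 → Ω' → ℝ)
    (hc : ∀ ω c, Continuous (fun p : ℝ≥0 × ℝ≥0 => X (c, p.1, p.2) ω)) (ω : Ω') : Path n :=
  mkPath ⟨fun t : I => WithLp.toLp 2 fun i => X (i, (t : ℝ).toNNReal, 1) ω - X (i, 0, 1) ω, by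
    refine (PiLp.continuous_toLp 2 _).comp (continuous_pi fun i => ?_)
    refine Continuous.sub ?_ continuous_const
    exact (hc ω i).comp (by fun_prop : Continuous fun t : I => ((t : ℝ).toNNReal, (1 : ℝ≥0)))⟩
    (by
      ext i
      simp)

lemma bmPath_apply (hc : ∀ ω c, Continuous (fun p : ℝ≥0 × ℝ≥0 => X (c, p.1, p.2) ω)) (ω : Ω')
    (t : I) (i : Fin n) :
    (bmPath X hc ω).1 t i = X (i, (t : ℝ).toNNReal, 1) ω - X (i, 0, 1) ω := rfl

lemma bmPath_eval_meas (hX : IsSheet X P')
    (hc : ∀ ω c, Continuous (fun p : ℝ≥0 × ℝ≥0 => X (c, p.1, p.2) ω)) (t : I) (i : Fin n) :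
    Measurable fun ω => (bmPath X hc ω).1 t i := by
  simp only [bmPath_apply]
  exact (hX.meas _).sub (hX.meas _)

lemma bmPath_meas (hX : IsSheet X P')
    (hc : ∀ ω c, Continuous (fun p : ℝ≥0 × ℝ≥0 => X (c, p.1, p.2) ω)) :
    Measurable (bmPath X hc) := by
  refine measurable_of_tendsto_metrizable (f := fun m ω => bern m (bmPath X hc ω)) ?_ ?_
  · intro m
    unfold bern
    refine Finset.measurable_sum _ fun k _ => Finset.measurable_sum _ fun j _ => ?_
    exact (bmPath_eval_meas hX hc _ _).smul_const _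
  · rw [tendsto_pi_nhds]
    intro ω
    exact bern_tendsto _

lemma mean_eval (hX : IsSheet X P')
    (hc : ∀ ω c, Continuous (fun p : ℝ≥0 × ℝ≥0 => X (c, p.1, p.2) ω)) (t : I) (i : Fin n) :
    ∫ ω, (bmPath X hc ω).1 t i ∂P' = 0 := by
  simp only [bmPath_apply]
  rw [integral_sub ((hX.memLp _).integrable (by norm_num)) ((hX.memLp _).integrable (by norm_num)),
    hX.char.mean hX.meas, hX.char.mean hX.meas, sub_zero]

lemma memLp_eval (hX : IsSheet X P')
    (hc : ∀ ω c, Continuous (fun p : ℝ≥0 × ℝ≥0 => X (c, p.1, p.2) ω)) (t : I) (i : Fin n) :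
    MemLp (fun ω => (bmPath X hc ω).1 t i) 2 P' := by
  simp only [bmPath_apply]
  exact (hX.memLp _).sub (hX.memLp _)

lemma cov_eval (hX : IsSheet X P')
    (hc : ∀ ω c, Continuous (fun p : ℝ≥0 × ℝ≥0 => X (c, p.1, p.2) ω)) (s t : I) (i j : Fin n) :
    ∫ ω, (bmPath X hc ω).1 s i * (bmPath X hc ω).1 t j ∂P' =
      if i = j then min (s : ℝ) t else 0 := by
  have h1 := hX.cov_incr (i, (s : ℝ).toNNReal, 1) (i, 0, 1) (j, (t : ℝ).toNNReal, 1) (j, 0, 1)
  have h2 : cov[fun ω => (bmPath X hc ω).1 s i, fun ω => (bmPath X hc ω).1 t j; P'] =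
      ∫ ω, (bmPath X hc ω).1 s i * (bmPath X hc ω).1 t j ∂P' := by
    rw [covariance]
    rw [mean_eval hX hc, mean_eval hX hc]
    simp
  rw [← h2]
  refine h1.trans ?_
  unfold sheetK
  by_cases hij : i = j
  · subst hij
    simp only [if_true]
    have hs := s.2.1
    have ht := t.2.1
    simp only [min_self, NNReal.coe_one, mul_one, zero_le, min_eq_left, min_eq_right,
      NNReal.coe_zero, sub_zero, add_zero, NNReal.coe_min, Real.coe_toNNReal _ hs,
      Real.coe_toNNReal _ ht]
  · simp [hij]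

lemma gauss_eval (hX : IsSheet X P')
    (hc : ∀ ω c, Continuous (fun p : ℝ≥0 × ℝ≥0 => X (c, p.1, p.2) ω)) :
    IsGaussianProcess (fun (q : Fin n × I) ω => (bmPath X hc ω).1 q.2 q.1) P' := by
  classical
  refine hX.gauss.of_isGaussianProcess fun q => ⟨{(q.1, (q.2 : ℝ).toNNReal, 1), (q.1, 0, 1)},
    { toFun := fun x => x ⟨(q.1, (q.2 : ℝ).toNNReal, 1), by simp⟩ - x ⟨(q.1, 0, 1), by simp⟩
      map_add' := fun x y => by simp; abel
      map_smul' := fun c x => by simp; ring }, fun ω => ?_⟩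
  simp [bmPath_apply]

lemma law_bern (hX : IsSheet X P')
    (hc : ∀ ω c, Continuous (fun p : ℝ≥0 × ℝ≥0 => X (c, p.1, p.2) ω))
    (L : StrongDual ℝ (Path n)) (m : ℕ) :
    ∃ v : ℝ≥0, P'.map (fun ω => L (bern m (bmPath X hc ω))) = gaussianReal 0 v := by
  have e1 : (fun ω => L (bern m (bmPath X hc ω))) = fun ω =>
      ∑ q : Fin (m + 1) × Fin n, L (gg m q.1 q.2) • (bmPath X hc ω).1 (bernstein.z q.1) q.2 := by
    funext ω
    simp only [bern, map_sum, map_smul, smul_eq_mul]
    rw [Fintype.sum_prod_type]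
    refine Finset.sum_congr rfl fun k _ => Finset.sum_congr rfl fun j _ => ?_
    ring
  have h1 := ((gauss_eval hX hc).comp_right (fun q : Fin (m + 1) × Fin n =>
    (q.2, bernstein.z q.1))).smul (fun q : Fin (m + 1) × Fin n => L (gg m q.1 q.2))
  have h2' : HasGaussianLaw (fun ω => ∑ q ∈ (Finset.univ : Finset (Fin (m + 1) × Fin n)),
      L (gg m q.1 q.2) • (bmPath X hc ω).1 (bernstein.z q.1) q.2) P' :=
    h1.hasGaussianLaw_fun_sum
  have h2 := h2'.map_eq_gaussianReal
  have h3 : ∫ ω, (∑ q : Fin (m + 1) × Fin n,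
      L (gg m q.1 q.2) • (bmPath X hc ω).1 (bernstein.z q.1) q.2) ∂P' = 0 := by
    rw [integral_finset_sum]
    · refine Finset.sum_eq_zero fun q _ => ?_
      simp only [smul_eq_mul]
      rw [integral_const_mul, mean_eval hX hc, mul_zero]
    · intro q _
      simp only [smul_eq_mul]
      exact ((memLp_eval hX hc _ _).integrable (by norm_num)).const_mul _
  rw [e1]
  rw [h3] at h2
  exact ⟨_, h2⟩

lemma inner_eq (a x : E n) : ⟪a, x⟫ = ∑ i, a i * x i := by
  rw [PiLp.inner_apply]
  refine Finset.sum_congr rfl fun i _ => ?_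
  simp [mul_comm]

lemma exists_wiener_aux (hX : IsSheet X P')
    (hc : ∀ ω c, Continuous (fun p : ℝ≥0 × ℝ≥0 => X (c, p.1, p.2) ω)) :
    IsWiener (P'.map (bmPath X hc)) := by
  have hm := bmPath_meas hX hc
  refine ⟨?_, ?_, ?_⟩
  · refine isGaussian_of_map_eq_gaussianReal fun L => ?_
    choose v hv using law_bern hX hc L
    obtain ⟨w, hw⟩ := gaussian_limit (P' := P') (Z := fun m ω => L (bern m (bmPath X hc ω)))
      (Y := fun ω => L (bmPath X hc ω)) (fun m => by
        have : Measurable fun ω => bern m (bmPath X hc ω) := by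
          unfold bern
          refine Finset.measurable_sum _ fun k _ => Finset.measurable_sum _ fun j _ => ?_
          exact (bmPath_eval_meas hX hc _ _).smul_const _
        exact L.continuous.measurable.comp this) (L.continuous.measurable.comp hm)
      (fun ω => (L.continuous.tendsto _).comp (bern_tendsto _)) v hv
    refine ⟨0, w, ?_⟩
    rw [Measure.map_map L.continuous.measurable hm]
    exact hw
  · intro a t
    have c1 : Continuous fun ω : Path n => (⟪a, ω.1 t⟫ : ℝ) := (ev a t).continuous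
    rw [integral_map hm.aemeasurable c1.aestronglyMeasurable]
    simp only [inner_eq]
    rw [integral_finset_sum]
    · refine Finset.sum_eq_zero fun i _ => ?_
      rw [integral_const_mul, mean_eval hX hc, mul_zero]
    · intro i _
      exact ((memLp_eval hX hc _ _).integrable (by norm_num)).const_mul _
  · intro a b s t
    have c1 : Continuous fun ω : Path n => (⟪a, ω.1 s⟫ : ℝ) := (ev a s).continuous
    have c2 : Continuous fun ω : Path n => (⟪b, ω.1 t⟫ : ℝ) := (ev b t).continuous
    have c3 : Continuous fun ω : Path n => (⟪a, ω.1 s⟫ : ℝ) * (⟪b, ω.1 t⟫ : ℝ) := c1.mul c2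
    rw [integral_map hm.aemeasurable c3.aestronglyMeasurable]
    have i1 : ∀ i j, Integrable (fun ω => a i * (bmPath X hc ω).1 s i *
        (b j * (bmPath X hc ω).1 t j)) P' := by
      intro i j
      have := ((memLp_eval hX hc s i).const_mul (a i)).integrable_mul
        ((memLp_eval hX hc t j).const_mul (b j))
      exact this
    simp only [inner_eq, Finset.sum_mul_sum]
    rw [integral_finset_sum _ fun i _ => integrable_finset_sum _ fun j _ => i1 i j, Finset.mul_sum]
    refine Finset.sum_congr rfl fun i _ => ?_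
    rw [integral_finset_sum _ fun j _ => i1 i j, Finset.sum_eq_single i]
    · have e1 : ∀ ω, a i * (bmPath X hc ω).1 s i * (b i * (bmPath X hc ω).1 t i) =
          (a i * b i) * ((bmPath X hc ω).1 s i * (bmPath X hc ω).1 t i) := fun ω => by ring
      simp_rw [e1]
      rw [integral_const_mul, cov_eval hX hc, if_pos rfl]
      ring
    · intro j _ hj
      have e1 : ∀ ω, a i * (bmPath X hc ω).1 s i * (b j * (bmPath X hc ω).1 t j) =
          (a i * b j) * ((bmPath X hc ω).1 s i * (bmPath X hc ω).1 t j) := fun ω => by ring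
      simp_rw [e1]
      rw [integral_const_mul, cov_eval hX hc, if_neg (Ne.symm hj), mul_zero]
    · simp

end

/-- existence of the Wiener measure -/
theorem exists_wiener (n : ℕ) : ∃ P : Measure (Path n), IsWiener P := by
  obtain ⟨Ω', mΩ, P', hP', X, hX, hc⟩ := exists_sheet n
  exact ⟨_, exists_wiener_aux hX hc⟩

/-- uniqueness of the Wiener measure -/
theorem unique_wiener {n : ℕ} {P Q : Measure (Path n)} (hP : IsWiener P) (hQ : IsWiener Q) :
    P = Q := by
  have g1 := hP.gauss
  have g2 := hQ.gauss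
  have h0 : ∀ L ∈ evS n, ∀ M ∈ evS n,
      covarianceBilinDual P L M = covarianceBilinDual Q L M := by
    intro L hL M hM
    refine Submodule.span_induction ?_ ?_ ?_ ?_ hL
    · rintro _ ⟨⟨a, s⟩, rfl⟩
      refine Submodule.span_induction ?_ ?_ ?_ ?_ hM
      · rintro _ ⟨⟨b, t⟩, rfl⟩
        rw [hP.q_ev, hQ.q_ev]
      · simp
      · intro x y _ _ hx hy
        rw [map_add, map_add, hx, hy]
      · intro c x _ hx
        rw [map_smul, map_smul, hx]
    · simp
    · intro x y _ _ hx hy
      rw [map_add, map_add, ContinuousLinearMap.add_apply, ContinuousLinearMap.add_apply, hx, hy]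
    · intro c x _ hx
      rw [map_smul, map_smul, ContinuousLinearMap.smul_apply, ContinuousLinearMap.smul_apply, hx]
  refine ext_evS fun L hL => ?_
  rw [charDual hP.mean', charDual hQ.mean', h0 L hL L hL]

end Pool.Agent.Zk98.WD
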