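import Mathlib

/-!
# Abstract lemmas on differentiation along a group of isometries

`S` is a semigroup on a Banach space `X`, `U` a group of contractions commuting with it,
and `U r S t` is Lipschitz in `r` with constant `C / t`.
-/

open Filter Topology

namespace Pool.Agent.Zk98.WD

variable {X : Type*} [NormedAddCommGroup X] [NormedSpace ℝ X]

/-- `G` is the derivative at zero of `r ↦ U r F`. -/
def IsDer (U : ℝ → X →L[ℝ] X) (F G : X) : Prop :=
  Tendsto (fun r : ℝ => r⁻¹ • (U r F - F)) (𝓝[≠] 0) (𝓝 G)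

structure Grp (U : ℝ → X →L[ℝ] X) : Prop where
  add : ∀ s t, ∀ x, U (s + t) x = U s (U t x)
  zero : ∀ x, U 0 x = x
  contr : ∀ t, ∀ x, ‖U t x‖ ≤ ‖x‖

lemma Grp.telescope {U : ℝ → X →L[ℝ] X} (hU : Grp U) (F : X) (u : ℝ) (m : ℕ) :
    U (m * u) F - F = ∑ j ∈ Finset.range m, U (j * u) (U u F - F) := by
  induction m with
  | zero => simp [hU.zero]
  | succ m ih =>
    rw [Finset.sum_range_succ, ← ih, map_sub, ← hU.add]
    push_cast
    rw [show (m + 1 : ℝ) * u = m * u + u by ring]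
    abel

lemma Grp.le_of_der {U : ℝ → X →L[ℝ] X} (hU : Grp U) {F G : X} (h : IsDer U F G) (t : ℝ) :
    ‖U t F - F‖ ≤ |t| * ‖G‖ := by
  rcases eq_or_ne t 0 with rfl | ht
  · simp [hU.zero]
  have h1 : Tendsto (fun m : ℕ => t / ((m : ℝ) + 1)) atTop (𝓝[≠] 0) := by
    rw [tendsto_nhdsWithin_iff]
    refine ⟨?_, Eventually.of_forall fun m => ?_⟩
    · have := tendsto_one_div_add_atTop_nhds_zero_nat (𝕜 := ℝ)
      have := this.const_mul t
      simpa [div_eq_mul_inv] using this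
    · simp only [Set.mem_compl_iff, Set.mem_singleton_iff]; positivity
  have h2 := (h.comp h1).norm.const_mul |t|
  refine ge_of_tendsto h2 (Eventually.of_forall fun m => ?_)
  simp only [Function.comp]
  have hm : (0 : ℝ) < (m : ℝ) + 1 := by positivity
  have h3 := hU.telescope F (t / ((m : ℝ) + 1)) (m + 1)
  have h4 : (((m + 1 : ℕ) : ℝ)) * (t / ((m : ℝ) + 1)) = t := by push_cast; field_simp
  rw [h4] at h3
  rw [h3]
  refine (norm_sum_le _ _).trans ?_
  refine (Finset.sum_le_sum fun j _ => hU.contr _ _).trans ?_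
  rw [Finset.sum_const, Finset.card_range, nsmul_eq_mul, norm_smul, norm_inv, Real.norm_eq_abs,
    abs_div, abs_of_pos hm]
  push_cast
  apply le_of_eq
  have : |t| ≠ 0 := abs_ne_zero.2 ht
  field_simp

/-- The closure argument for difference quotients. -/
lemma isDer_of_approx [CompleteSpace X] {U : ℝ → X →L[ℝ] X} {F : X}
    (h : ∀ ε > 0, ∃ F' G' : X, IsDer U F' G' ∧
      ∀ r : ℝ, r ≠ 0 → ‖r⁻¹ • (U r (F - F') - (F - F'))‖ ≤ ε) :
    ∃ G, IsDer U F G := by
  unfold IsDer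
  have hc : Cauchy (map (fun r : ℝ => r⁻¹ • (U r F - F)) (𝓝[≠] 0)) := by
    rw [Metric.cauchy_iff]
    refine ⟨inferInstance, fun ε hε => ?_⟩
    obtain ⟨F', G', hG, hb⟩ := h (ε / 4) (by positivity)
    have h1 : ∀ᶠ r in 𝓝[≠] (0 : ℝ), dist (r⁻¹ • (U r F' - F')) G' < ε / 4 :=
      hG.eventually (Metric.ball_mem_nhds _ (by positivity))
    refine ⟨Metric.ball G' (ε / 2), ?_, ?_⟩
    · rw [mem_map]
      filter_upwards [h1, self_mem_nhdsWithin] with r hr hr0
      have h2 := hb r hr0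
      have h3 : r⁻¹ • (U r F - F) = r⁻¹ • (U r (F - F') - (F - F')) + r⁻¹ • (U r F' - F') := by
        rw [← smul_add]; congr 1; simp only [map_sub]; abel
      show r⁻¹ • (U r F - F) ∈ Metric.ball G' (ε / 2)
      rw [Metric.mem_ball, h3, dist_eq_norm, add_sub_assoc]
      rw [dist_eq_norm] at hr
      calc _ ≤ _ := norm_add_le _ _
        _ < ε / 2 := by linarith
    · intro x hx y hy
      rw [Metric.mem_ball] at hx hy
      calc dist x y ≤ dist x G' + dist y G' := dist_triangle_right _ _ _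
        _ < ε := by linarith
  obtain ⟨G, hG⟩ := CompleteSpace.complete hc
  exact ⟨G, hG⟩

lemma IsDer.norm_le {U : ℝ → X →L[ℝ] X} {F G : X} (h : IsDer U F G) {M : ℝ}
    (hM : ∀ r : ℝ, ‖U r F - F‖ ≤ |r| * M) : ‖G‖ ≤ M := by
  refine le_of_tendsto h.norm ?_
  filter_upwards [self_mem_nhdsWithin] with r hr
  have hr' : 0 < |r| := abs_pos.2 hr
  rw [norm_smul, norm_inv, Real.norm_eq_abs]
  calc |r|⁻¹ * ‖U r F - F‖ ≤ |r|⁻¹ * (|r| * M) := by gcongr; exact hM r
    _ = M := by field_simp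

/-- Existence of the derivative along `U` and bound. -/
theorem exists_derJ [CompleteSpace X] {S U : ℝ → X →L[ℝ] X} {C : ℝ} (hC : 0 ≤ C)
    (hb : ∀ t, 0 < t → ∀ (r : ℝ) (K : X), ‖U r (S t K) - S t K‖ ≤ |r| * (C / t) * ‖K‖)
    {D : Set X} (hD : Dense D) (hd : ∀ K ∈ D, ∀ t, 0 < t → ∃ G, IsDer U (S t K) G)
    (J2 : X →L[ℝ] X) (hJ2 : ∀ (r : ℝ) (K : X), ‖U r (J2 K) - J2 K‖ ≤ |r| * (C * ‖K‖))
    (hcomm : ∀ t, 0 < t → ∀ K, S t (J2 K) = J2 (S t K))
    (hcont : ∀ F, Tendsto (fun t => S t F) (𝓝[>] 0) (𝓝 F)) (F : X) :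
    ∃ G, IsDer U (J2 F) G ∧ ‖G‖ ≤ C * ‖F‖ := by
  -- first for `S t K`
  have h1 : ∀ t, 0 < t → ∀ K, ∃ G, IsDer U (S t K) G := by
    intro t ht K
    apply isDer_of_approx
    intro ε hε
    have hε' : 0 < ε / (C / t + 1) := by positivity
    obtain ⟨K', hK', hKK⟩ := hD.exists_dist_lt K hε'
    obtain ⟨G', hG'⟩ := hd K' hK' t ht
    refine ⟨S t K', G', hG', fun r hr => ?_⟩
    rw [← map_sub, norm_smul, norm_inv, Real.norm_eq_abs]
    have h2 := hb t ht r (K - K')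
    have hr' : 0 < |r| := abs_pos.2 hr
    rw [dist_eq_norm] at hKK
    calc |r|⁻¹ * ‖U r (S t (K - K')) - S t (K - K')‖ ≤ |r|⁻¹ * (|r| * (C / t) * ‖K - K'‖) := by gcongr
      _ = (C / t) * ‖K - K'‖ := by field_simp
      _ ≤ (C / t + 1) * (ε / (C / t + 1)) := by gcongr; linarith
      _ = ε := by field_simp
  have h2 : ∃ G, IsDer U (J2 F) G := by
    apply isDer_of_approx
    intro ε hε
    have hε' : 0 < ε / (C + 1) := by positivity
    have h3 : ∀ᶠ t in 𝓝[>] (0 : ℝ), dist (S t F) F < ε / (C + 1) :=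
      (hcont F).eventually (Metric.ball_mem_nhds _ hε')
    obtain ⟨t, ht, ht0⟩ := (h3.and self_mem_nhdsWithin).exists
    have ht0 : 0 < t := ht0
    obtain ⟨G', hG'⟩ := h1 t ht0 (J2 F)
    refine ⟨S t (J2 F), G', hG', fun r hr => ?_⟩
    have hr' : 0 < |r| := abs_pos.2 hr
    rw [hcomm t ht0, ← map_sub, norm_smul, norm_inv, Real.norm_eq_abs]
    rw [dist_eq_norm, norm_sub_rev] at ht
    calc |r|⁻¹ * ‖U r (J2 (F - S t F)) - J2 (F - S t F)‖ ≤ |r|⁻¹ * (|r| * (C * ‖F - S t F‖)) := by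
          gcongr; exact hJ2 _ _
      _ = C * ‖F - S t F‖ := by field_simp
      _ ≤ (C + 1) * (ε / (C + 1)) := by gcongr; linarith
      _ = ε := by field_simp
  obtain ⟨G, hG⟩ := h2
  exact ⟨G, hG, hG.norm_le fun r => hJ2 r F⟩

lemma IsDer.unique {U : ℝ → X →L[ℝ] X} {F G G' : X} (h : IsDer U F G) (h' : IsDer U F G') :
    G = G' := tendsto_nhds_unique h h'

lemma IsDer.add {U : ℝ → X →L[ℝ] X} {F G F' G' : X} (h : IsDer U F G) (h' : IsDer U F' G') :
    IsDer U (F + F') (G + G') := by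
  unfold IsDer at *
  refine (Tendsto.add h h').congr fun t => ?_
  rw [map_add, ← smul_add]
  congr 1
  abel

lemma IsDer.smul {U : ℝ → X →L[ℝ] X} {F G : X} (h : IsDer U F G) (c : ℝ) :
    IsDer U (c • F) (c • G) := by
  unfold IsDer at *
  refine (Tendsto.const_smul h c).congr fun t => ?_
  rw [map_smul, ← smul_sub, smul_comm]

lemma IsDer.map {U : ℝ → X →L[ℝ] X} {F G : X} (h : IsDer U F G) (A : X →L[ℝ] X)
    (hA : ∀ t, ∀ x, A (U t x) = U t (A x)) :
    IsDer U (A F) (A G) := by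
  unfold IsDer at *
  refine ((A.continuous.tendsto G).comp h).congr fun t => ?_
  simp only [Function.comp, map_smul, map_sub]
  rw [hA t]

end Pool.Agent.Zk98.WD
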