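import Pool.Agent.R876.WM.MP
import Pool.Agent.R876.WM.OPL
import Pool.Agent.R876.WM.OPS
import Pool.Agent.R876.WM.OPC
import Pool.Agent.R876.WM.OP
import Pool.Agent.R876.WM.BOP
import Pool.Agent.R876.WM.BRI
import Pool.Agent.R876.WM.OUL
import Pool.Agent.R876.WM.POT
import Pool.Agent.R876.WM.CE
import Pool.Agent.R876.WM.DIFL
import Pool.Agent.R876.WM.AVG
import Pool.Agent.R876.WM.ABS
import Pool.Agent.R876.WM.SMD
import Pool.Agent.R876.WM.L3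
import Pool.Agent.R876.WM.LYA
import Pool.Agent.R876.WM.IPR
import Pool.Agent.R876.WM.TAY
import Pool.Agent.R876.WM.FD
import Pool.Agent.R876.WM.D2S
import Pool.Agent.R876.WM.L1
import Pool.Agent.R876.WM.LEIB
import Pool.Agent.R876.WM.PROD

/-!
# `D^∞` is an algebra
-/

open MeasureTheory ProbabilityTheory Filter Topology
open scoped ENNReal NNReal

set_option linter.unusedSectionVars false
set_option linter.deprecated false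

namespace Pool.Agent.Zk98.WD

open Pool.Agent.R876.WM

universe u

variable {Ω : Type u} [NormedAddCommGroup Ω] [NormedSpace ℝ Ω] [CompleteSpace Ω]
  [SecondCountableTopology Ω] [MeasurableSpace Ω] [BorelSpace Ω]
  {μ : Measure Ω} [IsGaussian μ]

lemma gOPL (hμ : ∀ L : StrongDual ℝ Ω, ∫ x, L x ∂μ = 0) : S_OPL ℝ μ := opl_thm μ ℝ (mp_thm μ hμ)

lemma gOP (hμ : ∀ L : StrongDual ℝ Ω, ∫ x, L x ∂μ = 0) : S_OP ℝ μ :=
  op_thm μ ℝ (gOPL hμ) (ops_thm μ ℝ (mp_thm μ hμ)) (opc_thm μ ℝ (mp_thm μ hμ))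

lemma gBRI (hμ : ∀ L : StrongDual ℝ Ω, ∫ x, L x ∂μ = 0) : S_BRI ℝ μ :=
  bri_thm μ ℝ (mp_thm μ hμ) (gOPL hμ)

lemma gOUL (hμ : ∀ L : StrongDual ℝ Ω, ∫ x, L x ∂μ = 0) : S_OUL ℝ μ :=
  oul_thm μ ℝ (gOP hμ) bop_thm (gBRI hμ)

lemma gPOT (hμ : ∀ L : StrongDual ℝ Ω, ∫ x, L x ∂μ = 0) : S_POT ℝ μ :=
  pot_thm μ ℝ (mp_thm μ hμ) (gOP hμ) bop_thm (gBRI hμ)

lemma gL3 (hμ : ∀ L : StrongDual ℝ Ω, ∫ x, L x ∂μ = 0) : S_L3 ℝ μ :=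
  l3_thm μ ℝ (smd_thm μ ℝ (mp_thm μ hμ) (gOUL hμ) (ce_thm μ ℝ (mp_thm μ hμ)) avg_thm abs_thm)

lemma gL1 (hμ : ∀ L : StrongDual ℝ Ω, ∫ x, L x ∂μ = 0) : S_L1 ℝ μ :=
  l1_thm μ ℝ (mp_thm μ hμ) (gPOT hμ)
    (d2s_thm μ ℝ (mp_thm μ hμ) (gPOT hμ) (gOUL hμ) (ipr_thm μ ℝ (mp_thm μ hμ)) tay_thm fd_thm)
    (lya_thm ℝ) (difl_thm μ ℝ (mp_thm μ hμ))

lemma gPROD (hμ : ∀ L : StrongDual ℝ Ω, ∫ x, L x ∂μ = 0) : S_PROD ℝ ℝ μ :=
  prod_thm μ ℝ ℝ (mp_thm μ hμ) (leib_thm Ω ℝ ℝ) (difl_thm μ ℝ (mp_thm μ hμ))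

/-- it is enough to consider even orders and integer exponents -/
lemma dinf_even (hμ : ∀ L : StrongDual ℝ Ω, ∫ x, L x ∂μ = 0) {f : Ω → ℝ} :
    Dinf μ f ↔ ∀ p : ℕ, 2 ≤ p → ∀ m : ℕ, ∃ U, IsD μ (p : ℝ≥0∞) (2 * m) f U := by
  constructor
  · intro hf p hp m
    obtain ⟨U, hU⟩ := hf p (by exact_mod_cast (lt_of_lt_of_le one_lt_two hp)) (2 * m)
    rw [ENNReal.ofReal_natCast] at hU
    exact ⟨U, hU⟩
  · intro hf p hp r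
    obtain ⟨P, hP⟩ := exists_nat_ge (max p 2)
    have hP2 : 2 ≤ P := by exact_mod_cast (le_max_right _ _).trans hP
    obtain ⟨U, hU1, hU2⟩ := hf P hP2 r
    obtain ⟨U', hU', -, h2⟩ := (gPOT hμ (P : ℝ≥0∞) (by exact_mod_cast (le_trans one_le_two hP2))
      (by simp)).2.2 r r (by omega) U hU1
    refine ⟨U', hU'.mono_exponent ?_, hU2.trans h2⟩
    rw [← ENNReal.ofReal_natCast]
    exact ENNReal.ofReal_le_ofReal ((le_max_left _ _).trans hP)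

lemma isD_add (hμ : ∀ L : StrongDual ℝ Ω, ∫ x, L x ∂μ = 0) {p : ℝ≥0∞} (hp : 1 ≤ p)
    (hp' : p ≠ ∞) {m : ℕ} {f g U V : Ω → ℝ} (hf : IsD μ p (2 * m) f U) (hg : IsD μ p (2 * m) g V) :
    IsD μ p (2 * m) (f + g) (U + V) := by
  have : Fact (1 ≤ p) := ⟨hp⟩
  refine ⟨hf.1.add hg.1, (hf.2.add hg.2).trans ?_⟩
  obtain ⟨T, J, hJ⟩ := gOUL hμ p hp'
  have hcg := (gPOT hμ p hp hp').1 (2 * m)
  have h1 := hJ.pot_ae m (hf.1.toLp U)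
  have h2 := hJ.pot_ae m (hg.1.toLp V)
  have h3 := hJ.pot_ae m (hf.1.toLp U + hg.1.toLp V)
  have h4 := hcg _ _ hf.1.coeFn_toLp
  have h5 := hcg _ _ hg.1.coeFn_toLp
  have h6 := hcg _ _ ((Lp.coeFn_add (hf.1.toLp U) (hg.1.toLp V)).trans
    (hf.1.coeFn_toLp.add hg.1.coeFn_toLp))
  rw [map_add] at h3
  filter_upwards [h1, h2, h3, h4, h5, h6, Lp.coeFn_add ((J ^ m) (hf.1.toLp U))
    ((J ^ m) (hg.1.toLp V))] with x a1 a2 a3 a4 a5 a6 a7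
  simp only [Pi.add_apply] at a7 ⊢
  rw [← a6, ← a3, a7, a1, a2, a4, a5]

lemma isD_smul (hμ : ∀ L : StrongDual ℝ Ω, ∫ x, L x ∂μ = 0) {p : ℝ≥0∞} (hp : 1 ≤ p)
    (hp' : p ≠ ∞) {m : ℕ} {f U : Ω → ℝ} (c : ℝ) (hf : IsD μ p (2 * m) f U) :
    IsD μ p (2 * m) (c • f) (c • U) := by
  have : Fact (1 ≤ p) := ⟨hp⟩
  refine ⟨hf.1.const_smul c, (hf.2.const_smul c).trans ?_⟩
  obtain ⟨T, J, hJ⟩ := gOUL hμ p hp'
  have hcg := (gPOT hμ p hp hp').1 (2 * m)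
  have h1 := hJ.pot_ae m (hf.1.toLp U)
  have h3 := hJ.pot_ae m (c • hf.1.toLp U)
  have h4 := hcg _ _ hf.1.coeFn_toLp
  have h6 := hcg _ _ ((Lp.coeFn_smul c (hf.1.toLp U)).trans (hf.1.coeFn_toLp.const_smul c))
  rw [map_smul] at h3
  filter_upwards [h1, h3, h4, h6, Lp.coeFn_smul c ((J ^ m) (hf.1.toLp U))] with x a1 a3 a4 a6 a7
  simp only [Pi.smul_apply] at a7 ⊢
  rw [← a6, ← a3, a7, a1, a4]

lemma dinf_add (hμ : ∀ L : StrongDual ℝ Ω, ∫ x, L x ∂μ = 0) {f g : Ω → ℝ} (hf : Dinf μ f)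
    (hg : Dinf μ g) : Dinf μ (f + g) := by
  rw [dinf_even hμ] at *
  intro p hp m
  obtain ⟨U, hU⟩ := hf p hp m
  obtain ⟨V, hV⟩ := hg p hp m
  exact ⟨U + V, isD_add hμ (by exact_mod_cast (le_trans one_le_two hp)) (by simp) hU hV⟩

lemma dinf_smul (hμ : ∀ L : StrongDual ℝ Ω, ∫ x, L x ∂μ = 0) {f : Ω → ℝ} (c : ℝ)
    (hf : Dinf μ f) : Dinf μ (c • f) := by
  rw [dinf_even hμ] at *
  intro p hp m
  obtain ⟨U, hU⟩ := hf p hp m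
  exact ⟨c • U, isD_smul hμ (by exact_mod_cast (le_trans one_le_two hp)) (by simp) c hU⟩

lemma dinf_congr {f g : Ω → ℝ} (hf : Dinf μ f) (h : f =ᵐ[μ] g) : Dinf μ g := by
  intro p hp r
  obtain ⟨U, hU1, hU2⟩ := hf p hp r
  exact ⟨U, hU1, h.symm.trans hU2⟩

lemma dinf_memLp {f : Ω → ℝ} (hf : Dinf μ f) {p : ℝ≥0∞} (hp' : p ≠ ∞) : MemLp f p μ := by
  obtain ⟨U, hU1, hU2⟩ := hf (max p.toReal 2) (lt_of_lt_of_le one_lt_two (le_max_right _ _)) 0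
  have h1 : f =ᵐ[μ] U := by
    have : pot μ 0 U = U := by unfold pot; rw [if_pos rfl]
    rw [this] at hU2
    exact hU2
  have h2 : MemLp f (ENNReal.ofReal (max p.toReal 2)) μ := (memLp_congr_ae h1).2 hU1
  refine h2.mono_exponent ?_
  calc p = ENNReal.ofReal p.toReal := (ENNReal.ofReal_toReal hp').symm
    _ ≤ _ := ENNReal.ofReal_le_ofReal (le_max_left _ _)

lemma dinf_sq (hμ : ∀ L : StrongDual ℝ Ω, ∫ x, L x ∂μ = 0) {f : Ω → ℝ} (hf : Dinf μ f) :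
    Dinf μ (fun x => f x * f x) := by
  have hUB : ∀ p : ℕ, 2 ≤ p → UB μ p {f} := by
    intro p _
    refine ⟨(eLpNorm f p μ).toReal, ENNReal.toReal_nonneg, ?_⟩
    intro V hV
    rw [Set.mem_singleton_iff.1 hV]
    have h1 : MemLp f (p : ℝ≥0∞) μ := dinf_memLp hf (by simp)
    exact ⟨h1, by rw [ENNReal.ofReal_toReal h1.2.ne]⟩
  have hUD : UD μ 2 {f} := by
    intro m
    obtain ⟨U, hU⟩ := (dinf_even hμ).1 hf 2 le_rfl m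
    refine ⟨(eLpNorm U (2 : ℕ) μ).toReal, ENNReal.toReal_nonneg, ?_⟩
    intro V hV
    rw [Set.mem_singleton_iff.1 hV]
    refine ⟨U, hU, ?_⟩
    rw [ENNReal.ofReal_toReal hU.1.2.ne]
  have hUS := gL1 hμ {f} hUB hUD
  rw [dinf_even hμ]
  intro p hp m
  obtain ⟨a1, a2⟩ := gPROD hμ (ContinuousLinearMap.mul ℝ ℝ) (fun v w => by simp) {f} p hp
    (hUB (2 * p) (by omega)) (hUS (2 * p) (by omega))
  obtain ⟨D, -, hD⟩ := gL3 hμ p hp _ a1 a2 m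
  obtain ⟨U, hU, -⟩ := hD (fun x => f x * f x) ⟨f, rfl, by funext x; simp⟩
  exact ⟨U, hU⟩

lemma dinf_mul (hμ : ∀ L : StrongDual ℝ Ω, ∫ x, L x ∂μ = 0) {f g : Ω → ℝ} (hf : Dinf μ f)
    (hg : Dinf μ g) : Dinf μ (f * g) := by
  have h1 := dinf_smul hμ (1 / 4) (dinf_sq hμ (dinf_add hμ hf hg))
  have h2 := dinf_smul hμ (-(1 / 4)) (dinf_sq hμ (dinf_add hμ hf (dinf_smul hμ (-1) hg)))
  refine dinf_congr (dinf_add hμ h1 h2) (Eventually.of_forall fun x => ?_)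
  simp only [Pi.add_apply, Pi.smul_apply, Pi.mul_apply, smul_eq_mul]
  ring

end Pool.Agent.Zk98.WD
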