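import Mathlib
import Pool.Agent.R876.WM.Defs

/-!
# Definitions: `D^∞`-derivations on the classical Wiener space

From the library file `Pool.Agent.R876.WM.Defs`: `ou μ t` is the Ornstein-Uhlenbeck semigroup (Mehler's
formula), `pot μ r` the operator `(1 - L)^(-r/2)` (Gamma integral of the semigroup),
`IsD μ p r f U` says that `f ∈ D^p_r` and `(1 - L)^(r/2) f = U` (so `‖f‖_{p,r} = ‖U‖_p`), and `Dinf μ f` says
`f ∈ D^∞ = ⋂_{p>1, r} D^p_r`.
-/

open MeasureTheory ProbabilityTheory Filter Topology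
open scoped ENNReal NNReal unitInterval RealInnerProductSpace

namespace Pool.Agent.Zk98.WD

open Pool.Agent.R876.WM (IsD Dinf)

universe u

section general

variable {Ω : Type u} [NormedAddCommGroup Ω] [NormedSpace ℝ Ω] [MeasurableSpace Ω]

/-- `δ` is a `D^∞`-derivation: a linear map `D^∞ → D^∞` (on classes of a.e. equal functionals) with the
Leibniz rule, continuous for the norms `‖·‖_{p,r}` of `D^∞`. -/
structure IsDerivation (μ : Measure Ω) (δ : (Ω → ℝ) → (Ω → ℝ)) : Prop where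
  congr : ∀ f g, Dinf μ f → f =ᵐ[μ] g → δ f =ᵐ[μ] δ g
  maps : ∀ f, Dinf μ f → Dinf μ (δ f)
  add : ∀ f g, Dinf μ f → Dinf μ g → δ (f + g) =ᵐ[μ] δ f + δ g
  smul : ∀ (c : ℝ) f, Dinf μ f → δ (c • f) =ᵐ[μ] c • δ f
  leibniz : ∀ f g, Dinf μ f → Dinf μ g → δ (f * g) =ᵐ[μ] f * δ g + g * δ f
  cont : ∀ p : ℝ, 1 < p → ∀ r : ℕ, ∃ p' : ℝ, 1 < p' ∧ ∃ (s : ℕ) (C : ℝ≥0), ∀ f, Dinf μ f →
    ∀ U, IsD μ (ENNReal.ofReal p') s f U → ∃ V, IsD μ (ENNReal.ofReal p) r (δ f) V ∧
      eLpNorm V (ENNReal.ofReal p) μ ≤ C * eLpNorm U (ENNReal.ofReal p') μ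

end general

/-- the space `ℝⁿ` -/
abbrev E (n : ℕ) : Type := EuclideanSpace ℝ (Fin n)

/-- continuous paths `[0,1] → ℝⁿ` which start at zero, as a closed subspace -/
def PathS (n : ℕ) : Submodule ℝ C(I, E n) where
  carrier := {ω | ω 0 = 0}
  add_mem' := by
    intro a b ha hb
    simp only [Set.mem_ofPred_eq] at ha hb
    simp [ha, hb]
  zero_mem' := by simp
  smul_mem' := by
    intro c a ha
    simp only [Set.mem_ofPred_eq] at ha
    simp [ha]

/-- the space `C₀([0,1], ℝⁿ)` with the supremum norm -/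
def Path (n : ℕ) : Type := ↥(PathS n)

noncomputable instance instNormedPath (n : ℕ) : NormedAddCommGroup (Path n) :=
  Submodule.normedAddCommGroup (PathS n)
noncomputable instance instSpacePath (n : ℕ) : NormedSpace ℝ (Path n) :=
  Submodule.normedSpace (PathS n)
noncomputable instance (n : ℕ) : MeasurableSpace (Path n) := borel _
instance (n : ℕ) : BorelSpace (Path n) := ⟨rfl⟩

/-- `P` is the Wiener measure on `C₀([0,1], ℝⁿ)` -/
structure IsWiener {n : ℕ} (P : Measure (Path n)) : Prop where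
  gauss : IsGaussian P
  mean : ∀ (a : E n) (t : I), ∫ ω, ⟪a, ω.1 t⟫ ∂P = 0
  cov : ∀ (a b : E n) (s t : I), ∫ ω, ⟪a, ω.1 s⟫ * ⟪b, ω.1 t⟫ ∂P = min (s : ℝ) t * ⟪a, b⟫

variable {n : ℕ}

/-- a smooth cylindrical functional `ω ↦ φ (ω t₁, …, ω t_m)`; `φ` is smooth and all its derivatives
have at most polynomial growth -/
structure Cyl (n : ℕ) where
  /-- the number of times -/
  m : ℕ
  /-- the times -/
  t : Fin m → I
  /-- the function -/
  φ : (Fin m → E n) → ℝ
  growth : φ.HasTemperateGrowth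

/-- the functional -/
def Cyl.fn (c : Cyl n) (ω : Path n) : ℝ := c.φ fun i => ω.1 (c.t i)

/-- the gradient of a smooth cylindrical functional, as a process: the density
`s ↦ ∑_{i : s ≤ t_i} ∇_i φ (ω t₁, …, ω t_m)` of the `H`-valued Malliavin derivative -/
noncomputable def Cyl.grad (c : Cyl n) (z : Path n × I) : E n :=
  WithLp.toLp 2 fun j : Fin n => ∑ i : Fin c.m, if z.2 ≤ c.t i then
    fderiv ℝ c.φ (fun i => z.1.1 (c.t i)) (Pi.single i (EuclideanSpace.single j 1)) else 0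

/-- the process `u` is (the density of) `grad f`: closure in `L²` of the gradient on smooth
cylindrical functionals -/
def IsGrad (P : Measure (Path n)) (f : Path n → ℝ) (u : Path n × I → E n) : Prop :=
  MemLp f 2 P ∧ MemLp u 2 (P.prod volume) ∧ ∃ c : ℕ → Cyl n,
    Tendsto (fun k => eLpNorm (fun ω => (c k).fn ω - f ω) 2 P) atTop (𝓝 0) ∧
    Tendsto (fun k => eLpNorm (fun z => (c k).grad z - u z) 2 (P.prod volume)) atTop (𝓝 0)

/-- `G = div V`: the divergence (Skorokhod integral) is the adjoint of the gradient -/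
def IsDiv (P : Measure (Path n)) (V : Path n × I → E n) (G : Path n → ℝ) : Prop :=
  ∀ c : Cyl n, ∫ ω, c.fn ω * G ω ∂P = ∫ z, ⟪c.grad z, V z⟫ ∂(P.prod volume)

/-- `δ f = ⟨grad f, X⟩_H + div (A grad f)` for all `f ∈ D^∞` -/
def HasForm (P : Measure (Path n)) (δ : (Path n → ℝ) → (Path n → ℝ)) (X : Path n × I → E n)
    (A : Path n × I → (E n →L[ℝ] E n)) : Prop :=
  ∀ f, Dinf P f → ∀ u, IsGrad P f u →
    IsDiv P (fun z => A z (u z)) (fun ω => δ f ω - ∫ s, ⟪u (ω, s), X (ω, s)⟫)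

end Pool.Agent.Zk98.WD
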