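import Pool.Agent.Zk98.WD.Key

/-!
# Density of the trigonometric functions in `L^p`
-/

open MeasureTheory ProbabilityTheory Filter Topology
open scoped ENNReal NNReal

set_option linter.unusedSectionVars false
set_option linter.deprecated false

namespace Pool.Agent.Zk98.WD

variable {Ω : Type*} [NormedAddCommGroup Ω] [NormedSpace ℝ Ω] [CompleteSpace Ω]
  [SecondCountableTopology Ω] [MeasurableSpace Ω] [BorelSpace Ω]
  {μ : Measure Ω} [IsProbabilityMeasure μ]

/-- trigonometric functions -/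
def IsTrig (f : Ω → ℝ) : Prop :=
  ∃ (ι : Type) (_ : Fintype ι) (c θ : ι → ℝ) (L : ι → StrongDual ℝ Ω), f = trig c θ L

lemma IsTrig.add {f g : Ω → ℝ} (hf : IsTrig f) (hg : IsTrig g) : IsTrig (f + g) := by
  obtain ⟨ι, _, c, θ, L, rfl⟩ := hf
  obtain ⟨κ, _, c', θ', L', rfl⟩ := hg
  refine ⟨ι ⊕ κ, inferInstance, Sum.elim c c', Sum.elim θ θ', Sum.elim L L', ?_⟩
  funext x
  simp [trig, Fintype.sum_sum_type]

lemma IsTrig.mul {f g : Ω → ℝ} (hf : IsTrig f) (hg : IsTrig g) : IsTrig (f * g) := by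
  obtain ⟨ι, _, c, θ, L, rfl⟩ := hf
  obtain ⟨κ, _, c', θ', L', rfl⟩ := hg
  refine ⟨(ι × κ) ⊕ (ι × κ), inferInstance,
    Sum.elim (fun z => c z.1 * c' z.2 / 2) (fun z => c z.1 * c' z.2 / 2),
    Sum.elim (fun z => θ z.1 + θ' z.2) (fun z => θ z.1 - θ' z.2),
    Sum.elim (fun z => L z.1 + L' z.2) (fun z => L z.1 - L' z.2), ?_⟩
  funext x
  simp only [trig, Pi.mul_apply, Fintype.sum_sum_type, Sum.elim_inl, Sum.elim_inr]
  rw [Finset.sum_mul_sum, ← Finset.sum_add_distrib, Fintype.sum_prod_type]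
  refine Finset.sum_congr rfl fun i _ => Finset.sum_congr rfl fun j _ => ?_
  simp only [ContinuousLinearMap.add_apply, ContinuousLinearMap.sub_apply]
  rw [show θ i + θ' j + (L i x + L' j x) = (θ i + L i x) + (θ' j + L' j x) by ring,
    show θ i - θ' j + (L i x - L' j x) = (θ i + L i x) - (θ' j + L' j x) by ring]
  generalize θ i + L i x = α
  generalize θ' j + L' j x = β
  rw [Real.cos_add, Real.cos_sub]
  ring

lemma isTrig_const (r : ℝ) : IsTrig (fun _ : Ω => r) := by
  refine ⟨Unit, inferInstance, fun _ => r, fun _ => 0, fun _ => 0, ?_⟩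
  funext x
  simp [trig]

lemma isTrig_cos (θ : ℝ) (L : StrongDual ℝ Ω) : IsTrig (fun x : Ω => Real.cos (θ + L x)) := by
  refine ⟨Unit, inferInstance, fun _ => 1, fun _ => θ, fun _ => L, ?_⟩
  funext x
  simp [trig]

lemma IsTrig.continuous {f : Ω → ℝ} (hf : IsTrig f) : Continuous f := by
  obtain ⟨ι, _, c, θ, L, rfl⟩ := hf
  exact trig_continuous c θ L

lemma IsTrig.bound {f : Ω → ℝ} (hf : IsTrig f) : ∃ N : ℝ, 0 ≤ N ∧ ∀ x, ‖f x‖ ≤ N := by
  obtain ⟨ι, _, c, θ, L, rfl⟩ := hf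
  exact ⟨∑ i, |c i|, Finset.sum_nonneg fun i _ => abs_nonneg _, trig_bound c θ L⟩

lemma IsTrig.memLp {f : Ω → ℝ} (hf : IsTrig f) (p : ℝ≥0∞) : MemLp f p μ := by
  obtain ⟨N, -, hN⟩ := hf.bound
  exact MemLp.of_bound hf.continuous.aestronglyMeasurable N (Eventually.of_forall hN)

variable (Ω) in
/-- the algebra of trigonometric functions -/
def trigAlg : Subalgebra ℝ (Ω → ℝ) where
  carrier := {f | IsTrig f}
  mul_mem' := fun ha hb => IsTrig.mul ha hb
  add_mem' := fun ha hb => IsTrig.add ha hb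
  algebraMap_mem' := fun r => isTrig_const r

lemma IsTrig.poly {f : Ω → ℝ} (hf : IsTrig f) (P : Polynomial ℝ) :
    IsTrig (fun x => P.eval (f x)) := by
  have h1 : f ∈ trigAlg Ω := hf
  have h2 := Polynomial.aeval_mem_adjoin_singleton ℝ f (p := P)
  have h3 : Algebra.adjoin ℝ {f} ≤ trigAlg Ω := Algebra.adjoin_le (by simpa using h1)
  have h4 : IsTrig (Polynomial.aeval f P) := h3 h2
  have h5 : Polynomial.aeval f P = fun x => P.eval (f x) := by
    funext x
    rw [Polynomial.aeval_fn_apply]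
    simp
  rwa [h5] at h4

/-- an integrable function orthogonal to all trigonometric functions vanishes -/
lemma eq_zero_of_orth {F : Ω → ℝ} (hm : Measurable F) (hi : Integrable F μ)
    (h : ∀ (θ : ℝ) (L : StrongDual ℝ Ω), ∫ x, Real.cos (θ + L x) * F x ∂μ = 0) : F =ᵐ[μ] 0 := by
  set f1 : Ω → ℝ≥0∞ := fun x => ENNReal.ofReal (F x) with hf1
  set f2 : Ω → ℝ≥0∞ := fun x => ENNReal.ofReal (- F x) with hf2
  have m1 : Measurable f1 := hm.ennreal_ofReal
  have m2 : Measurable f2 := hm.neg.ennreal_ofReal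
  have n1 : ∫⁻ x, f1 x ∂μ ≠ ∞ := by
    refine ne_top_of_le_ne_top hi.2.ne (lintegral_mono fun x => ?_)
    rw [hf1]; simp only
    rw [← ofReal_norm_eq_enorm]
    exact ENNReal.ofReal_le_ofReal (le_abs_self _)
  have n2 : ∫⁻ x, f2 x ∂μ ≠ ∞ := by
    refine ne_top_of_le_ne_top hi.2.ne (lintegral_mono fun x => ?_)
    rw [hf2]; simp only
    rw [← ofReal_norm_eq_enorm]
    exact ENNReal.ofReal_le_ofReal (neg_le_abs _)
  have : IsFiniteMeasure (μ.withDensity f1) := isFiniteMeasure_withDensity n1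
  have : IsFiniteMeasure (μ.withDensity f2) := isFiniteMeasure_withDensity n2
  have key : μ.withDensity f1 = μ.withDensity f2 := by
    apply Measure.ext_of_charFunDual
    ext L
    rw [charFunDual_apply, charFunDual_apply,
      integral_withDensity_eq_integral_toReal_smul m1 (Eventually.of_forall fun x => by simp [hf1]),
      integral_withDensity_eq_integral_toReal_smul m2 (Eventually.of_forall fun x => by simp [hf2])]
    rw [← sub_eq_zero, ← integral_sub]
    · have e1 : ∀ x, (f1 x).toReal • Complex.exp ((L x : ℂ) * Complex.I) -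
          (f2 x).toReal • Complex.exp ((L x : ℂ) * Complex.I) =
          ((Real.cos (0 + L x) * F x : ℝ) : ℂ) +
            ((Real.cos (-(Real.pi / 2) + L x) * F x : ℝ) : ℂ) * Complex.I := by
        intro x
        rw [← sub_smul]
        have e2 : (f1 x).toReal - (f2 x).toReal = F x := by
          simp only [hf1, hf2, ENNReal.toReal_ofReal']
          rcases le_total 0 (F x) with h0 | h0
          · rw [max_eq_left h0, max_eq_right (by linarith)]; ring
          · rw [max_eq_right h0, max_eq_left (by linarith)]; ring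
        rw [e2, zero_add, show -(Real.pi / 2) + L x = L x - Real.pi / 2 by ring,
          Real.cos_sub_pi_div_two, Complex.exp_mul_I, Complex.real_smul]
        push_cast
        ring
      simp_rw [e1]
      have i1 : ∀ θ : ℝ, Integrable (fun x => Real.cos (θ + L x) * F x) μ := by
        intro θ
        refine hi.bdd_mul (c := 1) (by fun_prop) (Eventually.of_forall fun y => ?_)
        exact Real.abs_cos_le_one _
      rw [integral_add (i1 0).ofReal ((i1 _).ofReal.mul_const _), integral_mul_const,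
        integral_complex_ofReal, integral_complex_ofReal, h, h]
      simp
    · refine (integrable_withDensity_iff_integrable_smul' m1
        (Eventually.of_forall fun x => by simp [hf1])).1 ?_
      refine Integrable.of_bound (C := 1) (by fun_prop) (Eventually.of_forall fun x => ?_)
      rw [Complex.norm_exp_ofReal_mul_I]
    · refine (integrable_withDensity_iff_integrable_smul' m2
        (Eventually.of_forall fun x => by simp [hf2])).1 ?_
      refine Integrable.of_bound (C := 1) (by fun_prop) (Eventually.of_forall fun x => ?_)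
      rw [Complex.norm_exp_ofReal_mul_I]
  have h2 := (withDensity_eq_iff m1.aemeasurable m2.aemeasurable n1).1 key
  filter_upwards [h2] with x hx
  simp only [hf1, hf2] at hx
  simp only [Pi.zero_apply]
  rcases le_total 0 (F x) with h0 | h0
  · rw [ENNReal.ofReal_of_nonpos (show -F x ≤ 0 by linarith)] at hx
    exact le_antisymm (ENNReal.ofReal_eq_zero.1 hx) h0
  · rw [ENNReal.ofReal_of_nonpos h0] at hx
    have := ENNReal.ofReal_eq_zero.1 hx.symm
    linarith

/-- density in `L²` -/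
lemma dense_two {f : Ω → ℝ} (hf : MemLp f 2 μ) {ε : ℝ} (hε : 0 < ε) :
    ∃ g, IsTrig g ∧ eLpNorm (fun x => f x - g x) 2 μ ≤ ENNReal.ofReal ε := by
  let K : Submodule ℝ (Lp ℝ 2 μ) :=
    { carrier := {F | ∃ g, IsTrig g ∧ (F : Ω → ℝ) =ᵐ[μ] g}
      add_mem' := by
        rintro F G ⟨f, hf, hF⟩ ⟨g, hg, hG⟩
        exact ⟨f + g, hf.add hg, (Lp.coeFn_add F G).trans (hF.add hG)⟩
      zero_mem' := ⟨fun _ => 0, isTrig_const 0, Lp.coeFn_zero ℝ 2 μ⟩
      smul_mem' := by
        rintro c F ⟨f, hf, hF⟩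
        refine ⟨(fun _ => c) * f, (isTrig_const c).mul hf, (Lp.coeFn_smul c F).trans ?_⟩
        filter_upwards [hF] with x hx
        simp [hx] }
  have hK : Kᗮ = ⊥ := by
    rw [eq_bot_iff]
    intro F hF
    rw [Submodule.mem_bot]
    apply Lp.ext
    refine (eq_zero_of_orth (Lp.stronglyMeasurable F).measurable
      ((Lp.memLp F).integrable (by norm_num)) ?_).trans (Lp.coeFn_zero ℝ 2 μ).symm
    intro θ L
    have h1 : IsTrig (fun x : Ω => Real.cos (θ + L x)) := isTrig_cos θ L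
    have h2 := (Submodule.mem_orthogonal K F).1 hF ((h1.memLp (μ := μ) 2).toLp _)
      ⟨_, h1, MemLp.coeFn_toLp _⟩
    rw [L2.inner_def] at h2
    rw [← h2]
    refine integral_congr_ae ?_
    filter_upwards [(h1.memLp (μ := μ) 2).coeFn_toLp] with x hx
    rw [hx]
    simp [mul_comm]
  have hd : K.topologicalClosure = ⊤ := (Submodule.topologicalClosure_eq_top_iff).2 hK
  have h1 : hf.toLp f ∈ closure (K : Set (Lp ℝ 2 μ)) := by
    rw [← Submodule.topologicalClosure_coe, hd]
    trivial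
  obtain ⟨G, ⟨g, hg, hG⟩, hGd⟩ := Metric.mem_closure_iff.1 h1 ε hε
  refine ⟨g, hg, ?_⟩
  rw [dist_eq_norm, Lp.norm_def] at hGd
  have h2 : eLpNorm (fun x => f x - g x) 2 μ = eLpNorm (hf.toLp f - G : Lp ℝ 2 μ) 2 μ := by
    refine eLpNorm_congr_ae ?_
    refine EventuallyEq.trans ?_ (Lp.coeFn_sub _ _).symm
    filter_upwards [hf.coeFn_toLp, hG] with x h3 h4
    rw [Pi.sub_apply, h3, h4]
  rw [h2, ENNReal.le_ofReal_iff_toReal_le (Lp.memLp _).2.ne hε.le]
  exact hGd.le

lemma eLpNorm_le_of_bdd {p : ℝ≥0∞} (hp2 : 2 ≤ p) (hp' : p ≠ ∞) {u : Ω → ℝ} {A : ℝ≥0}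
    (hA : ∀ x, ‖u x‖ₑ ≤ A) :
    eLpNorm u p μ ≤ ((A : ℝ≥0∞) ^ (p.toReal - 2)) ^ (1 / p.toReal) *
      (eLpNorm u 2 μ) ^ (2 / p.toReal) := by
  have hp0 : p ≠ 0 := (lt_of_lt_of_le (by norm_num) hp2).ne'
  have hpos : 0 < p.toReal := ENNReal.toReal_pos hp0 hp'
  have h2 : (2 : ℝ) ≤ p.toReal := by
    have := (ENNReal.toReal_le_toReal (by norm_num) hp').2 hp2
    simpa using this
  have h0 : (eLpNorm u 2 μ) ^ (2 / p.toReal) = (∫⁻ x, ‖u x‖ₑ ^ (2 : ℝ) ∂μ) ^ (1 / p.toReal) := by
    rw [eLpNorm_eq_lintegral_rpow_enorm_toReal (by norm_num) (by norm_num), ← ENNReal.rpow_mul]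
    simp only [ENNReal.toReal_ofNat]
    congr 1
    field_simp
  rw [h0, eLpNorm_eq_lintegral_rpow_enorm_toReal hp0 hp',
    ← ENNReal.mul_rpow_of_nonneg _ _ (by positivity)]
  refine ENNReal.rpow_le_rpow ?_ (by positivity)
  have h3 : ∀ x, ‖u x‖ₑ ^ p.toReal ≤ (A : ℝ≥0∞) ^ (p.toReal - 2) * ‖u x‖ₑ ^ (2 : ℝ) := by
    intro x
    have h4 : ‖u x‖ₑ ^ p.toReal = ‖u x‖ₑ ^ (p.toReal - 2) * ‖u x‖ₑ ^ (2 : ℝ) := by
      rw [← ENNReal.rpow_add_of_nonneg _ _ (by linarith) (by simp)]
      congr 1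
      ring
    rw [h4]
    gcongr
    exact hA x
  have h5 : (A : ℝ≥0∞) ^ (p.toReal - 2) ≠ ∞ :=
    ENNReal.rpow_ne_top_of_nonneg (by linarith) ENNReal.coe_ne_top
  calc ∫⁻ x, ‖u x‖ₑ ^ p.toReal ∂μ ≤ ∫⁻ x, (A : ℝ≥0∞) ^ (p.toReal - 2) * ‖u x‖ₑ ^ (2 : ℝ) ∂μ :=
        lintegral_mono h3
    _ = _ := lintegral_const_mul' _ _ h5

/-- truncation -/
noncomputable def clamp (M x : ℝ) : ℝ := max (-M) (min M x)

lemma clamp_continuous (M : ℝ) : Continuous (clamp M) := by unfold clamp; fun_prop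

lemma abs_clamp_le {M : ℝ} (hM : 0 ≤ M) (x : ℝ) : |clamp M x| ≤ M := by
  unfold clamp
  rw [abs_le]
  constructor
  · exact le_max_left _ _
  · exact max_le (by linarith) (min_le_left _ _)

lemma clamp_sub_le {M x y : ℝ} (hy : |y| ≤ M) : |clamp M x - y| ≤ |x - y| := by
  unfold clamp
  rw [abs_le] at hy
  rcases le_total x M with h1 | h1
  · rw [min_eq_right h1]
    rcases le_total (-M) x with h2 | h2
    · rw [max_eq_right h2]
    · rw [max_eq_left h2, abs_of_nonpos (by linarith), abs_of_nonpos (by linarith)]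
      linarith
  · rw [min_eq_left h1, max_eq_right (by linarith), abs_of_nonneg (by linarith),
      abs_of_nonneg (by linarith)]
    linarith

/-- approximation of bounded functions -/
lemma dense_bdd {p : ℝ≥0∞} (hp2 : 2 ≤ p) (hp' : p ≠ ∞) {f : Ω → ℝ} (hf : Measurable f) {M : ℝ}
    (hM : 0 ≤ M) (hfM : ∀ x, |f x| ≤ M) {ε : ℝ≥0∞} (hε : ε ≠ 0) :
    ∃ g, IsTrig g ∧ eLpNorm (g - f) p μ ≤ ε := by
  have hpos : 0 < p.toReal := ENNReal.toReal_pos (lt_of_lt_of_le (by norm_num) hp2).ne' hp'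
  have hp1 : 1 ≤ p := le_trans (by norm_num) hp2
  set A : ℝ≥0 := ⟨2 * M, by positivity⟩ with hA
  set D : ℝ≥0∞ := ((A : ℝ≥0∞) ^ (p.toReal - 2)) ^ (1 / p.toReal) with hD
  have h2 : (2 : ℝ) ≤ p.toReal := by
    have := (ENNReal.toReal_le_toReal (by norm_num) hp').2 hp2
    simpa using this
  have hDt : D ≠ ∞ := ENNReal.rpow_ne_top_of_nonneg (by positivity)
    (ENNReal.rpow_ne_top_of_nonneg (by linarith) ENNReal.coe_ne_top)
  have hlim : Tendsto (fun δ : ℝ => ENNReal.ofReal δ + D * (ENNReal.ofReal δ) ^ (2 / p.toReal))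
      (𝓝[>] 0) (𝓝 0) := by
    have a1 : Tendsto (fun δ : ℝ => ENNReal.ofReal δ) (𝓝[>] 0) (𝓝 0) := by
      have := (ENNReal.continuous_ofReal.tendsto 0).mono_left
        (nhdsWithin_le_nhds (s := Set.Ioi (0 : ℝ)))
      simpa using this
    have a2 : Tendsto (fun δ : ℝ => (ENNReal.ofReal δ) ^ (2 / p.toReal)) (𝓝[>] 0) (𝓝 0) := by
      have := (ENNReal.continuous_rpow_const (y := 2 / p.toReal)).tendsto 0
      rw [ENNReal.zero_rpow_of_pos (by positivity)] at this
      exact this.comp a1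
    have a3 := a1.add (ENNReal.Tendsto.const_mul a2 (Or.inr hDt))
    simpa using a3
  obtain ⟨δ, hδ1, hδ0⟩ := ((hlim.eventually (gt_mem_nhds (pos_iff_ne_zero.2 hε))).and
    self_mem_nhdsWithin).exists
  have hδ0 : 0 < δ := hδ0
  have hf2 : MemLp f 2 μ := MemLp.of_bound hf.aestronglyMeasurable M (Eventually.of_forall hfM)
  obtain ⟨g, hg, hgf⟩ := dense_two hf2 hδ0
  obtain ⟨N, hN, hgN⟩ := hg.bound
  obtain ⟨P, hP⟩ := exists_polynomial_near_of_continuousOn (-N) N (clamp M)
    (clamp_continuous M).continuousOn δ hδ0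
  refine ⟨fun x => P.eval (g x), hg.poly P, ?_⟩
  have hgm : Measurable g := hg.continuous.measurable
  have e1 : (fun x => P.eval (g x)) - f = (fun x => P.eval (g x) - clamp M (g x)) +
      fun x => clamp M (g x) - f x := by
    funext x
    simp only [Pi.sub_apply, Pi.add_apply]
    ring
  rw [e1]
  have m1 : AEStronglyMeasurable (fun x => P.eval (g x) - clamp M (g x)) μ := by
    have c1 : Continuous (fun x => P.eval (g x) - clamp M (g x)) :=
      (P.continuous.comp hg.continuous).sub ((clamp_continuous M).comp hg.continuous)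
    exact c1.aestronglyMeasurable
  have m2 : AEStronglyMeasurable (fun x => clamp M (g x) - f x) μ :=
    (((clamp_continuous M).comp hg.continuous).measurable.sub hf).aestronglyMeasurable
  refine (eLpNorm_add_le m1 m2 hp1).trans (le_trans (add_le_add ?_ ?_) hδ1.le)
  · have b1 : ∀ x, ‖P.eval (g x) - clamp M (g x)‖ ≤ δ := fun x => by
      refine (hP (g x) ?_).le
      have := hgN x
      rw [Real.norm_eq_abs, abs_le] at this
      exact this
    refine (eLpNorm_le_of_ae_bound (Eventually.of_forall b1)).trans ?_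
    simp
  · have b2 : ∀ x, ‖clamp M (g x) - f x‖ₑ ≤ (A : ℝ≥0∞) := by
      intro x
      have : ‖clamp M (g x) - f x‖ ≤ 2 * M := by
        rw [Real.norm_eq_abs]
        calc _ ≤ |clamp M (g x)| + |f x| := abs_sub _ _
          _ ≤ M + M := add_le_add (abs_clamp_le hM _) (hfM x)
          _ = 2 * M := by ring
      rw [← ofReal_norm_eq_enorm]
      refine (ENNReal.ofReal_le_ofReal this).trans (le_of_eq ?_)
      rw [ENNReal.ofReal_eq_coe_nnreal (by positivity)]
      rfl
    refine (eLpNorm_le_of_bdd hp2 hp' b2).trans ?_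
    gcongr
    refine le_trans (eLpNorm_mono fun x => ?_) hgf
    rw [Real.norm_eq_abs, Real.norm_eq_abs, abs_sub_comm (f x)]
    exact clamp_sub_le (hfM x)

/-- density of the trigonometric functions in `L^p` -/
theorem dense_trig {p : ℝ≥0∞} (hp2 : 2 ≤ p) (hp' : p ≠ ∞) {f : Ω → ℝ} (hf : MemLp f p μ)
    {ε : ℝ≥0∞} (hε : ε ≠ 0) : ∃ g, eLpNorm (f - g) p μ ≤ ε ∧ IsTrig g := by
  refine hf.induction_dense hp' IsTrig ?_ (fun f g hf hg => hf.add hg)
    (fun f hf => hf.continuous.aestronglyMeasurable) hε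
  intro c s hs _ ε hε
  obtain ⟨g, hg, h⟩ := dense_bdd (μ := μ) hp2 hp' (f := s.indicator fun _ => c)
    (measurable_const.indicator hs) (abs_nonneg c) (fun x => by
      by_cases hx : x ∈ s
      · simp [hx]
      · simp [hx]) hε
  exact ⟨g, h, hg⟩

end Pool.Agent.Zk98.WD
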