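import Pool.Agent.Zk98.WD.Dens

/-!
# Differentiation of trigonometric functions along the rotations
-/

open MeasureTheory ProbabilityTheory Filter Topology
open scoped ENNReal NNReal

set_option linter.unusedSectionVars false
set_option linter.deprecated false

namespace Pool.Agent.Zk98.WD

variable {Ω : Type*} [NormedAddCommGroup Ω] [NormedSpace ℝ Ω] [CompleteSpace Ω]
  [SecondCountableTopology Ω] [MeasurableSpace Ω] [BorelSpace Ω]
  {μ : Measure Ω}

/-- dominated convergence in `L^p` -/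
lemma tendsto_eLpNorm_zero {p : ℝ≥0∞} (hp0 : p ≠ 0) (hp' : p ≠ ∞) {f : ℝ → Ω → ℝ} {l : Filter ℝ}
    [l.IsCountablyGenerated] {g : Ω → ℝ} (hg : MemLp g p μ)
    (h1 : ∀ᶠ r in l, AEStronglyMeasurable (f r) μ) (h2 : ∀ᶠ r in l, ∀ x, ‖f r x‖ ≤ g x)
    (h3 : ∀ x, Tendsto (fun r => f r x) l (𝓝 0)) :
    Tendsto (fun r => eLpNorm (f r) p μ) l (𝓝 0) := by
  have hpos : 0 < p.toReal := ENNReal.toReal_pos hp0 hp'
  simp only [eLpNorm_eq_lintegral_rpow_enorm_toReal hp0 hp']
  have key : Tendsto (fun r => ∫⁻ x, ‖f r x‖ₑ ^ p.toReal ∂μ) l (𝓝 (∫⁻ _, 0 ∂μ)) := by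
    refine tendsto_lintegral_filter_of_dominated_convergence' (fun x => ‖g x‖ₑ ^ p.toReal) ?_ ?_ ?_ ?_
    · filter_upwards [h1] with r hr
      exact hr.enorm.pow_const _
    · filter_upwards [h2] with r hr
      refine Eventually.of_forall fun x => ENNReal.rpow_le_rpow ?_ hpos.le
      rw [← ofReal_norm_eq_enorm, ← ofReal_norm_eq_enorm]
      exact ENNReal.ofReal_le_ofReal ((hr x).trans (le_abs_self _))
    · have := hg.2
      rw [eLpNorm_eq_lintegral_rpow_enorm_toReal hp0 hp'] at this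
      intro hc
      rw [hc, ENNReal.top_rpow_of_pos (by positivity)] at this
      exact lt_irrefl _ this
    · refine Eventually.of_forall fun x => ?_
      have h4 : Tendsto (fun r => ‖f r x‖ₑ) l (𝓝 0) := by
        have := (continuous_enorm.tendsto (0 : ℝ)).comp (h3 x)
        rw [enorm_zero] at this
        exact this
      have h5 := ((ENNReal.continuous_rpow_const (y := p.toReal)).tendsto 0).comp h4
      rw [ENNReal.zero_rpow_of_pos hpos] at h5
      exact h5
  rw [lintegral_zero] at key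
  have h6 := ((ENNReal.continuous_rpow_const (y := 1 / p.toReal)).tendsto 0).comp key
  rw [ENNReal.zero_rpow_of_pos (by positivity)] at h6
  exact h6

variable [IsGaussian μ] {B : Ω →L[ℝ] Ω}

section

variable {ι : Type} [Fintype ι]

lemma gr_diag_continuous (c θ : ι → ℝ) (L : ι → StrongDual ℝ Ω) :
    Continuous (fun x : Ω => gr c θ L x (B x)) := by
  simp only [gr_apply]
  fun_prop

lemma abs_gr_le (c θ : ι → ℝ) (L : ι → StrongDual ℝ Ω) (x : Ω) :
    |gr c θ L x (B x)| ≤ ∑ i, |c i| * |L i (B x)| := by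
  rw [gr_apply]
  refine (Finset.abs_sum_le_sum_abs _ _).trans (Finset.sum_le_sum fun i _ => ?_)
  rw [abs_mul, abs_neg, abs_mul]
  calc |c i| * |Real.sin (θ i + L i x)| * |L i (B x)| ≤ |c i| * 1 * |L i (B x)| := by
        gcongr; exact Real.abs_sin_le_one _
    _ = _ := by ring

lemma memLp_dom {p : ℝ≥0∞} (hp' : p ≠ ∞) (c : ι → ℝ) (L : ι → StrongDual ℝ Ω) :
    MemLp (fun x => ∑ i, |c i| * (|L i x| + 2 * |L i (B x)|)) p μ := by
  refine memLp_finset_sum _ fun i _ => ?_
  have h1 : MemLp (fun x => |L i x|) p μ := (IsGaussian.memLp_dual μ (L i) p hp').abs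
  have h2 : MemLp (fun x => |L i (B x)|) p μ :=
    (IsGaussian.memLp_dual μ (L i ∘L B) p hp').abs
  exact (h1.add (h2.const_mul 2)).const_mul _

lemma memLp_gr {p : ℝ≥0∞} (hp' : p ≠ ∞) (c θ : ι → ℝ) (L : ι → StrongDual ℝ Ω) :
    MemLp (fun x => gr c θ L x (B x)) p μ := by
  refine (memLp_dom (B := B) (μ := μ) hp' c L).mono (gr_diag_continuous c θ L).aestronglyMeasurable
    (Eventually.of_forall fun x => ?_)
  rw [Real.norm_eq_abs, Real.norm_eq_abs]
  refine (abs_gr_le c θ L x).trans (le_trans ?_ (le_abs_self _))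
  refine Finset.sum_le_sum fun i _ => ?_
  gcongr
  have := abs_nonneg (L i x)
  have := abs_nonneg (L i (B x))
  linarith

lemma hasDerivAt_trig (c θ : ι → ℝ) (L : ι → StrongDual ℝ Ω) (x : Ω) :
    HasDerivAt (fun r : ℝ => trig c θ L (rotB B r x)) (gr c θ L x (B x)) 0 := by
  have e1 : (fun r : ℝ => trig c θ L (rotB B r x)) =
      fun r : ℝ => ∑ i, c i * Real.cos (θ i + (Real.cos r * L i x + Real.sin r * L i (B x))) := by
    funext r
    simp [trig, rotB_apply]
  rw [e1, gr_apply]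
  have h1 : ∀ i, HasDerivAt (fun r : ℝ => c i * Real.cos (θ i + (Real.cos r * L i x +
      Real.sin r * L i (B x)))) (-(c i * Real.sin (θ i + L i x)) * L i (B x)) 0 := by
    intro i
    have a1 : HasDerivAt (fun r : ℝ => θ i + (Real.cos r * L i x + Real.sin r * L i (B x)))
        (-Real.sin 0 * L i x + Real.cos 0 * L i (B x)) 0 :=
      (((Real.hasDerivAt_cos 0).mul_const _).add ((Real.hasDerivAt_sin 0).mul_const _)).const_add _
    have a2 := (a1.cos).const_mul (c i)
    refine a2.congr_deriv ?_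
    simp only [Real.cos_zero, Real.sin_zero, one_mul, zero_mul, neg_zero, zero_add, add_zero]
    ring
  exact HasDerivAt.fun_sum fun i _ => h1 i

lemma quot_bound (c θ : ι → ℝ) (L : ι → StrongDual ℝ Ω) (x : Ω) {r : ℝ} (hr : r ≠ 0) :
    ‖r⁻¹ * (trig c θ L (rotB B r x) - trig c θ L x) - gr c θ L x (B x)‖ ≤
      ∑ i, |c i| * (|L i x| + 2 * |L i (B x)|) := by
  have h1 : |trig c θ L (rotB B r x) - trig c θ L x| ≤
      |r| * ∑ i, |c i| * (|L i x| + |L i (B x)|) := by
    simp only [trig]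
    rw [← Finset.sum_sub_distrib, Finset.mul_sum]
    refine (Finset.abs_sum_le_sum_abs _ _).trans (Finset.sum_le_sum fun i _ => ?_)
    rw [← mul_sub, abs_mul]
    have a1 := Real.abs_cos_sub_cos_le (θ i + L i (rotB B r x)) (θ i + L i x)
    have a2 : θ i + L i (rotB B r x) - (θ i + L i x) =
        (Real.cos r - 1) * L i x + Real.sin r * L i (B x) := by
      simp [rotB_apply]
      ring
    rw [a2] at a1
    have a3 : |Real.cos r - 1| ≤ |r| := by
      have := Real.abs_cos_sub_cos_le r 0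
      simpa using this
    have a4 : |Real.sin r| ≤ |r| := Real.abs_sin_le_abs
    calc |c i| * |Real.cos (θ i + L i (rotB B r x)) - Real.cos (θ i + L i x)|
        ≤ |c i| * |(Real.cos r - 1) * L i x + Real.sin r * L i (B x)| := by gcongr
      _ ≤ |c i| * (|Real.cos r - 1| * |L i x| + |Real.sin r| * |L i (B x)|) := by
          gcongr
          refine (abs_add_le _ _).trans ?_
          rw [abs_mul, abs_mul]
      _ ≤ |c i| * (|r| * |L i x| + |r| * |L i (B x)|) := by gcongr
      _ = _ := by ring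
  have hr' : 0 < |r| := abs_pos.2 hr
  rw [Real.norm_eq_abs]
  calc _ ≤ |r⁻¹ * (trig c θ L (rotB B r x) - trig c θ L x)| + |gr c θ L x (B x)| := abs_sub _ _
    _ ≤ |r|⁻¹ * (|r| * ∑ i, |c i| * (|L i x| + |L i (B x)|)) + ∑ i, |c i| * |L i (B x)| := by
        rw [abs_mul, abs_inv]
        gcongr
        exact abs_gr_le c θ L x
    _ = _ := by
        rw [inv_mul_cancel_left₀ hr'.ne', ← Finset.sum_add_distrib]
        refine Finset.sum_congr rfl fun i _ => ?_
        ring

lemma tendsto_trig {p : ℝ≥0∞} (hp0 : p ≠ 0) (hp' : p ≠ ∞) (c θ : ι → ℝ)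
    (L : ι → StrongDual ℝ Ω) :
    Tendsto (fun r : ℝ => eLpNorm (fun x => r⁻¹ * (trig c θ L (rotB B r x) - trig c θ L x) -
      gr c θ L x (B x)) p μ) (𝓝[≠] 0) (𝓝 0) := by
  refine tendsto_eLpNorm_zero hp0 hp' (memLp_dom (B := B) hp' c L) ?_ ?_ ?_
  · refine Eventually.of_forall fun r => Continuous.aestronglyMeasurable ?_
    have c1 := trig_continuous c θ L
    have c2 := gr_diag_continuous (B := B) c θ L
    have c3 : Continuous fun x : Ω => trig c θ L (rotB B r x) := c1.comp (by fun_prop)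
    exact (continuous_const.mul (c3.sub c1)).sub c2
  · filter_upwards [self_mem_nhdsWithin] with r hr x
    exact quot_bound c θ L x hr
  · intro x
    have h1 := (hasDerivAt_trig (B := B) c θ L x).tendsto_slope_zero
    have h2 := h1.sub_const (gr c θ L x (B x))
    rw [sub_self] at h2
    refine h2.congr fun r => ?_
    simp [Rot.rot_zero]

end

/-- the derivative along the rotations, in terms of functions -/
def Del (μ : Measure Ω) (B : Ω →L[ℝ] Ω) (p : ℝ≥0∞) (f G : Ω → ℝ) : Prop :=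
  Tendsto (fun r : ℝ => eLpNorm (fun x => r⁻¹ * (f (rotB B r x) - f x) - G x) p μ) (𝓝[≠] 0) (𝓝 0)

lemma isDer_iff (h : Rot μ B) {p : ℝ≥0∞} [Fact (1 ≤ p)] {F G : Lp ℝ p μ} {f g : Ω → ℝ}
    (hf : (F : Ω → ℝ) =ᵐ[μ] f) (hg : (G : Ω → ℝ) =ᵐ[μ] g) :
    IsDer (h.U p) F G ↔ Del μ B p f g := by
  unfold IsDer Del
  rw [tendsto_iff_norm_sub_tendsto_zero]
  have e1 : ∀ r : ℝ, ‖r⁻¹ • (h.U p r F - F) - G‖ =
      (eLpNorm (fun x => r⁻¹ * (f (rotB B r x) - f x) - g x) p μ).toReal := by
    intro r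
    rw [Lp.norm_def]
    congr 1
    refine eLpNorm_congr_ae ?_
    refine (Lp.coeFn_sub _ _).trans ?_
    have h1 := (h.mp_rot r).quasiMeasurePreserving.ae_eq_comp hf
    filter_upwards [Lp.coeFn_smul (r⁻¹) (h.U p r F - F), Lp.coeFn_sub (h.U p r F) F,
      h.U_coe p r F, hf, hg, h1] with x a1 a2 a3 a4 a5 a6
    simp only [Function.comp] at a6
    rw [Pi.sub_apply, a1, Pi.smul_apply, a2, Pi.sub_apply, a3, a4, a5, a6, smul_eq_mul]
  have e2 : ∀ r : ℝ, eLpNorm (fun x => r⁻¹ * (f (rotB B r x) - f x) - g x) p μ ≠ ∞ := by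
    intro r
    have h1 := (h.mp_rot r).quasiMeasurePreserving.ae_eq_comp hf
    have h2 : MemLp f p μ := (memLp_congr_ae hf).1 (Lp.memLp F)
    have h3 : MemLp g p μ := (memLp_congr_ae hg).1 (Lp.memLp G)
    have h4 : MemLp (fun x => f (rotB B r x)) p μ := h2.comp_measurePreserving (h.mp_rot r)
    exact (((h4.sub h2).const_mul r⁻¹).sub h3).2.ne
  constructor
  · intro h1
    have h2 := (ENNReal.tendsto_toReal_iff e2 (by simp : (0 : ℝ≥0∞) ≠ ∞)).1
      (by simpa using h1.congr e1)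
    exact h2
  · intro h1
    have h2 := (ENNReal.tendsto_toReal_iff e2 (by simp : (0 : ℝ≥0∞) ≠ ∞)).2 h1
    exact (h2.congr fun r => (e1 r).symm)

end Pool.Agent.Zk98.WD
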