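import Pool.Agent.Zk98.WD.Der1
import Pool.Agent.R876.WM.OUL
import Pool.Agent.R876.WM.BOP
import Pool.Agent.R876.WM.BRI
import Pool.Agent.R876.WM.OP
import Pool.Agent.R876.WM.OPC
import Pool.Agent.R876.WM.OPS

/-!
# The derivation is bounded from the domain of the square of the generator to `L^p`
-/

open MeasureTheory ProbabilityTheory Filter Topology
open scoped ENNReal NNReal

set_option linter.unusedSectionVars false
set_option linter.deprecated false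

namespace Pool.Agent.Zk98.WD

open Pool.Agent.R876.WM (ou pot OUL S_OPL IsJ)
open Pool.Agent.R876.WM.BOPx (BB W W_pos W_neg W_nonneg W_mass W_int int_eq int_W_tau BB_apply BB_comp)

variable {Ω : Type*} [NormedAddCommGroup Ω] [NormedSpace ℝ Ω] [CompleteSpace Ω]
  [SecondCountableTopology Ω] [MeasurableSpace Ω] [BorelSpace Ω]
  {μ : Measure Ω} [IsGaussian μ] {B : Ω →L[ℝ] Ω}

lemma ou_trig (hμ : ∀ L : StrongDual ℝ Ω, ∫ x, L x ∂μ = 0) (t : ℝ) {ι : Type} [Fintype ι]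
    (c θ : ι → ℝ) (L : ι → StrongDual ℝ Ω) :
    ou μ t (trig c θ L) = trig (fun i => c i * fac μ (Real.sqrt (1 - Real.exp (-2 * t))) (L i)) θ
      (fun i => Real.exp (-t) • L i) := by
  funext x
  exact avg_trig hμ _ _ c θ L x

section

variable {p : ℝ≥0∞} [Fact (1 ≤ p)] {T : ℝ → Lp ℝ p μ →L[ℝ] Lp ℝ p μ}

lemma T_trig (hμ : ∀ L : StrongDual ℝ Ω, ∫ x, L x ∂μ = 0)
    (hT : ∀ t, 0 ≤ t → ∀ f : Lp ℝ p μ, (T t f : Ω → ℝ) =ᵐ[μ] ou μ t f)
    (hc : ∀ t, 0 ≤ t → ∀ f g : Ω → ℝ, f =ᵐ[μ] g → ou μ t f =ᵐ[μ] ou μ t g) {t : ℝ} (ht : 0 < t)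
    {K : Lp ℝ p μ} {ι : Type} [Fintype ι] (c θ : ι → ℝ) (L : ι → StrongDual ℝ Ω)
    (hK : (K : Ω → ℝ) =ᵐ[μ] trig c θ L) :
    (T t K : Ω → ℝ) =ᵐ[μ] trig (fun i => c i *
      fac μ (Real.sin (Real.arccos (Real.exp (-(t / 2))))) (L i) *
      fac μ (Real.sin (Real.arccos (Real.exp (-(t / 2)))))
        (Real.cos (Real.arccos (Real.exp (-(t / 2)))) • L i)) θ
      (fun i => Real.cos (Real.arccos (Real.exp (-(t / 2)))) •
        Real.cos (Real.arccos (Real.exp (-(t / 2)))) • L i) := by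
  refine (hT t ht.le K).trans ((hc t ht.le _ _ hK).trans ?_)
  rw [ou_trig hμ]
  have h1 : Real.cos (Real.arccos (Real.exp (-(t / 2)))) = Real.exp (-(t / 2)) :=
    Real.cos_arccos (by linarith [Real.exp_pos (-(t / 2))]) (Real.exp_le_one_iff.2 (by linarith))
  have h2 : Real.sin (Real.arccos (Real.exp (-(t / 2)))) = Real.sqrt (1 - Real.exp (-t)) := by
    rw [Real.sin_arccos, ← Real.exp_nat_mul]
    congr 3
    push_cast
    ring
  rw [h1, h2]
  have h3 : ∀ i, fac μ (Real.sqrt (1 - Real.exp (-2 * t))) (L i) =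
      fac μ (Real.sqrt (1 - Real.exp (-t))) (L i) *
      fac μ (Real.sqrt (1 - Real.exp (-t))) (Real.exp (-(t / 2)) • L i) := by
    intro i
    unfold fac
    rw [← Real.exp_add]
    congr 1
    have e1 : Real.exp (-t) ≤ 1 := Real.exp_le_one_iff.2 (by linarith)
    have e2 : Real.exp (-2 * t) ≤ 1 := Real.exp_le_one_iff.2 (by linarith)
    rw [Real.sq_sqrt (by linarith), Real.sq_sqrt (by linarith)]
    simp only [map_smul, ContinuousLinearMap.smul_apply, smul_eq_mul]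
    have e3 : Real.exp (-2 * t) = Real.exp (-t) ^ 2 := by
      rw [← Real.exp_nat_mul]; congr 1; push_cast; ring
    have e4 : Real.exp (-t) = Real.exp (-(t / 2)) ^ 2 := by
      rw [← Real.exp_nat_mul]; congr 1; push_cast; ring
    rw [e3, e4]
    ring
  have h4 : ∀ i, Real.exp (-t) • L i = Real.exp (-(t / 2)) • Real.exp (-(t / 2)) • L i := by
    intro i
    rw [smul_smul, ← Real.exp_add]
    congr 2
    ring
  simp_rw [h3, h4, mul_assoc]
  rfl

lemma T_trig_der (h : Rot μ B) (hp2 : 2 ≤ p) (hp' : p ≠ ∞)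
    (hT : ∀ t, 0 ≤ t → ∀ f : Lp ℝ p μ, (T t f : Ω → ℝ) =ᵐ[μ] ou μ t f)
    (hc : ∀ t, 0 ≤ t → ∀ f g : Ω → ℝ, f =ᵐ[μ] g → ou μ t f =ᵐ[μ] ou μ t g) {t : ℝ} (ht : 0 < t)
    {K : Lp ℝ p μ} {g : Ω → ℝ} (hg : IsTrig g) (hK : (K : Ω → ℝ) =ᵐ[μ] g) :
    ∃ G, IsDer (h.U p) (T t K) G ∧ ‖G‖ ≤ ((mom p).toReal / t) * ‖K‖ := by
  obtain ⟨ι, _, c, θ, L, rfl⟩ := hg
  have h1 := T_trig h.mean hT hc ht c θ L hK
  set φ := Real.arccos (Real.exp (-(t / 2))) with hφ
  have hcos : Real.cos φ = Real.exp (-(t / 2)) :=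
    Real.cos_arccos (by linarith [Real.exp_pos (-(t / 2))]) (Real.exp_le_one_iff.2 (by linarith))
  have hsin : Real.sin φ = Real.sqrt (1 - Real.exp (-t)) := by
    rw [hφ, Real.sin_arccos, ← Real.exp_nat_mul]
    congr 3
    push_cast
    ring
  have het : Real.exp (-t) < 1 := by rw [Real.exp_lt_one_iff]; linarith
  have ha : 0 < Real.cos φ := by rw [hcos]; positivity
  have hb : 0 < Real.sin φ := by rw [hsin]; exact Real.sqrt_pos.2 (by linarith)
  have key := key_ineq h hp2 hp' ha hb c θ L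
  set c2 : ι → ℝ := fun i => c i * fac μ (Real.sin φ) (L i) *
        fac μ (Real.sin φ) (Real.cos φ • L i) with hc2
  set L2 : ι → StrongDual ℝ Ω := fun i => Real.cos φ • Real.cos φ • L i with hL2
  have hm : MemLp (fun x => gr c2 θ L2 x (B x)) p μ := memLp_gr hp' c2 θ L2
  refine ⟨hm.toLp _, (isDer_iff h h1 hm.coeFn_toLp).2
    (tendsto_trig (lt_of_lt_of_le (by norm_num) hp2).ne' hp' c2 θ L2), ?_⟩
  rw [Lp.norm_toLp]
  have e1 : (Real.cos φ / Real.sin φ) ^ 2 ≤ 1 / t := by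
    rw [div_pow, hcos, hsin, Real.sq_sqrt (by linarith), div_le_div_iff₀ (by linarith) ht,
      ← Real.exp_nat_mul]
    have e2 : ((2 : ℕ) : ℝ) * -(t / 2) = -t := by push_cast; ring
    rw [e2]
    have e3 := Real.add_one_le_exp t
    have e4 : Real.exp (-t) * Real.exp t = 1 := by rw [← Real.exp_add]; simp
    have e5 : Real.exp (-t) * (t + 1) ≤ 1 := by
      calc _ ≤ Real.exp (-t) * Real.exp t := mul_le_mul_of_nonneg_left e3 (Real.exp_pos _).le
        _ = 1 := e4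
    linarith
  have e6 : eLpNorm (trig c θ L) p μ = eLpNorm K p μ := eLpNorm_congr_ae hK.symm
  rw [e6] at key
  have e7 : eLpNorm K p μ ≠ ∞ := (Lp.memLp K).2.ne
  calc (eLpNorm (fun x => gr c2 θ L2 x (B x)) p μ).toReal
      ≤ (ENNReal.ofReal ((Real.cos φ / Real.sin φ) ^ 2) * mom p * eLpNorm K p μ).toReal := by
        refine ENNReal.toReal_mono ?_ key
        exact ENNReal.mul_ne_top (ENNReal.mul_ne_top ENNReal.ofReal_ne_top (mom_ne_top hp')) e7
    _ = (Real.cos φ / Real.sin φ) ^ 2 * (mom p).toReal * ‖K‖ := by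
        rw [ENNReal.toReal_mul, ENNReal.toReal_mul, ENNReal.toReal_ofReal (by positivity),
          Lp.norm_def]
    _ ≤ (1 / t) * (mom p).toReal * ‖K‖ := by gcongr
    _ = _ := by ring

variable (μ p) in
/-- classes of trigonometric functions -/
def trigSet : Set (Lp ℝ p μ) := {K | ∃ g, IsTrig g ∧ (K : Ω → ℝ) =ᵐ[μ] g}

lemma dense_trigSet (hp2 : 2 ≤ p) (hp' : p ≠ ∞) : Dense (trigSet μ p) := by
  intro F
  rw [Metric.mem_closure_iff]
  intro ε hε
  obtain ⟨g, hg1, hg2⟩ := dense_trig (μ := μ) hp2 hp' (Lp.memLp F)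
    (ε := ENNReal.ofReal (ε / 2)) (by simpa using hε)
  have hm : MemLp g p μ := hg2.memLp p
  refine ⟨hm.toLp g, ⟨g, hg2, hm.coeFn_toLp⟩, ?_⟩
  rw [dist_eq_norm, Lp.norm_def]
  have h1 : eLpNorm (F - hm.toLp g : Lp ℝ p μ) p μ = eLpNorm ((F : Ω → ℝ) - g) p μ := by
    refine eLpNorm_congr_ae ((Lp.coeFn_sub _ _).trans ?_)
    filter_upwards [hm.coeFn_toLp] with x hx
    rw [Pi.sub_apply, hx, Pi.sub_apply]
  rw [h1]
  refine lt_of_le_of_lt (ENNReal.toReal_mono ENNReal.ofReal_ne_top hg1) ?_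
  rw [ENNReal.toReal_ofReal (by positivity)]
  linarith

lemma hb_all (h : Rot μ B) (hp2 : 2 ≤ p) (hp' : p ≠ ∞)
    (hT : ∀ t, 0 ≤ t → ∀ f : Lp ℝ p μ, (T t f : Ω → ℝ) =ᵐ[μ] ou μ t f)
    (hc : ∀ t, 0 ≤ t → ∀ f g : Ω → ℝ, f =ᵐ[μ] g → ou μ t f =ᵐ[μ] ou μ t g) (t : ℝ) (ht : 0 < t)
    (r : ℝ) (K : Lp ℝ p μ) :
    ‖h.U p r (T t K) - T t K‖ ≤ |r| * ((mom p).toReal / t) * ‖K‖ := by
  have hcl : IsClosed {K : Lp ℝ p μ | ‖h.U p r (T t K) - T t K‖ ≤
      |r| * ((mom p).toReal / t) * ‖K‖} := by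
    refine isClosed_le ?_ ?_
    · exact (((h.U p r).continuous.comp (T t).continuous).sub (T t).continuous).norm
    · exact continuous_const.mul continuous_norm
  have hsub : trigSet μ p ⊆ {K : Lp ℝ p μ | ‖h.U p r (T t K) - T t K‖ ≤
      |r| * ((mom p).toReal / t) * ‖K‖} := by
    rintro K ⟨g, hg, hK⟩
    obtain ⟨G, hG, hn⟩ := T_trig_der h hp2 hp' hT hc ht hg hK
    have h1 := (h.grp p).le_of_der hG r
    show ‖h.U p r (T t K) - T t K‖ ≤ |r| * ((mom p).toReal / t) * ‖K‖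
    calc _ ≤ |r| * ‖G‖ := h1
      _ ≤ |r| * (((mom p).toReal / t) * ‖K‖) := by gcongr
      _ = _ := by ring
  exact (hcl.closure_subset_iff.2 hsub) (dense_trigSet hp2 hp' K)

/-- the constants -/
lemma J2_bound (h : Rot μ B) {C : ℝ} (hT : Pool.Agent.R876.WM.Semi T)
    (hb : ∀ t, 0 < t → ∀ (r : ℝ) (K : Lp ℝ p μ),
      ‖h.U p r (T t K) - T t K‖ ≤ |r| * (C / t) * ‖K‖)
    (r : ℝ) (K : Lp ℝ p μ) :
    ‖h.U p r (BB hT 2 two_pos K) - BB hT 2 two_pos K‖ ≤ |r| * (C * ‖K‖) := by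
  have i1 := int_W_tau hT (two_pos (α := ℝ)) K
  rw [BB_apply, ← ContinuousLinearMap.integral_comp_comm _ i1,
    ← integral_sub ((h.U p r).integrable_comp i1) i1]
  have h1 : ∀ t, ‖h.U p r (W 2 t • T (max t 0) K) - W 2 t • T (max t 0) K‖ ≤
      W 1 t * (|r| * (C * ‖K‖)) := by
    intro t
    rcases le_or_gt t 0 with ht | ht
    · rw [W_neg ht, W_neg ht]
      simp
    · rw [W_pos ht, W_pos ht, max_eq_left ht.le, map_smul, ← smul_sub, norm_smul,
        Real.norm_eq_abs]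
      have h2 := hb t ht r K
      have e1 : Real.Gamma 2 = 1 := Real.Gamma_two
      have e2 : Real.Gamma 1 = 1 := Real.Gamma_one
      have e3 : t ^ ((2 : ℝ) - 1) = t := by norm_num
      have e4 : t ^ ((1 : ℝ) - 1) = 1 := by norm_num
      rw [e1, e2, e3, e4, abs_of_nonneg (by positivity)]
      calc t * Real.exp (-t) / 1 * ‖h.U p r (T t K) - T t K‖
          ≤ t * Real.exp (-t) / 1 * (|r| * (C / t) * ‖K‖) := by gcongr
        _ = _ := by field_simp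
  calc ‖∫ t, (h.U p r (W 2 t • T (max t 0) K) - W 2 t • T (max t 0) K)‖
      ≤ ∫ t, W 1 t * (|r| * (C * ‖K‖)) :=
        norm_integral_le_of_norm_le ((W_int one_pos).mul_const _) (Eventually.of_forall h1)
    _ = |r| * (C * ‖K‖) := by rw [integral_mul_const, W_mass one_pos, one_mul]

lemma U_BB (h : Rot μ B) (hT : Pool.Agent.R876.WM.Semi T)
    (hcomm : ∀ t, 0 ≤ t → ∀ r f, T t (h.U p r f) = h.U p r (T t f)) {a : ℝ} (ha : 0 < a) (r : ℝ)
    (f : Lp ℝ p μ) : BB hT a ha (h.U p r f) = h.U p r (BB hT a ha f) := by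
  rw [BB_apply, BB_apply, ← ContinuousLinearMap.integral_comp_comm _ (int_W_tau hT ha f)]
  refine integral_congr_ae (Eventually.of_forall fun t => ?_)
  simp only
  rw [map_smul, hcomm _ (le_max_right _ _)]

lemma T_BB (hT : Pool.Agent.R876.WM.Semi T) {a : ℝ} (ha : 0 < a) {t : ℝ} (ht : 0 < t)
    (f : Lp ℝ p μ) : T t (BB hT a ha f) = BB hT a ha (T t f) := by
  rw [BB_apply, BB_apply, ← ContinuousLinearMap.integral_comp_comm _ (int_W_tau hT ha f)]
  refine integral_congr_ae (Eventually.of_forall fun s => ?_)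
  simp only
  rw [map_smul]
  congr 1
  have h1 := hT.add t (max s 0) ht.le (le_max_right _ _)
  have h2 := hT.add (max s 0) t (le_max_right _ _) ht.le
  rw [add_comm] at h1
  rw [h1] at h2
  exact congrArg (fun A => A f) h2

/-- the derivation on the domain of the square of the generator -/
theorem exists_der_two (h : Rot μ B) (hp2 : 2 ≤ p) (hp' : p ≠ ∞)
    (hS : Pool.Agent.R876.WM.Semi T)
    (hT : ∀ t, 0 ≤ t → ∀ f : Lp ℝ p μ, (T t f : Ω → ℝ) =ᵐ[μ] ou μ t f)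
    (hc : ∀ t, 0 ≤ t → ∀ f g : Ω → ℝ, f =ᵐ[μ] g → ou μ t f =ᵐ[μ] ou μ t g) (F : Lp ℝ p μ) :
    ∃ G, IsDer (h.U p) (BB hS 2 two_pos F) G ∧ ‖G‖ ≤ (mom p).toReal * ‖F‖ := by
  refine exists_derJ (S := T) ENNReal.toReal_nonneg (hb_all h hp2 hp' hT hc)
    (dense_trigSet hp2 hp') ?_ (BB hS 2 two_pos)
    (J2_bound h hS (hb_all h hp2 hp' hT hc)) ?_ ?_ F
  · rintro K ⟨g, hg, hK⟩ t ht
    obtain ⟨G, hG, -⟩ := T_trig_der h hp2 hp' hT hc ht hg hK
    exact ⟨G, hG⟩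
  · intro t ht K
    exact T_BB hS two_pos ht K
  · intro F
    have h1 := (hS.cont F) 0 (Set.mem_Ici.2 le_rfl)
    have h2 : T 0 F = F := by rw [hS.zero]; rfl
    have h3 : Tendsto (fun t => T t F) (𝓝[Set.Ici 0] 0) (𝓝 (T 0 F)) := h1
    rw [h2] at h3
    exact h3.mono_left (nhdsWithin_mono _ Set.Ioi_subset_Ici_self)

end

end Pool.Agent.Zk98.WD
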