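import Pool.Agent.Zk98.WD.Der2
import Pool.Agent.Zk98.WD.Alg
import Pool.Agent.Zk98.WD.Defs

/-!
# The rotations generate a derivation of `D^∞`
-/

open MeasureTheory ProbabilityTheory Filter Topology
open scoped ENNReal NNReal

set_option linter.unusedSectionVars false
set_option linter.deprecated false

namespace Pool.Agent.Zk98.WD

open Pool.Agent.R876.WM (ou pot OUL S_OPL IsJ IsD Dinf)
open Pool.Agent.R876.WM.BOPx (BB W W_pos W_neg W_nonneg W_mass W_int int_eq int_W_tau BB_apply BB_comp)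

universe u


variable {Ω : Type u} [NormedAddCommGroup Ω] [NormedSpace ℝ Ω] [CompleteSpace Ω]
  [SecondCountableTopology Ω] [MeasurableSpace Ω] [BorelSpace Ω]
  {μ : Measure Ω} [IsGaussian μ] {B : Ω →L[ℝ] Ω}

lemma BB_congr {X : Type*} [NormedAddCommGroup X] [NormedSpace ℝ X] {T : ℝ → X →L[ℝ] X}
    (hT : Pool.Agent.R876.WM.Semi T) {a b : ℝ} (ha : 0 < a) (hb : 0 < b) (h : a = b) :
    BB hT a ha = BB hT b hb := by
  subst h; rfl

lemma J_eq_BB {X : Type*} [NormedAddCommGroup X] [NormedSpace ℝ X] {T : ℝ → X →L[ℝ] X}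
    {J : X →L[ℝ] X} (hT : Pool.Agent.R876.WM.Semi T) (hJ : IsJ T J) : J = BB hT 1 one_pos := by
  ext1 f
  rw [hJ f, BB_apply, ← int_eq]
  refine setIntegral_congr_fun measurableSet_Ioi fun t ht => ?_
  simp

lemma main_lp (h : Rot μ B) {p : ℝ≥0∞} [Fact (1 ≤ p)] (hp2 : 2 ≤ p) (hp' : p ≠ ∞)
    {T : ℝ → Lp ℝ p μ →L[ℝ] Lp ℝ p μ} {J : Lp ℝ p μ →L[ℝ] Lp ℝ p μ} (hO : OUL μ ℝ p T J)
    (m : ℕ) (F : Lp ℝ p μ) :
    ∃ G : Lp ℝ p μ, IsDer (h.U p) ((J ^ (m + 2)) F) ((J ^ m) G) ∧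
      ‖G‖ ≤ (mom p).toReal * ‖F‖ := by
  have hp1 : 1 ≤ p := Fact.out
  have hc : ∀ t, 0 ≤ t → ∀ f g : Ω → ℝ, f =ᵐ[μ] g → ou μ t f =ᵐ[μ] ou μ t g :=
    fun t ht => (gOPL h.mean p hp1 hp' t ht).2.1
  have hS := hO.semi
  obtain ⟨G, hG, hn⟩ := exists_der_two h hp2 hp' hS hO.ou_ae hc F
  refine ⟨G, ?_, hn⟩
  have hJ := J_eq_BB hS hO.isJ
  have hcomm : ∀ t, 0 ≤ t → ∀ r f, T t (h.U p r f) = h.U p r (T t f) :=
    fun t ht r f => h.comm p (hO.ou_ae t ht) (hc t ht) r f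
  have hJU : ∀ r f, J (h.U p r f) = h.U p r (J f) := by
    intro r f
    rw [hJ]
    exact U_BB h hS hcomm one_pos r f
  have hJm : ∀ (k : ℕ) r f, (J ^ k) (h.U p r f) = h.U p r ((J ^ k) f) := by
    intro k
    induction k with
    | zero => intro r f; simp
    | succ k ih =>
      intro r f
      rw [pow_succ]
      show (J ^ k) (J (h.U p r f)) = h.U p r ((J ^ k) (J f))
      rw [hJU, ih]
  have h2 : (J ^ (m + 2)) F = (J ^ m) (BB hS 2 two_pos F) := by
    rw [pow_add]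
    show (J ^ m) ((J ^ 2) F) = _
    congr 1
    rw [pow_two]
    show J (J F) = _
    rw [hJ, BB_comp]
    rw [BB_congr hS _ two_pos (by norm_num : (1 : ℝ) + 1 = 2)]
  rw [h2]
  exact hG.map (J ^ m) fun r x => hJm m r x

lemma Del.congr' (h : Rot μ B) {p : ℝ≥0∞} {f f' G G' : Ω → ℝ} (hD : Del μ B p f G)
    (hf : f =ᵐ[μ] f') (hG : G =ᵐ[μ] G') : Del μ B p f' G' := by
  unfold Del at *
  refine hD.congr fun r => eLpNorm_congr_ae ?_
  have h1 := (h.mp_rot r).quasiMeasurePreserving.ae_eq_comp hf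
  filter_upwards [hf, hG, h1] with x a1 a2 a3
  simp only [Function.comp] at a3
  rw [a1, a2, a3]

lemma main_fun (h : Rot μ B) {p : ℝ≥0∞} (hp2 : 2 ≤ p) (hp' : p ≠ ∞) (m : ℕ) {f u : Ω → ℝ}
    (hu : MemLp u p μ) (hf : f =ᵐ[μ] pot μ (2 * (m + 2)) u) :
    ∃ g : Ω → ℝ, MemLp g p μ ∧ eLpNorm g p μ ≤ (mom p).toNNReal * eLpNorm u p μ ∧
      Del μ B p f (pot μ (2 * m) g) := by
  have hp1 : 1 ≤ p := le_trans (by norm_num) hp2
  have : Fact (1 ≤ p) := ⟨hp1⟩
  obtain ⟨T, J, hO⟩ := gOUL h.mean p hp'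
  obtain ⟨G, hG, hn⟩ := main_lp h hp2 hp' hO m (hu.toLp u)
  refine ⟨G, Lp.memLp G, ?_, ?_⟩
  · rw [Lp.norm_def, Lp.norm_toLp] at hn
    have h1 : eLpNorm u p μ ≠ ∞ := hu.2.ne
    rw [ENNReal.coe_toNNReal (mom_ne_top hp'), ← ENNReal.toReal_le_toReal (Lp.memLp G).2.ne
      (ENNReal.mul_ne_top (mom_ne_top hp') h1), ENNReal.toReal_mul]
    exact hn
  · have h1 := hO.pot_ae (m + 2) (hu.toLp u)
    have h2 := (gPOT h.mean p hp1 hp').1 (2 * (m + 2)) _ _ hu.coeFn_toLp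
    exact (isDer_iff h (h1.trans (h2.trans hf.symm)) (hO.pot_ae m G)).1 hG

/-- uniqueness -/
lemma Del.unique (h : Rot μ B) {p : ℝ≥0∞} (hp1 : 1 ≤ p) {f G G' : Ω → ℝ} (hf : MemLp f p μ)
    (hG : MemLp G p μ) (hG' : MemLp G' p μ) (h1 : Del μ B p f G) (h2 : Del μ B p f G') :
    G =ᵐ[μ] G' := by
  have : Fact (1 ≤ p) := ⟨hp1⟩
  have a1 := (isDer_iff h hf.coeFn_toLp hG.coeFn_toLp).2 h1
  have a2 := (isDer_iff h hf.coeFn_toLp hG'.coeFn_toLp).2 h2
  have a3 := a1.unique a2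
  exact hG.coeFn_toLp.symm.trans ((by rw [a3] : (hG.toLp G : Ω → ℝ) =ᵐ[μ] hG'.toLp G').trans
    hG'.coeFn_toLp)

lemma aesm_quot (h : Rot μ B) {f G : Ω → ℝ} (hf : AEStronglyMeasurable f μ)
    (hG : AEStronglyMeasurable G μ) (r : ℝ) :
    AEStronglyMeasurable (fun x => r⁻¹ * (f (rotB B r x) - f x) - G x) μ := by
  have h1 : AEStronglyMeasurable (fun x => f (rotB B r x)) μ :=
    hf.comp_measurePreserving (h.mp_rot r)
  exact ((h1.sub hf).const_mul _).sub hG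

lemma Del.mono (h : Rot μ B) {p p' : ℝ≥0∞} (hpp : p ≤ p') {f G : Ω → ℝ}
    (hf : AEStronglyMeasurable f μ) (hG : AEStronglyMeasurable G μ) (h1 : Del μ B p' f G) :
    Del μ B p f G := by
  unfold Del at *
  refine tendsto_of_tendsto_of_tendsto_of_le_of_le tendsto_const_nhds h1 (fun r => zero_le)
    fun r => ?_
  exact eLpNorm_le_eLpNorm_of_exponent_le hpp (aesm_quot h hf hG r)

lemma Del.add (h : Rot μ B) {p : ℝ≥0∞} (hp1 : 1 ≤ p) {f g F G : Ω → ℝ}
    (hf : AEStronglyMeasurable f μ) (hg : AEStronglyMeasurable g μ)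
    (hF : AEStronglyMeasurable F μ) (hG : AEStronglyMeasurable G μ)
    (h1 : Del μ B p f F) (h2 : Del μ B p g G) : Del μ B p (f + g) (F + G) := by
  unfold Del at *
  have h3 := h1.add h2
  rw [add_zero] at h3
  refine tendsto_of_tendsto_of_tendsto_of_le_of_le tendsto_const_nhds h3 (fun r => zero_le)
    fun r => ?_
  have e : (fun x => r⁻¹ * ((f + g) (rotB B r x) - (f + g) x) - (F + G) x) =
      (fun x => r⁻¹ * (f (rotB B r x) - f x) - F x) +
      fun x => r⁻¹ * (g (rotB B r x) - g x) - G x := by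
    funext x
    simp only [Pi.add_apply]
    ring
  show eLpNorm (fun x => r⁻¹ * ((f + g) (rotB B r x) - (f + g) x) - (F + G) x) p μ ≤ _
  rw [e]
  exact eLpNorm_add_le (aesm_quot h hf hF r) (aesm_quot h hg hG r) hp1

lemma Del.smul {p : ℝ≥0∞} {f F : Ω → ℝ} (c : ℝ)
    (h1 : Del μ B p f F) : Del μ B p (c • f) (c • F) := by
  unfold Del at *
  have h3 := ENNReal.Tendsto.const_mul (a := ‖c‖ₑ) h1 (Or.inr (by simp))
  rw [mul_zero] at h3
  refine h3.congr fun r => ?_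
  rw [← eLpNorm_const_smul]
  congr 1
  funext x
  simp only [Pi.smul_apply, smul_eq_mul]
  ring

/-- Leibniz rule -/
lemma Del.mul (h : Rot μ B) {f g F G : Ω → ℝ}
    (hf : MemLp f 2 μ) (hg : MemLp g 2 μ) (hF : MemLp F 2 μ) (hG : MemLp G 2 μ)
    (h1 : Del μ B 2 f F) (h2 : Del μ B 2 g G) : Del μ B 1 (f * g) (f * G + g * F) := by
  have hfr : ∀ r, MemLp (fun x => f (rotB B r x)) 2 μ := fun r =>
    hf.comp_measurePreserving (h.mp_rot r)
  have hnr : ∀ r, eLpNorm (fun x => f (rotB B r x)) 2 μ = eLpNorm f 2 μ := fun r =>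
    eLpNorm_comp_measurePreserving hf.1 (h.mp_rot r)
  -- `f ∘ T_r → f` in `L²`
  have h0 : Tendsto (fun r : ℝ => eLpNorm (fun x => f (rotB B r x) - f x) 2 μ) (𝓝[≠] 0) (𝓝 0) := by
    have a1 : Tendsto (fun r : ℝ => ‖r‖ₑ) (𝓝[≠] 0) (𝓝 0) := by
      have := (continuous_enorm.tendsto (0 : ℝ)).mono_left (nhdsWithin_le_nhds (s := {0}ᶜ))
      rwa [enorm_zero] at this
    have a2 : Tendsto (fun r : ℝ => ‖r‖ₑ * (eLpNorm (fun x => r⁻¹ * (f (rotB B r x) - f x) - F x) 2 μ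
        + eLpNorm F 2 μ)) (𝓝[≠] 0) (𝓝 (0 * (0 + eLpNorm F 2 μ))) := by
      refine ENNReal.Tendsto.mul a1 (Or.inr ?_) (Tendsto.add h1 tendsto_const_nhds) (Or.inr (by simp))
      rw [zero_add]
      exact hF.2.ne
    rw [zero_mul] at a2
    refine tendsto_of_tendsto_of_tendsto_of_le_of_le' tendsto_const_nhds a2
      (Eventually.of_forall fun r => zero_le) ?_
    filter_upwards [self_mem_nhdsWithin] with r hr
    have e : (fun x => f (rotB B r x) - f x) = r • ((fun x => r⁻¹ * (f (rotB B r x) - f x) - F x) +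
        F) := by
      funext x
      simp only [Pi.smul_apply, Pi.add_apply, smul_eq_mul]
      have hr' : r ≠ 0 := hr
      field_simp
      ring
    rw [e, eLpNorm_const_smul]
    gcongr
    exact eLpNorm_add_le (aesm_quot h hf.1 hF.1 r) hF.1 (by norm_num)
  unfold Del at *
  have h3 : Tendsto (fun r : ℝ => eLpNorm f 2 μ *
        eLpNorm (fun x => r⁻¹ * (g (rotB B r x) - g x) - G x) 2 μ +
      eLpNorm (fun x => f (rotB B r x) - f x) 2 μ * eLpNorm G 2 μ +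
      eLpNorm g 2 μ * eLpNorm (fun x => r⁻¹ * (f (rotB B r x) - f x) - F x) 2 μ) (𝓝[≠] 0)
      (𝓝 (eLpNorm f 2 μ * 0 + 0 * eLpNorm G 2 μ + eLpNorm g 2 μ * 0)) := by
    refine (Tendsto.add ?_ ?_).add ?_
    · exact ENNReal.Tendsto.const_mul h2 (Or.inr hf.2.ne)
    · exact ENNReal.Tendsto.mul_const h0 (Or.inr hG.2.ne)
    · exact ENNReal.Tendsto.const_mul h1 (Or.inr hg.2.ne)
  simp only [mul_zero, zero_mul, add_zero] at h3
  refine tendsto_of_tendsto_of_tendsto_of_le_of_le tendsto_const_nhds h3 (fun r => zero_le)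
    fun r => ?_
  have e : (fun x => r⁻¹ * ((f * g) (rotB B r x) - (f * g) x) - (f * G + g * F) x) =
      ((fun x => f (rotB B r x)) * (fun x => r⁻¹ * (g (rotB B r x) - g x) - G x) +
      (fun x => f (rotB B r x) - f x) * G) +
      g * fun x => r⁻¹ * (f (rotB B r x) - f x) - F x := by
    funext x
    simp only [Pi.add_apply, Pi.mul_apply]
    ring
  show eLpNorm (fun x => r⁻¹ * ((f * g) (rotB B r x) - (f * g) x) - (f * G + g * F) x) 1 μ ≤ _
  rw [e]
  have hq1 := aesm_quot h hg.1 hG.1 r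
  have hq2 := aesm_quot h hf.1 hF.1 r
  have hol : ∀ u v : Ω → ℝ, AEStronglyMeasurable u μ → AEStronglyMeasurable v μ →
      eLpNorm (u * v) 1 μ ≤ eLpNorm u 2 μ * eLpNorm v 2 μ := by
    intro u v hu hv
    have := eLpNorm_smul_le_mul_eLpNorm (p := 2) (q := 2) (r := 1) hv hu
    simpa [smul_eq_mul] using this
  refine (eLpNorm_add_le ?_ ?_ le_rfl).trans (add_le_add ((eLpNorm_add_le ?_ ?_ le_rfl).trans
    (add_le_add ?_ ?_)) ?_)
  · exact ((hfr r).1.mul hq1).add (((hfr r).1.sub hf.1).mul hG.1)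
  · exact hg.1.mul hq2
  · exact (hfr r).1.mul hq1
  · exact ((hfr r).1.sub hf.1).mul hG.1
  · rw [← hnr r]
    exact hol _ _ (hfr r).1 hq1
  · exact hol _ _ ((hfr r).1.sub hf.1) hG.1
  · exact hol _ _ hg.1 hq2

lemma exists_del (h : Rot μ B) {f : Ω → ℝ} (hf : Dinf μ f) :
    ∃ G, MemLp G 2 μ ∧ Del μ B 2 f G := by
  obtain ⟨u, hu1, hu2⟩ := (dinf_even h.mean).1 hf 2 le_rfl 2
  obtain ⟨g, hg1, -, hg3⟩ := main_fun h (p := ((2 : ℕ) : ℝ≥0∞)) (by norm_num) (by norm_num) 0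
    hu1 hu2
  have e : pot μ (2 * 0) g = g := by unfold pot; rw [if_pos (by norm_num)]
  rw [e] at hg3
  exact ⟨g, by simpa using hg1, by simpa using hg3⟩

open Classical in
/-- the derivation -/
noncomputable def delta (h : Rot μ B) (f : Ω → ℝ) : Ω → ℝ :=
  if hf : Dinf μ f then (exists_del h hf).choose else 0

lemma delta_memLp (h : Rot μ B) {f : Ω → ℝ} (hf : Dinf μ f) : MemLp (delta h f) 2 μ := by
  rw [delta, dif_pos hf]
  exact (exists_del h hf).choose_spec.1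

lemma delta_del (h : Rot μ B) {f : Ω → ℝ} (hf : Dinf μ f) : Del μ B 2 f (delta h f) := by
  rw [delta, dif_pos hf]
  exact (exists_del h hf).choose_spec.2

/-- the norm bounds -/
lemma delta_cont (h : Rot μ B) {p : ℝ} (hp : 1 < p) (r : ℕ) : ∃ p' : ℝ, 1 < p' ∧ ∃ (s : ℕ)
    (C : ℝ≥0), ∀ f, Dinf μ f → ∀ U, IsD μ (ENNReal.ofReal p') s f U →
      ∃ V, IsD μ (ENNReal.ofReal p) r (delta h f) V ∧
      eLpNorm V (ENNReal.ofReal p) μ ≤ C * eLpNorm U (ENNReal.ofReal p') μ := by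
  set p' : ℝ := max p 2 with hp'
  have h2 : (2 : ℝ≥0∞) ≤ ENNReal.ofReal p' := by
    rw [show (2 : ℝ≥0∞) = ENNReal.ofReal 2 by simp]
    exact ENNReal.ofReal_le_ofReal (le_max_right _ _)
  have ht : ENNReal.ofReal p' ≠ ∞ := ENNReal.ofReal_ne_top
  have hpp : ENNReal.ofReal p ≤ ENNReal.ofReal p' := ENNReal.ofReal_le_ofReal (le_max_left _ _)
  refine ⟨p', lt_of_lt_of_le hp (le_max_left _ _), 2 * (r + 2), (mom (ENNReal.ofReal p')).toNNReal,
    fun f hf U hU => ?_⟩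
  obtain ⟨g, hg1, hg2, hg3⟩ := main_fun h h2 ht r hU.1 hU.2
  have hP := gPOT h.mean (ENNReal.ofReal p') (le_trans (by norm_num) h2) ht
  have hpm : MemLp (pot μ (2 * r) g) (ENNReal.ofReal p') μ := (hP.2.1 (2 * r) g hg1).1
  have h3 : Del μ B 2 f (pot μ (2 * r) g) :=
    hg3.mono h h2 (dinf_memLp hf (p := 2) (by norm_num)).1 hpm.1
  have h4 : delta h f =ᵐ[μ] pot μ (2 * r) g :=
    (delta_del h hf).unique h (by norm_num) (dinf_memLp hf (by norm_num)) (delta_memLp h hf)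
      (hpm.mono_exponent h2) h3
  obtain ⟨V, hV1, hV2, hV3⟩ := hP.2.2 r r (by omega) g hg1
  refine ⟨V, ⟨hV1.mono_exponent hpp, h4.trans hV3⟩, ?_⟩
  exact (eLpNorm_le_eLpNorm_of_exponent_le hpp hV1.1).trans (hV2.trans hg2)

lemma delta_maps (h : Rot μ B) {f : Ω → ℝ} (hf : Dinf μ f) : Dinf μ (delta h f) := by
  intro p hp r
  obtain ⟨p', hp', s, C, hC⟩ := delta_cont h hp r
  obtain ⟨U, hU⟩ := hf p' hp' s
  obtain ⟨V, hV, -⟩ := hC f hf U hU
  exact ⟨V, hV⟩

/-- if `f ∈ D^∞` has the derivative `G` then `δ f = G` -/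
lemma delta_eq (h : Rot μ B) {f G : Ω → ℝ} (hf : Dinf μ f) (hG : MemLp G 1 μ)
    (h1 : Del μ B 1 f G) : delta h f =ᵐ[μ] G :=
  ((delta_del h hf).mono h (by norm_num) (dinf_memLp hf (p := 2) (by norm_num)).1
    (delta_memLp h hf).1).unique h le_rfl (dinf_memLp hf (by norm_num))
      ((delta_memLp h hf).mono_exponent (by norm_num)) hG h1

theorem isDerivation_delta (h : Rot μ B) : IsDerivation μ (delta h) := by
  refine ⟨?_, ?_, ?_, ?_, ?_, ?_⟩
  · intro f g hf hfg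
    have hg := dinf_congr hf hfg
    refine delta_eq h hf ((delta_memLp h hg).mono_exponent (by norm_num)) ?_
    exact (((delta_del h hg).mono h (by norm_num) (dinf_memLp hg (p := 2) (by norm_num)).1
      (delta_memLp h hg).1).congr' h hfg.symm EventuallyEq.rfl)
  · intro f hf
    exact delta_maps h hf
  · intro f g hf hg
    refine delta_eq h (dinf_add h.mean hf hg)
      (((delta_memLp h hf).add (delta_memLp h hg)).mono_exponent (by norm_num)) ?_
    exact ((delta_del h hf).add h (by norm_num) (dinf_memLp hf (p := 2) (by norm_num)).1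
      (dinf_memLp hg (p := 2) (by norm_num)).1 (delta_memLp h hf).1 (delta_memLp h hg).1
      (delta_del h hg)).mono h (by norm_num)
      ((dinf_memLp hf (p := 2) (by norm_num)).1.add (dinf_memLp hg (p := 2) (by norm_num)).1)
      ((delta_memLp h hf).1.add (delta_memLp h hg).1)
  · intro c f hf
    refine delta_eq h (dinf_smul h.mean c hf)
      (((delta_memLp h hf).const_smul c).mono_exponent (by norm_num)) ?_
    exact ((delta_del h hf).smul c).mono h (by norm_num)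
      ((dinf_memLp hf (p := 2) (by norm_num)).1.const_smul c) ((delta_memLp h hf).1.const_smul c)
  · intro f g hf hg
    have hf2 : MemLp f 2 μ := dinf_memLp hf (by norm_num)
    have hg2 : MemLp g 2 μ := dinf_memLp hg (by norm_num)
    refine delta_eq h (dinf_mul h.mean hf hg) ?_
      (Del.mul h hf2 hg2 (delta_memLp h hf) (delta_memLp h hg) (delta_del h hf) (delta_del h hg))
    rw [memLp_one_iff_integrable]
    exact (hf2.integrable_mul (delta_memLp h hg)).add (hg2.integrable_mul (delta_memLp h hf))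
  · intro p hp r
    exact delta_cont h hp r

end Pool.Agent.Zk98.WD
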