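import Pool.Agent.Zk98.WD.Der3

/-!
# Continuous linear functionals are in `D^∞`
-/

open MeasureTheory ProbabilityTheory Filter Topology
open scoped ENNReal NNReal

set_option linter.unusedSectionVars false
set_option linter.deprecated false

namespace Pool.Agent.Zk98.WD

open Pool.Agent.R876.WM (ou pot OUL S_OPL IsJ IsD Dinf)

universe u

variable {Ω : Type u} [NormedAddCommGroup Ω] [NormedSpace ℝ Ω] [CompleteSpace Ω]
  [SecondCountableTopology Ω] [MeasurableSpace Ω] [BorelSpace Ω]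
  {μ : Measure Ω} [IsGaussian μ] {B : Ω →L[ℝ] Ω}

lemma ou_dual (hμ : ∀ L : StrongDual ℝ Ω, ∫ x, L x ∂μ = 0) (t : ℝ) (L : StrongDual ℝ Ω) (x : Ω) :
    ou μ t L x = Real.exp (-t) * L x := by
  unfold ou
  simp only [map_add, map_smul, smul_eq_mul]
  rw [integral_add (integrable_const _) ((IsGaussian.integrable_dual μ L).const_mul _),
    integral_const, integral_const_mul, hμ]
  simp

lemma isD_dual (hμ : ∀ L : StrongDual ℝ Ω, ∫ x, L x ∂μ = 0) {p : ℝ≥0∞} (hp : 1 ≤ p)
    (hp' : p ≠ ∞) (m : ℕ) (L : StrongDual ℝ Ω) :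
    IsD μ p (2 * m) L ((2 : ℝ) ^ m • (L : Ω → ℝ)) := by
  have : Fact (1 ≤ p) := ⟨hp⟩
  have hL : MemLp L p μ := IsGaussian.memLp_dual μ L p hp'
  refine ⟨hL.const_smul _, ?_⟩
  obtain ⟨T, J, hJ⟩ := gOUL hμ p hp'
  have hT : ∀ t, 0 ≤ t → T t (hL.toLp L) = Real.exp (-t) • hL.toLp L := by
    intro t ht
    apply Lp.ext
    refine (hJ.ou_ae t ht _).trans ?_
    refine ((gOPL hμ p hp hp' t ht).2.1 _ _ hL.coeFn_toLp).trans ?_
    refine EventuallyEq.trans ?_ (Lp.coeFn_smul _ _).symm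
    filter_upwards [hL.coeFn_toLp] with x hx
    rw [ou_dual hμ, Pi.smul_apply, hx, smul_eq_mul]
  have h1 : J (hL.toLp L) = (1 / 2 : ℝ) • hL.toLp L := by
    rw [hJ.isJ]
    have e1 : ∫ t in Set.Ioi (0 : ℝ), Real.exp (-t) • T t (hL.toLp L) =
        ∫ t in Set.Ioi (0 : ℝ), Real.exp (-2 * t) • hL.toLp L := by
      refine setIntegral_congr_fun measurableSet_Ioi fun t ht => ?_
      have ht' : (0 : ℝ) ≤ t := le_of_lt ht
      rw [hT t ht', smul_smul, ← Real.exp_add]
      congr 2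
      ring
    rw [e1, integral_smul_const]
    congr 1
    rw [integral_exp_mul_Ioi (by norm_num)]
    norm_num
  have h2 : (J ^ m) ((2 : ℝ) ^ m • hL.toLp L) = hL.toLp L := by
    induction m with
    | zero => simp
    | succ m ih =>
      rw [pow_succ, pow_succ']
      show (J ^ m) (J ((2 * 2 ^ m : ℝ) • hL.toLp L)) = _
      rw [map_smul, h1, smul_smul]
      have : (2 * 2 ^ m * (1 / 2) : ℝ) = 2 ^ m := by ring
      rw [this, ih]
  have h3 := hJ.pot_ae m ((2 : ℝ) ^ m • hL.toLp L)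
  rw [h2] at h3
  have h4 := (gPOT hμ p hp hp').1 (2 * m) _ _ ((Lp.coeFn_smul ((2 : ℝ) ^ m) (hL.toLp L)).trans
    (hL.coeFn_toLp.const_smul _))
  exact hL.coeFn_toLp.symm.trans (h3.trans h4)

lemma dinf_dual (hμ : ∀ L : StrongDual ℝ Ω, ∫ x, L x ∂μ = 0) (L : StrongDual ℝ Ω) :
    Dinf μ L := by
  rw [dinf_even hμ]
  intro p hp m
  exact ⟨_, isD_dual hμ (by exact_mod_cast (le_trans one_le_two hp)) (by simp) m L⟩

lemma del_dual (L : StrongDual ℝ Ω) : Del μ B 2 L (L ∘L B : StrongDual ℝ Ω) := by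
  unfold Del
  have h1 : MemLp (fun x => |L x| + 2 * |L (B x)|) 2 μ :=
    ((IsGaussian.memLp_dual μ L 2 (by norm_num)).abs).add
      (((IsGaussian.memLp_dual μ (L ∘L B) 2 (by norm_num)).abs).const_mul 2)
  refine tendsto_eLpNorm_zero (by norm_num) (by norm_num) h1 ?_ ?_ ?_
  · refine Eventually.of_forall fun r => Continuous.aestronglyMeasurable ?_
    fun_prop
  · filter_upwards [self_mem_nhdsWithin] with r hr x
    have hr0 : r ≠ 0 := hr
    have hr' : 0 < |r| := abs_pos.2 hr0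
    have a3 : |Real.cos r - 1| ≤ |r| := by
      have := Real.abs_cos_sub_cos_le r 0
      simpa using this
    have a4 : |Real.sin r| ≤ |r| := Real.abs_sin_le_abs
    have e : r⁻¹ * (L (rotB B r x) - L x) - (L ∘L B) x =
        r⁻¹ * ((Real.cos r - 1) * L x) + (r⁻¹ * (Real.sin r * L (B x)) - L (B x)) := by
      simp [rotB_apply]
      ring
    rw [e, Real.norm_eq_abs]
    calc _ ≤ |r⁻¹ * ((Real.cos r - 1) * L x)| + (|r⁻¹ * (Real.sin r * L (B x))| + |L (B x)|) :=
          (abs_add_le _ _).trans (by gcongr; exact abs_sub _ _)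
      _ ≤ |r|⁻¹ * (|r| * |L x|) + (|r|⁻¹ * (|r| * |L (B x)|) + |L (B x)|) := by
          simp only [abs_mul, abs_inv]
          gcongr
      _ = _ := by
          rw [inv_mul_cancel_left₀ hr'.ne', inv_mul_cancel_left₀ hr'.ne']
          ring
  · intro x
    have a1 : HasDerivAt (fun r : ℝ => L (rotB B r x)) (L (B x)) 0 := by
      have e1 : (fun r : ℝ => L (rotB B r x)) = fun r : ℝ =>
          Real.cos r * L x + Real.sin r * L (B x) := by
        funext r
        simp [rotB_apply]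
      rw [e1]
      have := ((Real.hasDerivAt_cos 0).mul_const (L x)).add
        ((Real.hasDerivAt_sin 0).mul_const (L (B x)))
      refine HasDerivAt.congr_deriv this ?_
      simp
    have h1 := a1.tendsto_slope_zero
    have h2 := h1.sub_const (L (B x))
    rw [sub_self] at h2
    refine h2.congr fun r => ?_
    simp [Rot.rot_zero]

lemma delta_dual (h : Rot μ B) (L : StrongDual ℝ Ω) :
    delta h L =ᵐ[μ] (L ∘L B : StrongDual ℝ Ω) :=
  (delta_del h (dinf_dual h.mean L)).unique h (by norm_num)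
    (IsGaussian.memLp_dual μ L 2 (by norm_num)) (delta_memLp h (dinf_dual h.mean L))
    (IsGaussian.memLp_dual μ (L ∘L B) 2 (by norm_num)) (del_dual L)

end Pool.Agent.Zk98.WD
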