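import Pool.Agent.Zk98.WD.Swap

/-!
# The rotation is not of the form `⟨grad, X⟩ + div A grad`
-/

open MeasureTheory ProbabilityTheory Filter Topology
open scoped ENNReal NNReal unitInterval RealInnerProductSpace

set_option linter.unusedSectionVars false
set_option linter.deprecated false

namespace Pool.Agent.Zk98.WD

open Pool.Agent.R876.WM (IsD Dinf)

variable {n : ℕ}

/-- linear function -/
noncomputable def linf (m : ℕ) (w : Fin m → ℝ) (e : E n) : (Fin m → E n) →L[ℝ] ℝ :=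
  ∑ i, w i • (innerSL ℝ e ∘L ContinuousLinearMap.proj i)

lemma linf_apply (m : ℕ) (w : Fin m → ℝ) (e : E n) (x : Fin m → E n) :
    linf m w e x = ∑ i, w i * ⟪e, x i⟫ := by
  simp [linf]

/-- linear cylindrical functional `∑ w_i ⟪e, ω (t_i)⟫` -/
noncomputable def lincyl (m : ℕ) (t : Fin m → I) (w : Fin m → ℝ) (e : E n) : Cyl n where
  m := m
  t := t
  φ := fun x => linf m w e x
  growth := (linf m w e).hasTemperateGrowth

lemma lincyl_fn (m : ℕ) (t : Fin m → I) (w : Fin m → ℝ) (e : E n) (ω : Path n) :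
    (lincyl m t w e).fn ω = ∑ i, w i * ⟪e, ω.1 (t i)⟫ := by
  show linf m w e (fun i => ω.1 (t i)) = _
  rw [linf_apply]

lemma lincyl_grad (m : ℕ) (t : Fin m → I) (w : Fin m → ℝ) (e : E n) (z : Path n × I) :
    (lincyl m t w e).grad z = (∑ i, if z.2 ≤ t i then w i else 0) • e := by
  ext j
  show (∑ i : Fin m, if z.2 ≤ t i then
    fderiv ℝ (fun x => linf m w e x) (fun i => z.1.1 (t i))
      (Pi.single i (EuclideanSpace.single j 1)) else 0) = _
  rw [ContinuousLinearMap.fderiv]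
  simp only [linf_apply, PiLp.smul_apply, smul_eq_mul, Finset.sum_mul]
  refine Finset.sum_congr rfl fun i _ => ?_
  split_ifs with h
  · rw [Finset.sum_eq_single i]
    · simp [EuclideanSpace.inner_single_right]
    · intro k _ hk
      simp [hk]
    · simp
  · simp

/-- the point `ε` -/
noncomputable def pt (ε : ℝ) : I := Set.projIcc 0 1 zero_le_one ε

lemma pt_coe {ε : ℝ} (h0 : 0 ≤ ε) (h1 : ε ≤ 1) : (pt ε : ℝ) = ε := by
  unfold pt
  rw [Set.coe_projIcc, min_eq_right h1, max_eq_right h0]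

lemma lincyl_fn_memLp {P : Measure (Path n)} (hP : IsWiener P) (m : ℕ) (t : Fin m → I)
    (w : Fin m → ℝ) (e : E n) : MemLp (lincyl m t w e).fn 2 P := by
  have := hP.gauss
  have h1 : (lincyl m t w e).fn = fun ω => ∑ i, w i * ev e (t i) ω := by
    funext ω
    rw [lincyl_fn]
    rfl
  rw [h1]
  exact memLp_finset_sum _ fun i _ => (IsGaussian.memLp_dual P _ 2 (by norm_num)).const_mul _

lemma lincyl_grad_memLp {P : Measure (Path n)} [IsProbabilityMeasure P] (m : ℕ) (t : Fin m → I)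
    (w : Fin m → ℝ) (e : E n) : MemLp (lincyl m t w e).grad 2 (P.prod volume) := by
  have h1 : (lincyl m t w e).grad = fun z : Path n × I =>
      (∑ i, if z.2 ≤ t i then w i else 0) • e := by
    funext z
    rw [lincyl_grad]
  rw [h1]
  have h2 : Measurable fun z : Path n × I => (∑ i, if z.2 ≤ t i then w i else 0) := by
    refine Finset.measurable_sum _ fun i _ => ?_
    refine Measurable.ite ?_ measurable_const measurable_const
    exact measurableSet_le measurable_snd measurable_const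
  refine MemLp.of_bound (h2.smul_const e).aestronglyMeasurable ((∑ i, |w i|) * ‖e‖)
    (Eventually.of_forall fun z => ?_)
  rw [norm_smul]
  gcongr
  refine (norm_sum_le _ _).trans (Finset.sum_le_sum fun i _ => ?_)
  split_ifs
  · exact le_rfl
  · simp

lemma isGrad_lincyl {P : Measure (Path n)} (hP : IsWiener P) (m : ℕ) (t : Fin m → I)
    (w : Fin m → ℝ) (e : E n) : IsGrad P (lincyl m t w e).fn (lincyl m t w e).grad := by
  have := hP.gauss
  refine ⟨lincyl_fn_memLp hP m t w e, lincyl_grad_memLp m t w e, fun _ => lincyl m t w e, ?_, ?_⟩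
  · simp
  · simp

/-- the unit vector -/
noncomputable def e0 (hn : 1 ≤ n) : E n := EuclideanSpace.single ⟨0, hn⟩ 1

lemma norm_e0 (hn : 1 ≤ n) : ‖e0 hn‖ = 1 := by simp [e0]

lemma inner_e0 (hn : 1 ≤ n) : ⟪e0 hn, e0 hn⟫ = 1 := by
  rw [real_inner_self_eq_norm_sq, norm_e0]; norm_num

/-- normalised increment over `(0, ε]` -/
noncomputable def c1 (hn : 1 ≤ n) (ε : ℝ) : Cyl n :=
  lincyl 1 (fun _ => pt ε) (fun _ => (Real.sqrt ε)⁻¹) (e0 hn)

/-- normalised increment over `(1/2, 1/2 + ε]` -/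
noncomputable def c2 (hn : 1 ≤ n) (ε : ℝ) : Cyl n :=
  lincyl 2 ![mid, pt (1 / 2 + ε)] ![-(Real.sqrt ε)⁻¹, (Real.sqrt ε)⁻¹] (e0 hn)

lemma c1_fn (hn : 1 ≤ n) (ε : ℝ) :
    (c1 hn ε).fn = ((Real.sqrt ε)⁻¹ • ev (e0 hn) (pt ε) : StrongDual ℝ (Path n)) := by
  funext ω
  rw [c1, lincyl_fn]
  simp [ev_apply]

lemma c2_fn (hn : 1 ≤ n) (ε : ℝ) :
    (c2 hn ε).fn = ((Real.sqrt ε)⁻¹ • (ev (e0 hn) (pt (1 / 2 + ε)) - ev (e0 hn) mid) :
      StrongDual ℝ (Path n)) := by
  funext ω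
  rw [c2, lincyl_fn]
  simp [ev_apply, Fin.sum_univ_two]
  ring

lemma c1_grad (hn : 1 ≤ n) (ε : ℝ) (z : Path n × I) :
    (c1 hn ε).grad z = (if z.2 ≤ pt ε then (Real.sqrt ε)⁻¹ else 0) • e0 hn := by
  rw [c1, lincyl_grad]
  simp

lemma c2_grad (hn : 1 ≤ n) (ε : ℝ) (z : Path n × I) :
    (c2 hn ε).grad z = ((if z.2 ≤ mid then -(Real.sqrt ε)⁻¹ else 0) +
      if z.2 ≤ pt (1 / 2 + ε) then (Real.sqrt ε)⁻¹ else 0) • e0 hn := by
  rw [c2, lincyl_grad, Fin.sum_univ_two]
  rfl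

lemma c2_grad_zero (hn : 1 ≤ n) {ε : ℝ} (h0 : 0 < ε) (h1 : ε ≤ 1 / 2) {z : Path n × I}
    (hz : (z.2 : ℝ) ≤ 1 / 2) : (c2 hn ε).grad z = 0 := by
  have a1 : z.2 ≤ mid := hz
  have a2 : z.2 ≤ pt (1 / 2 + ε) := by
    show (z.2 : ℝ) ≤ (pt (1 / 2 + ε) : ℝ)
    rw [pt_coe (by linarith) (by linarith)]
    linarith
  rw [c2_grad, if_pos a1, if_pos a2]
  simp

lemma c1_grad_zero (hn : 1 ≤ n) {ε : ℝ} (h0 : 0 < ε) (h1 : ε ≤ 1 / 2) {z : Path n × I}
    (hz : ε < (z.2 : ℝ)) : (c1 hn ε).grad z = 0 := by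
  have a1 : ¬ z.2 ≤ pt ε := by
    show ¬ ((z.2 : ℝ) ≤ (pt ε : ℝ))
    rw [pt_coe h0.le (by linarith)]
    exact not_le.2 hz
  rw [c1_grad, if_neg a1, zero_smul]

lemma c1_sw (hn : 1 ≤ n) {ε : ℝ} (h0 : 0 < ε) (h1 : ε ≤ 1 / 2) :
    (((Real.sqrt ε)⁻¹ • ev (e0 hn) (pt ε) : StrongDual ℝ (Path n)) ∘L sw n) =
    -((Real.sqrt ε)⁻¹ • (ev (e0 hn) (pt (1 / 2 + ε)) - ev (e0 hn) mid)) := by
  have a0 : (pt ε : ℝ) = ε := pt_coe h0.le (by linarith)
  have a1 : hi (pt ε) = pt (1 / 2 + ε) := Subtype.ext (by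
    rw [hi_le (by rw [a0]; exact h1), a0, pt_coe (by linarith) (by linarith)]
    ring)
  have a2 : ev (e0 hn) (lo (pt ε)) = 0 := by
    ext ω
    rw [ev_apply, zero_apply' ω (lo_le (by rw [a0]; exact h1))]
    simp
  rw [ContinuousLinearMap.smul_comp, ev_sw, a1, a2]
  module

lemma q_c2 {P : Measure (Path n)} (hP : IsWiener P) (hn : 1 ≤ n) {ε : ℝ} (h0 : 0 < ε)
    (h1 : ε ≤ 1 / 2) : ∫ ω, (c2 hn ε).fn ω ^ 2 ∂P = 1 := by
  have := hP.gauss
  have e1 : ∫ ω, (c2 hn ε).fn ω ^ 2 ∂P =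
      covarianceBilinDual P ((Real.sqrt ε)⁻¹ • (ev (e0 hn) (pt (1 / 2 + ε)) - ev (e0 hn) mid))
        ((Real.sqrt ε)⁻¹ • (ev (e0 hn) (pt (1 / 2 + ε)) - ev (e0 hn) mid)) := by
    rw [q_apply hP.mean', c2_fn]
    refine integral_congr_ae (Eventually.of_forall fun ω => ?_)
    simp only [pow_two]
  rw [e1]
  simp only [map_smul, map_sub, ContinuousLinearMap.smul_apply, ContinuousLinearMap.sub_apply,
    hP.q_ev, smul_eq_mul, inner_e0, mul_one]
  rw [pt_coe (by linarith) (by linarith), mid_coe, min_self, min_self,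
    min_eq_left (by linarith), min_eq_right (by linarith)]
  have a1 : Real.sqrt ε * Real.sqrt ε = ε := Real.mul_self_sqrt h0.le
  have a2 : Real.sqrt ε ≠ 0 := (Real.sqrt_pos.2 h0).ne'
  field_simp
  nlinarith [a1]

/-- the lower bound for the energy of the vector field near time zero -/
lemma energy {P : Measure (Path n)} [IsGaussian P] (hP : IsWiener P) (hn : 1 ≤ n)
    {X : Path n × I → E n} (hX : MemLp X 2 (P.prod volume)) {A : Path n × I → (E n →L[ℝ] E n)}
    (hF : HasForm P (delta (rot_sw hP)) X A) {ε : ℝ} (h0 : 0 < ε) (h1 : ε ≤ 1 / 2) :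
    1 ≤ ∫ z in {z : Path n × I | z.2 ≤ pt ε}, ‖X z‖ ^ 2 ∂(P.prod volume) := by
  set g := (c2 hn ε).fn with hg
  set u := (c1 hn ε).grad with hu
  have hgL : MemLp g 2 P := lincyl_fn_memLp hP _ _ _ _
  have huL : MemLp u 2 (P.prod volume) := lincyl_grad_memLp _ _ _ _
  have hD : Dinf P (c1 hn ε).fn := by rw [c1_fn]; exact dinf_dual hP.mean' _
  have key := hF _ hD _ (isGrad_lincyl hP _ _ _ _) (c2 hn ε)
  -- the right-hand side vanishes
  have hr : ∫ z, ⟪(c2 hn ε).grad z, A z ((c1 hn ε).grad z)⟫ ∂(P.prod volume) = 0 := by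
    have e1 : ∀ z, ⟪(c2 hn ε).grad z, A z ((c1 hn ε).grad z)⟫ = (0 : ℝ) := by
      intro z
      rcases le_or_gt (z.2 : ℝ) (1 / 2) with hz | hz
      · rw [c2_grad_zero hn h0 h1 hz, inner_zero_left]
      · rw [c1_grad_zero hn h0 h1 (by linarith), map_zero, inner_zero_right]
    simp_rw [e1]
    simp
  have key2 : ∫ ω, g ω * (delta (rot_sw hP) (c1 hn ε).fn ω - ∫ s, ⟪u (ω, s), X (ω, s)⟫) ∂P = 0 :=
    key.trans hr
  have hde : delta (rot_sw hP) (c1 hn ε).fn =ᵐ[P] fun ω => - g ω := by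
    rw [c1_fn]
    refine (delta_dual (rot_sw hP) _).trans (Eventually.of_forall fun ω => ?_)
    rw [c1_sw hn h0 h1, hg, c2_fn]
    rfl
  -- integrability
  have hgL' : MemLp (fun z : Path n × I => g z.1) 2 (P.prod volume) :=
    hgL.comp_measurePreserving measurePreserving_fst
  have hs : 0 < Real.sqrt ε := Real.sqrt_pos.2 h0
  have hun : ∀ z, ‖u z‖ = if z.2 ≤ pt ε then (Real.sqrt ε)⁻¹ else 0 := by
    intro z
    rw [hu, c1_grad, norm_smul, norm_e0, mul_one]
    split_ifs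
    · rw [Real.norm_eq_abs, abs_of_pos (by positivity)]
    · simp
  have hule : ∀ z, ‖u z‖ ≤ (Real.sqrt ε)⁻¹ := by
    intro z
    rw [hun]
    split_ifs
    · exact le_rfl
    · positivity
  have hFm : AEStronglyMeasurable (fun z : Path n × I => g z.1 * ⟪u z, X z⟫) (P.prod volume) :=
    hgL'.1.mul (huL.1.inner hX.1)
  have hgX : Integrable (fun z : Path n × I => (Real.sqrt ε)⁻¹ * (‖g z.1‖ * ‖X z‖))
      (P.prod volume) := (hgL'.norm.integrable_mul hX.norm).const_mul _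
  have hFi : Integrable (fun z : Path n × I => g z.1 * ⟪u z, X z⟫) (P.prod volume) := by
    refine hgX.mono hFm (Eventually.of_forall fun z => ?_)
    rw [norm_mul]
    have a1 : ‖⟪u z, X z⟫‖ ≤ (Real.sqrt ε)⁻¹ * ‖X z‖ :=
      (norm_inner_le_norm _ _).trans (by gcongr; exact hule z)
    calc ‖g z.1‖ * ‖⟪u z, X z⟫‖ ≤ ‖g z.1‖ * ((Real.sqrt ε)⁻¹ * ‖X z‖) := by gcongr
      _ = (Real.sqrt ε)⁻¹ * (‖g z.1‖ * ‖X z‖) := by ring
      _ ≤ _ := le_abs_self _
  -- the pairing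
  have hpair : ∫ z : Path n × I, g z.1 * ⟪u z, X z⟫ ∂(P.prod volume) = -1 := by
    have e1 : ∫ z : Path n × I, g z.1 * ⟪u z, X z⟫ ∂(P.prod volume) =
        ∫ ω, g ω * (∫ s, ⟪u (ω, s), X (ω, s)⟫) ∂P := by
      rw [integral_prod _ hFi]
      refine integral_congr_ae (Eventually.of_forall fun ω => ?_)
      simp only
      rw [integral_const_mul]
    have e2 : Integrable (fun ω => g ω * ∫ s, ⟪u (ω, s), X (ω, s)⟫) P := by
      refine hFi.integral_prod_left.congr (Eventually.of_forall fun ω => ?_)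
      simp only
      rw [integral_const_mul]
    have e3 : Integrable (fun ω => - g ω ^ 2) P := hgL.integrable_sq.neg
    have e4 : ∫ ω, g ω * (delta (rot_sw hP) (c1 hn ε).fn ω - ∫ s, ⟪u (ω, s), X (ω, s)⟫) ∂P =
        ∫ ω, (- g ω ^ 2 - g ω * (∫ s, ⟪u (ω, s), X (ω, s)⟫)) ∂P := by
      refine integral_congr_ae ?_
      filter_upwards [hde] with ω hω
      rw [hω]
      ring
    rw [e4, integral_sub e3 e2, integral_neg, q_c2 hP hn h0 h1, ← e1] at key2
    linarith
  -- the bound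
  have hS : MeasurableSet {z : Path n × I | z.2 ≤ pt ε} :=
    measurableSet_le measurable_snd measurable_const
  set v : I → ℝ := fun s => if s ≤ pt ε then ε⁻¹ else 0 with hv
  have hvm : Measurable v := Measurable.ite measurableSet_Iic measurable_const measurable_const
  have hvi : ∫ s, v s = 1 := by
    have e1 : v = (Set.Iic (pt ε)).indicator fun _ => ε⁻¹ := by
      funext s
      simp [hv, Set.indicator_apply]
    rw [e1, integral_indicator measurableSet_Iic, setIntegral_const]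
    rw [Measure.real, unitInterval.volume_Iic, pt_coe h0.le (by linarith),
      ENNReal.toReal_ofReal h0.le, smul_eq_mul]
    field_simp
  have hGi : ∫ z : Path n × I, g z.1 ^ 2 * v z.2 ∂(P.prod volume) = 1 := by
    rw [integral_prod_mul (fun ω => g ω ^ 2) v, hvi, q_c2 hP hn h0 h1, one_mul]
  have hGint : Integrable (fun z : Path n × I => g z.1 ^ 2 * v z.2) (P.prod volume) := by
    refine Integrable.mul_prod hgL.integrable_sq ?_
    refine Integrable.of_bound (C := ε⁻¹) hvm.aestronglyMeasurable (Eventually.of_forall fun s => ?_)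
    simp only [hv]
    split_ifs
    · rw [Real.norm_eq_abs, abs_of_pos (by positivity)]
    · simp; positivity
  have hXi : Integrable (fun z : Path n × I => ‖X z‖ ^ 2) (P.prod volume) := by
    have := hX.norm.integrable_sq
    exact this
  have hXi2 : Integrable ({z : Path n × I | z.2 ≤ pt ε}.indicator fun z => ‖X z‖ ^ 2)
      (P.prod volume) := hXi.indicator hS
  have hb : ∀ z : Path n × I, ‖g z.1 * ⟪u z, X z⟫‖ ≤ 1 / 2 * (g z.1 ^ 2 * v z.2 +
      {z : Path n × I | z.2 ≤ pt ε}.indicator (fun z => ‖X z‖ ^ 2) z) := by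
    intro z
    rw [norm_mul]
    have a1 : ‖⟪u z, X z⟫‖ ≤ ‖u z‖ * ‖X z‖ := norm_inner_le_norm _ _
    by_cases hz : z.2 ≤ pt ε
    · rw [Set.indicator_of_mem (by exact hz)]
      rw [hun, if_pos hz] at a1
      have a2 : v z.2 = (Real.sqrt ε)⁻¹ ^ 2 := by
        simp only [hv, if_pos hz]
        rw [inv_pow, Real.sq_sqrt h0.le]
      rw [a2]
      calc ‖g z.1‖ * ‖⟪u z, X z⟫‖ ≤ ‖g z.1‖ * ((Real.sqrt ε)⁻¹ * ‖X z‖) := by gcongr
        _ ≤ 1 / 2 * ((‖g z.1‖ * (Real.sqrt ε)⁻¹) ^ 2 + ‖X z‖ ^ 2) := by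
          nlinarith [sq_nonneg (‖g z.1‖ * (Real.sqrt ε)⁻¹ - ‖X z‖)]
        _ = _ := by rw [mul_pow, Real.norm_eq_abs, sq_abs]
    · rw [Set.indicator_of_notMem (by exact hz)]
      rw [hun, if_neg hz, zero_mul] at a1
      have a3 : ‖⟪u z, X z⟫‖ = 0 := le_antisymm a1 (norm_nonneg _)
      rw [a3, mul_zero]
      simp [hv, hz]
  have hfin : |∫ z : Path n × I, g z.1 * ⟪u z, X z⟫ ∂(P.prod volume)| ≤
      1 / 2 * ((∫ z : Path n × I, g z.1 ^ 2 * v z.2 ∂(P.prod volume)) +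
        ∫ z in {z : Path n × I | z.2 ≤ pt ε}, ‖X z‖ ^ 2 ∂(P.prod volume)) := by
    rw [← integral_indicator hS, ← integral_add hGint hXi2, ← integral_const_mul,
      ← Real.norm_eq_abs]
    refine (norm_integral_le_integral_norm
      (fun z : Path n × I => g z.1 * (⟪u z, X z⟫ : ℝ))).trans ?_
    exact integral_mono hFi.norm ((hGint.add hXi2).const_mul _) hb
  rw [hpair, hGi] at hfin
  norm_num at hfin
  linarith

/-- the derivation is not of the form `⟨grad, X⟩ + div A grad` -/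
theorem not_hasForm {P : Measure (Path n)} [IsGaussian P] (hP : IsWiener P) (hn : 1 ≤ n)
    {X : Path n × I → E n} (hX : MemLp X 2 (P.prod volume)) (A : Path n × I → (E n →L[ℝ] E n)) :
    ¬ HasForm P (delta (rot_sw hP)) X A := by
  intro hF
  have hXi : Integrable (fun z : Path n × I => ‖X z‖ ^ 2) (P.prod volume) :=
    hX.norm.integrable_sq
  have hS : ∀ k : ℕ, MeasurableSet {z : Path n × I | z.2 ≤ pt (1 / ((k : ℝ) + 2))} := fun k =>
    measurableSet_le measurable_snd measurable_const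
  have hk0 : ∀ k : ℕ, 0 < 1 / ((k : ℝ) + 2) := fun k => by positivity
  have hk1 : ∀ k : ℕ, 1 / ((k : ℝ) + 2) ≤ 1 / 2 := fun k => by
    apply one_div_le_one_div_of_le (by norm_num)
    have : (0 : ℝ) ≤ k := Nat.cast_nonneg k
    linarith
  have hanti : Antitone fun k : ℕ => {z : Path n × I | z.2 ≤ pt (1 / ((k : ℝ) + 2))} := by
    intro j k hjk z hz
    have hz' : (z.2 : ℝ) ≤ (pt (1 / ((k : ℝ) + 2)) : ℝ) := hz
    show (z.2 : ℝ) ≤ (pt (1 / ((j : ℝ) + 2)) : ℝ)
    rw [pt_coe (hk0 _).le (by linarith [hk1 k])] at hz'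
    rw [pt_coe (hk0 _).le (by linarith [hk1 j])]
    refine hz'.trans (one_div_le_one_div_of_le (by positivity) ?_)
    have : (j : ℝ) ≤ k := by exact_mod_cast hjk
    linarith
  have h1 := tendsto_setIntegral_of_antitone (μ := P.prod volume) (f := fun z => ‖X z‖ ^ 2) hS hanti
    ⟨0, hXi.integrableOn⟩
  have h2 : (P.prod volume) (⋂ k : ℕ, {z : Path n × I | z.2 ≤ pt (1 / ((k : ℝ) + 2))}) = 0 := by
    have e1 : (⋂ k : ℕ, {z : Path n × I | z.2 ≤ pt (1 / ((k : ℝ) + 2))}) ⊆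
        Set.univ ×ˢ {(0 : I)} := by
      intro z hz
      rw [Set.mem_iInter] at hz
      refine ⟨trivial, ?_⟩
      have h3 : (z.2 : ℝ) ≤ 0 := by
        refine ge_of_tendsto (x := atTop) (f := fun k : ℕ => 1 / ((k : ℝ) + 2)) ?_
          (Eventually.of_forall fun k => ?_)
        · have := (tendsto_one_div_add_atTop_nhds_zero_nat (𝕜 := ℝ)).comp (tendsto_add_atTop_nat 1)
          refine this.congr fun k => ?_
          simp only [Function.comp]
          push_cast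
          ring_nf
        · have h4 : (z.2 : ℝ) ≤ (pt (1 / ((k : ℝ) + 2)) : ℝ) := hz k
          rwa [pt_coe (hk0 _).le (by linarith [hk1 k])] at h4
      exact Subtype.ext (le_antisymm h3 z.2.2.1)
    refine measure_mono_null e1 ?_
    rw [Measure.prod_prod]
    simp
  rw [setIntegral_measure_zero _ h2] at h1
  have h3 := ge_of_tendsto h1 (Eventually.of_forall fun k : ℕ =>
    energy hP hn hX hF (hk0 k) (hk1 k))
  norm_num at h3

end Pool.Agent.Zk98.WD
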