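import Mathlib

/-!
# Gaussian computations on a separable Banach space
-/

open MeasureTheory ProbabilityTheory Filter Topology

set_option linter.unusedSectionVars false
set_option linter.deprecated false
open scoped ENNReal NNReal

namespace Pool.Agent.Zk98.WD

variable {Ω : Type*} [NormedAddCommGroup Ω] [NormedSpace ℝ Ω] [CompleteSpace Ω]
  [SecondCountableTopology Ω] [MeasurableSpace Ω] [BorelSpace Ω]
  {μ : Measure Ω} [IsGaussian μ]

lemma q_apply (hμ : ∀ L : StrongDual ℝ Ω, ∫ x, L x ∂μ = 0) (L M : StrongDual ℝ Ω) :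
    covarianceBilinDual μ L M = ∫ x, L x * M x ∂μ := by
  rw [covarianceBilinDual_apply IsGaussian.memLp_two_id]
  simp [hμ]

lemma charDual (hμ : ∀ L : StrongDual ℝ Ω, ∫ x, L x ∂μ = 0) (L : StrongDual ℝ Ω) :
    charFunDual μ L = ((Real.exp (-(covarianceBilinDual μ L L) / 2) : ℝ) : ℂ) := by
  rw [IsGaussian.charFunDual_eq' L]
  have h1 : L μ[id] = 0 := by
    rw [← hμ L]
    exact (IsGaussian.integral_dual L).symm
  rw [h1]
  push_cast
  congr 1
  ring

lemma int_exp (hμ : ∀ L : StrongDual ℝ Ω, ∫ x, L x ∂μ = 0) (L : StrongDual ℝ Ω) :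
    ∫ x, Complex.exp ((L x : ℂ) * Complex.I) ∂μ = ((Real.exp (-(covarianceBilinDual μ L L) / 2) : ℝ) : ℂ) := by
  rw [← charDual hμ, charFunDual_apply]

lemma integrable_exp' (L : StrongDual ℝ Ω) :
    Integrable (fun x => Complex.exp ((L x : ℂ) * Complex.I)) μ := by
  refine Integrable.of_bound (C := 1) (by fun_prop) (Eventually.of_forall fun x => ?_)
  rw [Complex.norm_exp_ofReal_mul_I]

lemma int_cos (hμ : ∀ L : StrongDual ℝ Ω, ∫ x, L x ∂μ = 0) (L : StrongDual ℝ Ω) :
    ∫ x, Real.cos (L x) ∂μ = Real.exp (-(covarianceBilinDual μ L L) / 2) := by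
  have h := congrArg Complex.re (int_exp hμ L)
  rw [Complex.ofReal_re] at h
  rw [← h]
  have := Complex.reCLM.integral_comp_comm (integrable_exp' (μ := μ) L)
  simp only [Complex.reCLM_apply, Complex.exp_ofReal_mul_I_re] at this
  exact this

lemma int_sin (hμ : ∀ L : StrongDual ℝ Ω, ∫ x, L x ∂μ = 0) (L : StrongDual ℝ Ω) :
    ∫ x, Real.sin (L x) ∂μ = 0 := by
  have h := congrArg Complex.im (int_exp hμ L)
  rw [Complex.ofReal_im] at h
  rw [← h]
  have := Complex.imCLM.integral_comp_comm (integrable_exp' (μ := μ) L)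
  simp only [Complex.imCLM_apply, Complex.exp_ofReal_mul_I_im] at this
  exact this

lemma integrable_cos' (α : ℝ) (L : StrongDual ℝ Ω) :
    Integrable (fun x => Real.cos (α + L x)) μ := by
  refine Integrable.of_bound (C := 1) (by fun_prop) (Eventually.of_forall fun x => ?_)
  exact Real.abs_cos_le_one _

lemma integrable_sin' (α : ℝ) (L : StrongDual ℝ Ω) :
    Integrable (fun x => Real.sin (α + L x)) μ := by
  refine Integrable.of_bound (C := 1) (by fun_prop) (Eventually.of_forall fun x => ?_)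
  exact Real.abs_sin_le_one _

lemma int_cos_add (hμ : ∀ L : StrongDual ℝ Ω, ∫ x, L x ∂μ = 0) (α : ℝ) (L : StrongDual ℝ Ω) :
    ∫ x, Real.cos (α + L x) ∂μ = Real.cos α * Real.exp (-(covarianceBilinDual μ L L) / 2) := by
  have h1 := integrable_cos' (μ := μ) 0 L
  have h2 := integrable_sin' (μ := μ) 0 L
  simp only [zero_add] at h1 h2
  simp_rw [Real.cos_add]
  rw [integral_sub (h1.const_mul _) (h2.const_mul _), integral_const_mul, integral_const_mul,
    int_cos hμ, int_sin hμ, mul_zero, sub_zero]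

lemma int_sin_add (hμ : ∀ L : StrongDual ℝ Ω, ∫ x, L x ∂μ = 0) (α : ℝ) (L : StrongDual ℝ Ω) :
    ∫ x, Real.sin (α + L x) ∂μ = Real.sin α * Real.exp (-(covarianceBilinDual μ L L) / 2) := by
  have h1 := integrable_cos' (μ := μ) 0 L
  have h2 := integrable_sin' (μ := μ) 0 L
  simp only [zero_add] at h1 h2
  simp_rw [Real.sin_add]
  rw [integral_add (h1.const_mul _) (h2.const_mul _), integral_const_mul, integral_const_mul,
    int_cos hμ, int_sin hμ, mul_zero, add_zero]

/-- Gaussian integration by parts. -/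
lemma ibp_cos (hμ : ∀ L : StrongDual ℝ Ω, ∫ x, L x ∂μ = 0) (α : ℝ) (L M : StrongDual ℝ Ω) :
    ∫ x, Real.cos (α + L x) * M x ∂μ = -(covarianceBilinDual μ L M) * Real.sin α * Real.exp (-(covarianceBilinDual μ L L) / 2) := by
  have key := hasDerivAt_integral_of_dominated_loc_of_deriv_le (μ := μ) (s := Set.univ)
    (F := fun (s : ℝ) (x : Ω) => Real.sin (α + (L + s • M) x))
    (F' := fun (s : ℝ) (x : Ω) => Real.cos (α + (L + s • M) x) * M x)
    (x₀ := 0) (bound := fun x => |M x|) univ_mem
    (Eventually.of_forall fun s => (integrable_sin' α _).1)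
    (integrable_sin' α _) (by fun_prop)
    (Eventually.of_forall fun x s _ => by
      rw [norm_mul, Real.norm_eq_abs, Real.norm_eq_abs]
      calc _ ≤ 1 * |M x| := by gcongr; exact Real.abs_cos_le_one _
        _ = _ := one_mul _)
    ((IsGaussian.integrable_dual μ M).abs)
    (Eventually.of_forall fun x s _ => by
      have h1 : HasDerivAt (fun s : ℝ => α + (L + s • M) x) (M x) s := by
        have : (fun s : ℝ => α + (L + s • M) x) = fun s : ℝ => α + L x + s * M x := by
          funext s
          simp only [ContinuousLinearMap.add_apply, ContinuousLinearMap.smul_apply, smul_eq_mul]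
          ring
        rw [this]
        simpa using ((hasDerivAt_id s).mul_const (M x)).const_add (α + L x)
      exact h1.sin)
  have h2 := key.2
  have h3 : (fun s : ℝ => ∫ x, Real.sin (α + (L + s • M) x) ∂μ) =
      fun s : ℝ => Real.sin α * Real.exp (-(covarianceBilinDual μ L L + 2 * s * covarianceBilinDual μ L M + s ^ 2 * covarianceBilinDual μ M M) / 2) := by
    funext s
    rw [int_sin_add hμ]
    congr 4
    simp only [map_add, map_smul, ContinuousLinearMap.add_apply, ContinuousLinearMap.smul_apply,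
      smul_eq_mul]
    rw [covarianceBilinDual_comm M L]
    ring
  rw [h3] at h2
  have h4 : HasDerivAt (fun s : ℝ => Real.sin α *
      Real.exp (-(covarianceBilinDual μ L L + 2 * s * covarianceBilinDual μ L M + s ^ 2 * covarianceBilinDual μ M M) / 2))
      (Real.sin α * (Real.exp (-(covarianceBilinDual μ L L + 2 * 0 * covarianceBilinDual μ L M + 0 ^ 2 * covarianceBilinDual μ M M) / 2) *
        (-(2 * covarianceBilinDual μ L M + 2 * 0 * covarianceBilinDual μ M M) / 2))) 0 := by
    have h5 : HasDerivAt (fun s : ℝ => -(covarianceBilinDual μ L L + 2 * s * covarianceBilinDual μ L M + s ^ 2 * covarianceBilinDual μ M M) / 2)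
        (-(2 * covarianceBilinDual μ L M + 2 * 0 * covarianceBilinDual μ M M) / 2) 0 := by
      have a1 : HasDerivAt (fun s : ℝ => 2 * s * covarianceBilinDual μ L M) (2 * covarianceBilinDual μ L M) (0 : ℝ) := by
        simpa using ((hasDerivAt_id (0 : ℝ)).const_mul 2).mul_const (covarianceBilinDual μ L M)
      have a2 : HasDerivAt (fun s : ℝ => s ^ 2 * covarianceBilinDual μ M M) (2 * 0 * covarianceBilinDual μ M M) (0 : ℝ) := by
        simpa using (hasDerivAt_pow 2 (0 : ℝ)).mul_const (covarianceBilinDual μ M M)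
      have a3 := (((a1.const_add (covarianceBilinDual μ L L)).add a2).neg).div_const 2
      exact a3
    exact (h5.exp).const_mul _
  have h6 := h2.unique h4
  simp only [zero_smul, add_zero, mul_zero, zero_mul, ne_eq, OfNat.ofNat_ne_zero,
    not_false_eq_true, zero_pow] at h6
  rw [h6]
  ring

lemma ibp_sin (hμ : ∀ L : StrongDual ℝ Ω, ∫ x, L x ∂μ = 0) (α : ℝ) (L M : StrongDual ℝ Ω) :
    ∫ x, Real.sin (α + L x) * M x ∂μ = covarianceBilinDual μ L M * Real.cos α * Real.exp (-(covarianceBilinDual μ L L) / 2) := by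
  have h := ibp_cos hμ (α - Real.pi / 2) L M
  rw [Real.sin_sub_pi_div_two] at h
  have : ∀ x, Real.cos (α - Real.pi / 2 + L x) = Real.sin (α + L x) := by
    intro x
    rw [show α - Real.pi / 2 + L x = (α + L x) - Real.pi / 2 by ring, Real.cos_sub_pi_div_two]
  simp_rw [this] at h
  rw [h]
  ring

lemma q_nonneg (L : StrongDual ℝ Ω) : 0 ≤ covarianceBilinDual μ L L := covarianceBilinDual_self_nonneg L

lemma map_dual (hμ : ∀ L : StrongDual ℝ Ω, ∫ x, L x ∂μ = 0) (L : StrongDual ℝ Ω) :
    μ.map L = gaussianReal 0 (covarianceBilinDual μ L L).toNNReal := by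
  rw [IsGaussian.map_eq_gaussianReal L, covarianceBilinDual_self_eq_variance IsGaussian.memLp_two_id]
  congr 1
  exact hμ L

lemma eLpNorm_dual (hμ : ∀ L : StrongDual ℝ Ω, ∫ x, L x ∂μ = 0) (L : StrongDual ℝ Ω) (p : ℝ≥0∞) :
    eLpNorm L p μ = ENNReal.ofReal (Real.sqrt (covarianceBilinDual μ L L)) * eLpNorm id p (gaussianReal 0 1) := by
  have h1 : eLpNorm L p μ = eLpNorm id p (μ.map L) := by
    rw [eLpNorm_map_measure (by fun_prop) (by fun_prop)]
    rfl
  have h2 : gaussianReal 0 (covarianceBilinDual μ L L).toNNReal =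
      (gaussianReal 0 1).map (fun x => Real.sqrt (covarianceBilinDual μ L L) * x) := by
    rw [gaussianReal_map_const_mul]
    congr 1
    · simp
    · ext
      rw [Real.coe_toNNReal _ (q_nonneg L)]
      simp [Real.sq_sqrt (q_nonneg L)]
  rw [h1, map_dual hμ, h2, eLpNorm_map_measure (by fun_prop) (by fun_prop)]
  have h3 : (id ∘ fun x : ℝ => Real.sqrt (covarianceBilinDual μ L L) * x) = Real.sqrt (covarianceBilinDual μ L L) • (id : ℝ → ℝ) := by
    funext x
    simp
  rw [h3, eLpNorm_const_smul]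
  congr 1
  rw [Real.enorm_eq_ofReal (Real.sqrt_nonneg _)]

end Pool.Agent.Zk98.WD
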