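import Pool.Agent.Zk98.WD.Rot
import Pool.Agent.R876.WM.OPL
import Pool.Agent.R876.WM.MP

/-!
# The key inequality
-/

open MeasureTheory ProbabilityTheory Filter Topology
open scoped ENNReal NNReal

set_option linter.unusedSectionVars false
set_option linter.deprecated false

namespace Pool.Agent.Zk98.WD

open Pool.Agent.R876.WM (ou)

variable {Ω : Type*} [NormedAddCommGroup Ω] [NormedSpace ℝ Ω] [CompleteSpace Ω]
  [SecondCountableTopology Ω] [MeasurableSpace Ω] [BorelSpace Ω]
  {μ : Measure Ω} [IsGaussian μ] {B : Ω →L[ℝ] Ω}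

section trig

variable {ι : Type} [Fintype ι]

/-- trigonometric functions -/
noncomputable def trig (c θ : ι → ℝ) (L : ι → StrongDual ℝ Ω) (x : Ω) : ℝ :=
  ∑ i, c i * Real.cos (θ i + L i x)

/-- the gradient of a trigonometric function -/
noncomputable def gr (c θ : ι → ℝ) (L : ι → StrongDual ℝ Ω) (x : Ω) : StrongDual ℝ Ω :=
  ∑ i, (-(c i * Real.sin (θ i + L i x))) • L i

lemma gr_apply (c θ : ι → ℝ) (L : ι → StrongDual ℝ Ω) (x y : Ω) :
    gr c θ L x y = ∑ i, -(c i * Real.sin (θ i + L i x)) * L i y := by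
  simp [gr]

lemma trig_continuous (c θ : ι → ℝ) (L : ι → StrongDual ℝ Ω) : Continuous (trig c θ L) := by
  unfold trig
  fun_prop

lemma gr_continuous (c θ : ι → ℝ) (L : ι → StrongDual ℝ Ω) :
    Continuous (fun z : Ω × Ω => gr c θ L z.1 (B z.2)) := by
  simp only [gr_apply]
  fun_prop

lemma trig_bound (c θ : ι → ℝ) (L : ι → StrongDual ℝ Ω) (x : Ω) :
    ‖trig c θ L x‖ ≤ ∑ i, |c i| := by
  unfold trig
  refine (norm_sum_le _ _).trans (Finset.sum_le_sum fun i _ => ?_)
  rw [Real.norm_eq_abs, abs_mul]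
  calc _ ≤ |c i| * 1 := by gcongr; exact Real.abs_cos_le_one _
    _ = _ := mul_one _

/-- the factor of the semigroup -/
noncomputable def fac (μ : Measure Ω) [IsGaussian μ] (b : ℝ) (L : StrongDual ℝ Ω) : ℝ :=
  Real.exp (-(b ^ 2 * covarianceBilinDual μ L L) / 2)

lemma fac_eq (b : ℝ) (L : StrongDual ℝ Ω) : Real.exp (-(covarianceBilinDual μ (b • L) (b • L)) / 2) = fac μ b L := by
  unfold fac
  congr 2
  simp only [map_smul, ContinuousLinearMap.smul_apply, smul_eq_mul]
  ring

/-- averages of trigonometric functions -/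
lemma avg_trig (hμ : ∀ L : StrongDual ℝ Ω, ∫ x, L x ∂μ = 0) (a b : ℝ)
    (c θ : ι → ℝ) (L : ι → StrongDual ℝ Ω) (x : Ω) :
    ∫ y, trig c θ L (a • x + b • y) ∂μ = trig (fun i => c i * fac μ b (L i)) θ (fun i => a • L i) x := by
  unfold trig
  have h1 : ∀ i y, c i * Real.cos (θ i + L i (a • x + b • y)) =
      c i * Real.cos ((θ i + a * L i x) + (b • L i) y) := by
    intro i y
    simp only [map_add, map_smul, ContinuousLinearMap.smul_apply, smul_eq_mul]
    ring_nf
  simp_rw [h1]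
  rw [integral_finset_sum _ fun i _ => (integrable_cos' _ _).const_mul _]
  refine Finset.sum_congr rfl fun i _ => ?_
  rw [integral_const_mul, int_cos_add hμ, fac_eq]
  simp only [ContinuousLinearMap.smul_apply, smul_eq_mul]
  ring

/-- pairing of averages with linear functionals -/
lemma avg_pair (hμ : ∀ L : StrongDual ℝ Ω, ∫ x, L x ∂μ = 0) (a b : ℝ)
    (c θ : ι → ℝ) (L : ι → StrongDual ℝ Ω) (x : Ω) (M : StrongDual ℝ Ω) :
    a * ∫ y, trig c θ L (a • x + b • y) * M y ∂μ =
      b * covarianceBilinDual μ (gr (fun i => c i * fac μ b (L i)) θ (fun i => a • L i) x) M := by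
  unfold trig
  have h1 : ∀ y, (∑ i, c i * Real.cos (θ i + L i (a • x + b • y))) * M y =
      ∑ i, c i * (Real.cos ((θ i + a * L i x) + (b • L i) y) * M y) := by
    intro y
    rw [Finset.sum_mul]
    refine Finset.sum_congr rfl fun i _ => ?_
    simp only [map_add, map_smul, ContinuousLinearMap.smul_apply, smul_eq_mul]
    ring_nf
  simp_rw [h1]
  rw [integral_finset_sum]
  · simp only [gr, map_sum, ContinuousLinearMap.sum_apply, Finset.mul_sum]
    refine Finset.sum_congr rfl fun i _ => ?_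
    rw [integral_const_mul, ibp_cos hμ, fac_eq]
    simp only [map_smul, ContinuousLinearMap.smul_apply, smul_eq_mul]
    ring
  · intro i _
    refine Integrable.const_mul ?_ _
    refine (IsGaussian.integrable_dual μ M).bdd_mul (c := 1) (by fun_prop)
      (Eventually.of_forall fun y => ?_)
    exact Real.abs_cos_le_one _

/-- Bessel's inequality -/
lemma bessel (hμ : ∀ L : StrongDual ℝ Ω, ∫ x, L x ∂μ = 0) {a b : ℝ} (ha : 0 < a) (hb : 0 < b)
    (c θ : ι → ℝ) (L : ι → StrongDual ℝ Ω) (x : Ω) :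
    covarianceBilinDual μ (gr (fun i => c i * fac μ b (L i)) θ (fun i => a • L i) x)
      (gr (fun i => c i * fac μ b (L i)) θ (fun i => a • L i) x) ≤
      (a / b) ^ 2 * ∫ y, (trig c θ L (a • x + b • y)) ^ 2 ∂μ := by
  set v := gr (fun i => c i * fac μ b (L i)) θ (fun i => a • L i) x with hv
  set K : Ω → ℝ := fun y => trig c θ L (a • x + b • y) with hK
  have hKc : Continuous K := (trig_continuous c θ L).comp (by fun_prop)
  have hKb : ∀ y, ‖K y‖ ≤ ∑ i, |c i| := fun y => trig_bound c θ L _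
  have h1 : a * ∫ y, K y * v y ∂μ = b * covarianceBilinDual μ v v := avg_pair hμ a b c θ L x v
  have h2 : ∫ y, v y * v y ∂μ = covarianceBilinDual μ v v := (q_apply hμ v v).symm
  have i1 : Integrable (fun y => K y * v y) μ :=
    (IsGaussian.integrable_dual μ v).bdd_mul (c := ∑ i, |c i|) hKc.aestronglyMeasurable
      (Eventually.of_forall hKb)
  have i2 : Integrable (fun y => v y * v y) μ := by
    have := (IsGaussian.memLp_dual μ v 2 (by norm_num)).integrable_sq
    simpa [pow_two] using this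
  have i3 : Integrable (fun y => K y ^ 2) μ := by
    refine Integrable.of_bound (C := (∑ i, |c i|) ^ 2) (hKc.pow 2).aestronglyMeasurable
      (Eventually.of_forall fun y => ?_)
    rw [norm_pow]
    gcongr
    exact hKb y
  have h3 : 0 ≤ ∫ y, (K y - (b / a) * v y) ^ 2 ∂μ := integral_nonneg fun y => sq_nonneg _
  have h4 : ∫ y, (K y - (b / a) * v y) ^ 2 ∂μ =
      ∫ y, K y ^ 2 ∂μ - 2 * (b / a) * ∫ y, K y * v y ∂μ + (b / a) ^ 2 * ∫ y, v y * v y ∂μ := by
    have i4 : Integrable (fun y => K y ^ 2 - 2 * (b / a) * (K y * v y)) μ :=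
      i3.sub (i1.const_mul _)
    rw [← integral_const_mul, ← integral_const_mul, ← integral_sub i3 (i1.const_mul _),
      ← integral_add i4 (i2.const_mul _)]
    refine integral_congr_ae (Eventually.of_forall fun y => ?_)
    simp only
    ring
  rw [h4, h2] at h3
  have h5 : ∫ y, K y * v y ∂μ = (b / a) * covarianceBilinDual μ v v := by
    field_simp
    linarith
  rw [h5] at h3
  have h6 : (b / a) ^ 2 * covarianceBilinDual μ v v ≤ ∫ y, K y ^ 2 ∂μ := by nlinarith
  have h7 : (a / b) ^ 2 * ((b / a) ^ 2 * covarianceBilinDual μ v v) ≤ (a / b) ^ 2 * ∫ y, K y ^ 2 ∂μ := by gcongr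
  have h8 : (a / b) ^ 2 * ((b / a) ^ 2 * covarianceBilinDual μ v v) = covarianceBilinDual μ v v := by field_simp
  rw [h8] at h7
  exact h7

/-- the integral representation of the derivative of the average -/
lemma repr_der (h : Rot μ B) {a b : ℝ} (hb : b ≠ 0)
    (c θ : ι → ℝ) (L : ι → StrongDual ℝ Ω) (x : Ω) :
    gr (fun i => c i * fac μ b (L i)) θ (fun i => a • L i) x (B x) =
      -(a / b) * ∫ y, gr c θ L (a • x + b • y) (B (-b • x + a • y)) ∂μ := by
  have h1 : ∀ y, gr c θ L (a • x + b • y) (B (-b • x + a • y)) =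
      ∑ i, (c i * b * L i (B x) * Real.sin ((θ i + a * L i x) + (b • L i) y) +
        (-(c i * a)) * (Real.sin ((θ i + a * L i x) + (b • L i) y) * (L i ∘L B) y)) := by
    intro y
    rw [gr_apply]
    refine Finset.sum_congr rfl fun i _ => ?_
    simp only [map_add, map_smul, ContinuousLinearMap.smul_apply, smul_eq_mul,
      ContinuousLinearMap.comp_apply]
    ring_nf
  simp_rw [h1]
  have i1 : ∀ i, Integrable (fun y => c i * b * L i (B x) *
      Real.sin ((θ i + a * L i x) + (b • L i) y)) μ := fun i => (integrable_sin' _ _).const_mul _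
  have i2 : ∀ i, Integrable (fun y => (-(c i * a)) *
      (Real.sin ((θ i + a * L i x) + (b • L i) y) * (L i ∘L B) y)) μ := by
    intro i
    refine Integrable.const_mul ?_ _
    refine (IsGaussian.integrable_dual μ _).bdd_mul (c := 1) (by fun_prop)
      (Eventually.of_forall fun y => ?_)
    exact Real.abs_sin_le_one _
  have i3 : ∀ i, Integrable (fun y => c i * b * L i (B x) *
      Real.sin ((θ i + a * L i x) + (b • L i) y) + (-(c i * a)) *
      (Real.sin ((θ i + a * L i x) + (b • L i) y) * (L i ∘L B) y)) μ :=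
    fun i => (i1 i).add (i2 i)
  rw [integral_finset_sum _ fun i _ => i3 i, gr_apply, Finset.mul_sum]
  refine Finset.sum_congr rfl fun i _ => ?_
  rw [integral_add (i1 i) (i2 i), integral_const_mul, integral_const_mul, int_sin_add h.mean,
    ibp_sin h.mean, fac_eq]
  have h2 : covarianceBilinDual μ (b • L i) (L i ∘L B) = 0 := by
    simp [h.q_skew]
  rw [h2]
  simp only [ContinuousLinearMap.smul_apply, smul_eq_mul]
  field_simp
  ring

end trig

/-- comparison of norms over the product -/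
lemma eLpNorm_prod_le {p : ℝ≥0∞} (hp : 1 ≤ p) (hp' : p ≠ ∞) {G H : Ω × Ω → ℝ}
    (hG : AEStronglyMeasurable G (μ.prod μ)) (hH : AEStronglyMeasurable H (μ.prod μ))
    (C : ℝ≥0∞)
    (h : ∀ x, eLpNorm (fun y => G (x, y)) p μ ≤ C * eLpNorm (fun y => H (x, y)) p μ) :
    eLpNorm G p (μ.prod μ) ≤ C * eLpNorm H p (μ.prod μ) := by
  have hp0 : p ≠ 0 := (lt_of_lt_of_le zero_lt_one hp).ne'
  have hpos : 0 < p.toReal := ENNReal.toReal_pos hp0 hp'
  rw [eLpNorm_eq_lintegral_rpow_enorm_toReal hp0 hp', eLpNorm_eq_lintegral_rpow_enorm_toReal hp0 hp']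
  have h1 : ∀ x, ∫⁻ y, ‖G (x, y)‖ₑ ^ p.toReal ∂μ ≤
      C ^ p.toReal * ∫⁻ y, ‖H (x, y)‖ₑ ^ p.toReal ∂μ := by
    intro x
    have h2 := ENNReal.rpow_le_rpow (h x) hpos.le
    rw [ENNReal.mul_rpow_of_nonneg _ _ hpos.le, eLpNorm_eq_lintegral_rpow_enorm_toReal hp0 hp',
      eLpNorm_eq_lintegral_rpow_enorm_toReal hp0 hp', ← ENNReal.rpow_mul, ← ENNReal.rpow_mul,
      one_div_mul_cancel hpos.ne', ENNReal.rpow_one, ENNReal.rpow_one] at h2
    exact h2
  rw [lintegral_prod _ (hG.enorm.pow_const _), lintegral_prod _ (hH.enorm.pow_const _)]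
  calc (∫⁻ x, ∫⁻ y, ‖G (x, y)‖ₑ ^ p.toReal ∂μ ∂μ) ^ (1 / p.toReal)
      ≤ (∫⁻ x, C ^ p.toReal * ∫⁻ y, ‖H (x, y)‖ₑ ^ p.toReal ∂μ ∂μ) ^ (1 / p.toReal) := by
        gcongr with x
        exact h1 x
    _ = (C ^ p.toReal * ∫⁻ x, ∫⁻ y, ‖H (x, y)‖ₑ ^ p.toReal ∂μ ∂μ) ^ (1 / p.toReal) := by
        rw [lintegral_const_mul'']
        exact (hH.enorm.pow_const _).lintegral_prod_right'
    _ = C * (∫⁻ x, ∫⁻ y, ‖H (x, y)‖ₑ ^ p.toReal ∂μ ∂μ) ^ (1 / p.toReal) := by
        rw [ENNReal.mul_rpow_of_nonneg _ _ (by positivity), ← ENNReal.rpow_mul,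
          mul_one_div_cancel hpos.ne', ENNReal.rpow_one]

/-- the `p`-th absolute moment norm of a standard Gaussian variable -/
noncomputable def mom (p : ℝ≥0∞) : ℝ≥0∞ := eLpNorm (id : ℝ → ℝ) p (gaussianReal 0 1)

lemma mom_ne_top {p : ℝ≥0∞} (hp : p ≠ ∞) : mom p ≠ ∞ := by
  have := memLp_id_gaussianReal (μ := 0) (v := 1) p.toNNReal
  rw [ENNReal.coe_toNNReal hp] at this
  exact this.2.ne

section key

variable {ι : Type} [Fintype ι]

lemma key_ineq (h : Rot μ B) {p : ℝ≥0∞} (hp2 : 2 ≤ p) (hp' : p ≠ ∞) {φ : ℝ}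
    (ha : 0 < Real.cos φ) (hb : 0 < Real.sin φ) (c θ : ι → ℝ) (L : ι → StrongDual ℝ Ω) :
    eLpNorm (fun x => gr (fun i => c i * fac μ (Real.sin φ) (L i) *
        fac μ (Real.sin φ) (Real.cos φ • L i)) θ (fun i => Real.cos φ • Real.cos φ • L i) x (B x))
      p μ ≤ ENNReal.ofReal ((Real.cos φ / Real.sin φ) ^ 2) * mom p * eLpNorm (trig c θ L) p μ := by
  have hp1 : 1 ≤ p := le_trans (by norm_num) hp2
  set a := Real.cos φ with ha'
  set b := Real.sin φ with hb'
  have hMP := Pool.Agent.R876.WM.mp_thm μ h.mean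
  have hR := hMP.2 φ
  have hR1 := hMP.1 φ
  rw [← ha', ← hb'] at hR hR1
  set c1 : ι → ℝ := fun i => c i * fac μ b (L i) with hc1
  set L1 : ι → StrongDual ℝ Ω := fun i => a • L i with hL1
  set G : Ω × Ω → ℝ := fun z => gr c1 θ L1 z.1 (B z.2) with hG
  set H : Ω × Ω → ℝ := fun z => trig c θ L (a • z.1 + b • z.2) with hH
  have hGc : Continuous G := gr_continuous c1 θ L1
  have hHc : Continuous H := (trig_continuous c θ L).comp (by fun_prop)
  have e1 : (fun x => gr (fun i => c i * fac μ b (L i) * fac μ b (a • L i)) θ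
      (fun i => a • a • L i) x (B x)) = fun x => -(a / b) • ∫ y, (G ∘ fun z : Ω × Ω =>
        (a • z.1 + b • z.2, -b • z.1 + a • z.2)) (x, y) ∂μ := by
    funext x
    exact repr_der h hb.ne' c1 θ L1 x
  have e2 : eLpNorm (fun x => -(a / b) • ∫ y, (G ∘ fun z : Ω × Ω =>
        (a • z.1 + b • z.2, -b • z.1 + a • z.2)) (x, y) ∂μ) p μ ≤
      ENNReal.ofReal (a / b) * eLpNorm G p (μ.prod μ) := by
    have e3 := eLpNorm_const_smul (-(a / b)) (fun x => ∫ y, (G ∘ fun z : Ω × Ω =>
        (a • z.1 + b • z.2, -b • z.1 + a • z.2)) (x, y) ∂μ) p μ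
    have e4 : ‖-(a / b)‖ₑ = ENNReal.ofReal (a / b) := by
      rw [enorm_neg, Real.enorm_eq_ofReal (by positivity)]
    rw [e4] at e3
    refine (le_of_eq e3).trans ?_
    gcongr
    refine (Pool.Agent.R876.WM.OPL.eLpNorm_int_le μ p hp1 hp' _ ?_).trans ?_
    · exact (hGc.comp (by fun_prop)).aestronglyMeasurable
    · exact le_of_eq (eLpNorm_comp_measurePreserving hGc.aestronglyMeasurable hR)
  rw [e1]
  refine e2.trans ?_
  have e5 : eLpNorm G p (μ.prod μ) ≤ (ENNReal.ofReal (a / b) * mom p) * eLpNorm H p (μ.prod μ) := by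
    refine eLpNorm_prod_le hp1 hp' hGc.aestronglyMeasurable hHc.aestronglyMeasurable _ fun x => ?_
    have f1 : (fun y => G (x, y)) = ((gr c1 θ L1 x) ∘L B : StrongDual ℝ Ω) := by
      funext y; rfl
    rw [f1, eLpNorm_dual h.mean, h.q_comp]
    have f2 := bessel h.mean ha hb c θ L x
    have f3 : Real.sqrt (covarianceBilinDual μ (gr c1 θ L1 x) (gr c1 θ L1 x)) ≤
        (a / b) * Real.sqrt (∫ y, (trig c θ L (a • x + b • y)) ^ 2 ∂μ) := by
      rw [← Real.sqrt_sq (show 0 ≤ a / b by positivity), ← Real.sqrt_mul (by positivity)]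
      exact Real.sqrt_le_sqrt f2
    have f4 : ENNReal.ofReal (Real.sqrt (∫ y, (trig c θ L (a • x + b • y)) ^ 2 ∂μ)) =
        eLpNorm (fun y => H (x, y)) 2 μ := by
      have g1 : MemLp (fun y => H (x, y)) 2 μ := by
        refine MemLp.of_bound (hHc.comp (by fun_prop)).aestronglyMeasurable (∑ i, |c i|)
          (Eventually.of_forall fun y => trig_bound c θ L _)
      rw [MemLp.eLpNorm_eq_integral_rpow_norm (by norm_num) (by norm_num) g1]
      congr 1
      rw [Real.sqrt_eq_rpow]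
      simp only [ENNReal.toReal_ofNat, Real.rpow_two, one_div, Real.norm_eq_abs, sq_abs]
      rfl
    calc ENNReal.ofReal (Real.sqrt (covarianceBilinDual μ (gr c1 θ L1 x) (gr c1 θ L1 x))) *
          eLpNorm id p (gaussianReal 0 1)
        ≤ ENNReal.ofReal ((a / b) * Real.sqrt (∫ y, (trig c θ L (a • x + b • y)) ^ 2 ∂μ)) *
          mom p := by
          gcongr
          exact le_rfl
      _ = ENNReal.ofReal (a / b) * mom p * eLpNorm (fun y => H (x, y)) 2 μ := by
          rw [ENNReal.ofReal_mul (by positivity), f4]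
          ring
      _ ≤ ENNReal.ofReal (a / b) * mom p * eLpNorm (fun y => H (x, y)) p μ := by
          gcongr
          exact eLpNorm_le_eLpNorm_of_exponent_le hp2 (hHc.comp (by fun_prop)).aestronglyMeasurable
  have e6 : eLpNorm H p (μ.prod μ) = eLpNorm (trig c θ L) p μ :=
    eLpNorm_comp_measurePreserving (trig_continuous c θ L).aestronglyMeasurable hR1
  rw [e6] at e5
  calc ENNReal.ofReal (a / b) * eLpNorm G p (μ.prod μ)
      ≤ ENNReal.ofReal (a / b) * ((ENNReal.ofReal (a / b) * mom p) * eLpNorm (trig c θ L) p μ) := by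
        gcongr
    _ = ENNReal.ofReal ((a / b) ^ 2) * mom p * eLpNorm (trig c θ L) p μ := by
        rw [pow_two, ENNReal.ofReal_mul (by positivity)]
        ring

end key

end Pool.Agent.Zk98.WD
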