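import Pool.Agent.Zk98.WD.Der4
import Pool.Agent.Zk98.WD.Defs

/-!
# The classical Wiener space
-/

open MeasureTheory ProbabilityTheory Filter Topology
open scoped ENNReal NNReal unitInterval RealInnerProductSpace

set_option linter.unusedSectionVars false
set_option linter.deprecated false

namespace Pool.Agent.Zk98.WD

lemma mem_PathS {n : ℕ} {ω : C(I, E n)} : ω ∈ PathS n ↔ ω 0 = 0 := Iff.rfl

instance (n : ℕ) : CompleteSpace (Path n) := by
  have h : IsClosed (PathS n : Set C(I, E n)) := by
    have : (PathS n : Set C(I, E n)) = (fun ω : C(I, E n) => ω 0) ⁻¹' {0} := by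
      ext ω; rfl
    rw [this]
    exact isClosed_singleton.preimage (continuous_eval_const (0 : I))
  exact (h.completeSpace_coe : CompleteSpace ↥(PathS n))

instance (n : ℕ) : SecondCountableTopology (Path n) :=
  inferInstanceAs (SecondCountableTopology ↥(PathS n))

/-- the inclusion -/
noncomputable def inc (n : ℕ) : Path n →L[ℝ] C(I, E n) := (PathS n).subtypeL

lemma inc_apply {n : ℕ} (ω : Path n) : inc n ω = ω.1 := rfl

lemma inc_emb (n : ℕ) : IsInducing (inc n) := (IsInducing.subtypeVal : IsInducing _)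

@[simp] lemma add_coe {n : ℕ} (a b : Path n) : (a + b).1 = a.1 + b.1 := rfl
@[simp] lemma neg_coe {n : ℕ} (a : Path n) : (-a).1 = -a.1 := rfl
@[simp] lemma smul_coe {n : ℕ} (c : ℝ) (a : Path n) : (c • a).1 = c • a.1 := rfl
@[simp] lemma zero_coe {n : ℕ} : (0 : Path n).1 = 0 := rfl

lemma path_ext {n : ℕ} {a b : Path n} (h : ∀ t, a.1 t = b.1 t) : a = b :=
  Subtype.ext (ContinuousMap.ext h)

/-- evaluations -/
noncomputable def ev {n : ℕ} (a : E n) (t : I) : StrongDual ℝ (Path n) :=
  (innerSL ℝ a) ∘L (ContinuousMap.evalCLM ℝ t) ∘L (inc n)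

lemma ev_apply {n : ℕ} (a : E n) (t : I) (ω : Path n) : ev a t ω = ⟪a, ω.1 t⟫ := rfl

/-- constructor -/
def mkPath {n : ℕ} (ω : C(I, E n)) (h : ω 0 = 0) : Path n := ⟨ω, h⟩

lemma mkPath_coe {n : ℕ} (ω : C(I, E n)) (h : ω 0 = 0) : (mkPath ω h).1 = ω := rfl

/-- the basic paths -/
noncomputable def gg {n : ℕ} (m : ℕ) (k : Fin (m + 1)) (j : Fin n) : Path n :=
  if hk : (k : ℕ) = 0 then 0 else
    mkPath (bernstein m k • ContinuousMap.const _ (EuclideanSpace.single j 1))
      (by simp [bernstein_apply, hk])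

lemma gg_apply {n : ℕ} {m : ℕ} {k : Fin (m + 1)} (hk : (k : ℕ) ≠ 0) (j : Fin n) (x : I) :
    (gg m k j).1 x = bernstein m k x • EuclideanSpace.single j 1 := by
  unfold gg
  rw [dif_neg hk]
  rfl

/-- Bernstein approximation of a path -/
noncomputable def bern {n : ℕ} (m : ℕ) (ω : Path n) : Path n :=
  ∑ k : Fin (m + 1), ∑ j : Fin n, (ω.1 (bernstein.z k) j) • gg m k j

lemma bern_coe {n : ℕ} (m : ℕ) (ω : Path n) : (bern m ω).1 = bernsteinApproximation m ω.1 := by
  ext x : 1
  rw [bernsteinApproximation.apply, bern, ← inc_apply]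
  simp only [map_sum, map_smul, inc_apply, ContinuousMap.coe_sum, Finset.sum_apply,
    ContinuousMap.coe_smul, Pi.smul_apply]
  refine Finset.sum_congr rfl fun k _ => ?_
  by_cases hk : (k : ℕ) = 0
  · have hk' : k = 0 := Fin.ext hk
    subst hk'
    have h0 : ω.1 (bernstein.z (0 : Fin (m + 1))) = 0 := by
      rw [bernstein.z_zero]; exact ω.2
    rw [h0]
    simp
  · simp only [gg_apply hk]
    ext i
    simp only [WithLp.ofLp_sum, WithLp.ofLp_smul, Finset.sum_apply, Pi.smul_apply, smul_eq_mul,
      PiLp.single_apply]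
    rw [Finset.sum_eq_single i]
    · simp [mul_comm]
    · intro j _ hj
      simp [Ne.symm hj]
    · simp

lemma bern_tendsto {n : ℕ} (ω : Path n) : Tendsto (fun m => bern m ω) atTop (𝓝 ω) := by
  rw [(inc_emb n).tendsto_nhds_iff]
  have := bernsteinApproximation_uniform ω.1
  refine this.congr fun m => ?_
  rw [Function.comp, inc_apply, bern_coe]

variable {n : ℕ}

/-- the linear functionals which depend on finitely many coordinates -/
noncomputable def evS (n : ℕ) : Submodule ℝ (StrongDual ℝ (Path n)) :=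
  Submodule.span ℝ (Set.range fun z : E n × I => ev z.1 z.2)

lemma exists_approx (L : StrongDual ℝ (Path n)) (m : ℕ) :
    ∃ M ∈ evS n, ∀ ω, M ω = L (bern m ω) := by
  refine ⟨∑ k : Fin (m + 1), ∑ j : Fin n,
    L (gg m k j) • ev (EuclideanSpace.single j 1) (bernstein.z k), ?_, ?_⟩
  · refine Submodule.sum_mem _ fun k _ => Submodule.sum_mem _ fun j _ => Submodule.smul_mem _ _ ?_
    exact Submodule.subset_span ⟨(EuclideanSpace.single j 1, bernstein.z k), rfl⟩
  · intro ω
    simp only [bern, map_sum, map_smul, ContinuousLinearMap.sum_apply,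
      ContinuousLinearMap.smul_apply, smul_eq_mul, ev_apply]
    refine Finset.sum_congr rfl fun k _ => Finset.sum_congr rfl fun j _ => ?_
    rw [EuclideanSpace.inner_single_left]
    simp [mul_comm]

lemma charFunDual_tendsto {μ : Measure (Path n)} [IsFiniteMeasure μ] (L : StrongDual ℝ (Path n))
    (M : ℕ → StrongDual ℝ (Path n)) (hM : ∀ m ω, M m ω = L (bern m ω)) :
    Tendsto (fun m => charFunDual μ (M m)) atTop (𝓝 (charFunDual μ L)) := by
  simp only [charFunDual_apply]
  refine tendsto_integral_of_dominated_convergence (fun _ => (1 : ℝ)) ?_ (integrable_const _) ?_ ?_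
  · intro m
    exact Continuous.aestronglyMeasurable (by fun_prop)
  · intro m
    refine Eventually.of_forall fun ω => ?_
    rw [Complex.norm_exp_ofReal_mul_I]
  · refine Eventually.of_forall fun ω => ?_
    have h1 : Tendsto (fun m => L (bern m ω)) atTop (𝓝 (L ω)) :=
      (L.continuous.tendsto ω).comp (bern_tendsto ω)
    have h2 : Continuous fun r : ℝ => Complex.exp ((r : ℂ) * Complex.I) := by fun_prop
    have h3 := (h2.tendsto (L ω)).comp h1
    refine h3.congr fun m => ?_
    simp only [Function.comp]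
    rw [hM]

/-- the finite-dimensional distributions determine the measure -/
lemma ext_evS {μ ν : Measure (Path n)} [IsFiniteMeasure μ] [IsFiniteMeasure ν]
    (h : ∀ L ∈ evS n, charFunDual μ L = charFunDual ν L) : μ = ν := by
  apply Measure.ext_of_charFunDual
  ext L
  choose M hM1 hM2 using fun m => exists_approx L m
  have h1 := charFunDual_tendsto (μ := μ) L M hM2
  have h2 := charFunDual_tendsto (μ := ν) L M hM2
  refine tendsto_nhds_unique h1 (h2.congr fun m => ?_)
  exact (h _ (hM1 m)).symm

/-- all continuous linear functionals are centred -/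
lemma IsWiener.mean' {P : Measure (Path n)} (hP : IsWiener P) (L : StrongDual ℝ (Path n)) :
    ∫ ω, L ω ∂P = 0 := by
  have := hP.gauss
  have h1 : ∀ (a : E n) (t : I), ev a t (∫ ω, ω ∂P) = 0 := by
    intro a t
    exact (IsGaussian.integral_dual (μ := P) (ev a t)).symm.trans (hP.mean a t)
  have h2 : ∫ ω, ω ∂P = 0 := by
    refine path_ext fun t => ?_
    have h3 := h1 ((∫ ω, ω ∂P : Path n).1 t) t
    rw [ev_apply, inner_self_eq_zero] at h3
    rw [h3]
    rfl
  exact (IsGaussian.integral_dual (μ := P) L).trans (by rw [h2, map_zero])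

lemma IsWiener.q_ev {P : Measure (Path n)} (hP : IsWiener P) (a b : E n) (s t : I) :
    covarianceBilinDual P (ev a s) (ev b t) = min (s : ℝ) t * ⟪a, b⟫ := by
  have := hP.gauss
  rw [q_apply hP.mean']
  exact hP.cov a b s t

end Pool.Agent.Zk98.WD
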