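import Pool.Agent.Zk98.WD.Gau
import Pool.Agent.Zk98.WD.Abs
import Pool.Agent.R876.WM.Stm

/-!
# The rotations `cos r + sin r B`
-/

open MeasureTheory ProbabilityTheory Filter Topology
open scoped ENNReal NNReal

set_option linter.unusedSectionVars false
set_option linter.deprecated false

namespace Pool.Agent.Zk98.WD

open Pool.Agent.R876.WM (ou)

variable {Ω : Type*} [NormedAddCommGroup Ω] [NormedSpace ℝ Ω] [CompleteSpace Ω]
  [SecondCountableTopology Ω] [MeasurableSpace Ω] [BorelSpace Ω]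
  {μ : Measure Ω} [IsGaussian μ] {B : Ω →L[ℝ] Ω}

/-- the rotation `cos r + sin r B` -/
noncomputable def rotB (B : Ω →L[ℝ] Ω) (r : ℝ) : Ω →L[ℝ] Ω :=
  Real.cos r • ContinuousLinearMap.id ℝ Ω + Real.sin r • B

lemma rotB_apply (r : ℝ) (x : Ω) : rotB B r x = Real.cos r • x + Real.sin r • B x := by
  simp [rotB]

/-- `μ` is centred, and `B` is an isometry of the Gaussian structure with `B² = -1`. -/
structure Rot (μ : Measure Ω) (B : Ω →L[ℝ] Ω) : Prop where
  mean : ∀ L : StrongDual ℝ Ω, ∫ x, L x ∂μ = 0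
  sq : ∀ x, B (B x) = -x
  mp : μ.map B = μ

namespace Rot

lemma mpB (h : Rot μ B) : MeasurePreserving B μ μ := ⟨by fun_prop, h.mp⟩

lemma q_comp (h : Rot μ B) (L M : StrongDual ℝ Ω) : covarianceBilinDual μ (L ∘L B) (M ∘L B) = covarianceBilinDual μ L M := by
  rw [q_apply h.mean, q_apply h.mean]
  have : ∫ x, L x * M x ∂(μ.map B) = ∫ x, L (B x) * M (B x) ∂μ :=
    integral_map (by fun_prop) (by fun_prop)
  rw [h.mp] at this
  rw [this]
  rfl

lemma q_skew (h : Rot μ B) (L : StrongDual ℝ Ω) : covarianceBilinDual μ L (L ∘L B) = 0 := by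
  have h1 := h.q_comp L (L ∘L B)
  have h2 : (L ∘L B) ∘L B = -L := by
    ext x
    simp [h.sq]
  rw [h2, map_neg, covarianceBilinDual_comm (L ∘L B) L] at h1
  linarith

lemma q_skew' (h : Rot μ B) (L M : StrongDual ℝ Ω) : covarianceBilinDual μ L (M ∘L B) = - covarianceBilinDual μ (L ∘L B) M := by
  have h1 := h.q_comp L (M ∘L B)
  have h2 : (M ∘L B) ∘L B = -M := by
    ext x
    simp [h.sq]
  rw [h2, map_neg] at h1
  linarith

lemma comp_rot (L : StrongDual ℝ Ω) (r : ℝ) :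
    L ∘L rotB B r = Real.cos r • L + Real.sin r • (L ∘L B) := by
  ext x
  simp [rotB_apply]

lemma q_rot (h : Rot μ B) (L : StrongDual ℝ Ω) (r : ℝ) :
    covarianceBilinDual μ (L ∘L rotB B r) (L ∘L rotB B r) = covarianceBilinDual μ L L := by
  rw [comp_rot]
  simp only [map_add, map_smul, ContinuousLinearMap.add_apply, ContinuousLinearMap.smul_apply,
    smul_eq_mul]
  rw [h.q_comp, covarianceBilinDual_comm (L ∘L B) L, h.q_skew]
  have := Real.sin_sq_add_cos_sq r
  linear_combination (covarianceBilinDual μ L L) * this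

lemma mp_rot (h : Rot μ B) (r : ℝ) : MeasurePreserving (rotB B r) μ μ := by
  refine ⟨by fun_prop, ?_⟩
  haveI : IsGaussian (μ.map (rotB B r)) := isGaussian_map _
  apply Measure.ext_of_charFunDual
  ext L
  rw [charFunDual_map, charDual h.mean, charDual h.mean, h.q_rot]

lemma rot_add (h : Rot μ B) (r s : ℝ) (x : Ω) : rotB B (r + s) x = rotB B r (rotB B s x) := by
  simp only [rotB_apply, Real.cos_add, Real.sin_add, map_add, map_smul, h.sq]
  module

lemma rot_zero (x : Ω) : rotB B 0 x = x := by simp [rotB_apply]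

/-- the composition operator on `L^p` -/
noncomputable def U (h : Rot μ B) (p : ℝ≥0∞) [Fact (1 ≤ p)] (r : ℝ) : Lp ℝ p μ →L[ℝ] Lp ℝ p μ :=
  (Lp.compMeasurePreservingₗᵢ ℝ (rotB B r) (h.mp_rot r)).toContinuousLinearMap

lemma U_coe (h : Rot μ B) (p : ℝ≥0∞) [Fact (1 ≤ p)] (r : ℝ) (f : Lp ℝ p μ) :
    (h.U p r f : Ω → ℝ) =ᵐ[μ] fun x => f (rotB B r x) :=
  Lp.coeFn_compMeasurePreserving f (h.mp_rot r)

lemma grp (h : Rot μ B) (p : ℝ≥0∞) [Fact (1 ≤ p)] : Grp (h.U p) := by
  refine ⟨fun s t f => ?_, fun f => ?_, fun t f => ?_⟩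
  · apply Lp.ext
    refine (h.U_coe p _ f).trans ?_
    refine EventuallyEq.trans ?_ (h.U_coe p s _).symm
    have h1 := (h.mp_rot s).quasiMeasurePreserving.ae_eq_comp (h.U_coe p t f)
    refine EventuallyEq.trans ?_ h1.symm
    refine Eventually.of_forall fun x => ?_
    simp only [Function.comp]
    rw [add_comm, h.rot_add]
  · apply Lp.ext
    refine (h.U_coe p _ f).trans (Eventually.of_forall fun x => ?_)
    simp [rot_zero]
  · exact le_of_eq ((Lp.compMeasurePreservingₗᵢ ℝ (rotB B t) (h.mp_rot t)).norm_map f)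

/-- the Ornstein-Uhlenbeck semigroup commutes with the rotations -/
lemma ou_comm (h : Rot μ B) (t r : ℝ) {f : Ω → ℝ} (hf : StronglyMeasurable f) (x : Ω) :
    ou μ t (fun y => f (rotB B r y)) x = ou μ t f (rotB B r x) := by
  unfold ou
  have h1 : ∫ y, f (Real.exp (-t) • rotB B r x + Real.sqrt (1 - Real.exp (-2 * t)) • y)
      ∂(μ.map (rotB B r)) = ∫ y, f (Real.exp (-t) • rotB B r x +
        Real.sqrt (1 - Real.exp (-2 * t)) • rotB B r y) ∂μ :=
    integral_map (by fun_prop) (by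
      refine (hf.comp_measurable ?_).aestronglyMeasurable
      fun_prop)
  rw [(h.mp_rot r).map_eq] at h1
  rw [h1]
  simp only [map_add, map_smul]

lemma comm (h : Rot μ B) (p : ℝ≥0∞) [Fact (1 ≤ p)] {T : Lp ℝ p μ →L[ℝ] Lp ℝ p μ} {t : ℝ}
    (hT : ∀ f : Lp ℝ p μ, (T f : Ω → ℝ) =ᵐ[μ] ou μ t f)
    (hc : ∀ f g : Ω → ℝ, f =ᵐ[μ] g → ou μ t f =ᵐ[μ] ou μ t g) (r : ℝ) (f : Lp ℝ p μ) :
    T (h.U p r f) = h.U p r (T f) := by
  apply Lp.ext
  refine (hT _).trans ?_
  refine (hc _ _ (h.U_coe p r f)).trans ?_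
  refine EventuallyEq.trans ?_ (h.U_coe p r _).symm
  have h1 := (h.mp_rot r).quasiMeasurePreserving.ae_eq_comp (hT f)
  refine EventuallyEq.trans ?_ h1.symm
  refine Eventually.of_forall fun x => ?_
  exact h.ou_comm t r (Lp.stronglyMeasurable f) x

end Rot

end Pool.Agent.Zk98.WD
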