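import Pool.Agent.Zk98.WD.Path

/-!
# The map which rotates the two halves of the path into each other
-/

open MeasureTheory ProbabilityTheory Filter Topology
open scoped ENNReal NNReal unitInterval RealInnerProductSpace

set_option linter.unusedSectionVars false
set_option linter.deprecated false

namespace Pool.Agent.Zk98.WD

variable {n : ℕ}

/-- `t ↦ (t - 1/2)⁺` -/
noncomputable def lo (t : I) : I := Set.projIcc 0 1 zero_le_one ((t : ℝ) - 1 / 2)

/-- `t ↦ min (t + 1/2) 1` -/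
noncomputable def hi (t : I) : I := Set.projIcc 0 1 zero_le_one ((t : ℝ) + 1 / 2)

/-- the midpoint -/
noncomputable def mid : I := ⟨1 / 2, by norm_num, by norm_num⟩

lemma lo_coe (t : I) : (lo t : ℝ) = max 0 (min 1 ((t : ℝ) - 1 / 2)) := rfl
lemma hi_coe (t : I) : (hi t : ℝ) = max 0 (min 1 ((t : ℝ) + 1 / 2)) := rfl
lemma mid_coe : (mid : ℝ) = 1 / 2 := rfl

lemma lo_le {t : I} (h : (t : ℝ) ≤ 1 / 2) : (lo t : ℝ) = 0 := by
  rw [lo_coe, max_eq_left]
  exact (min_le_right _ _).trans (by linarith)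

lemma lo_ge {t : I} (h : 1 / 2 ≤ (t : ℝ)) : (lo t : ℝ) = t - 1 / 2 := by
  have := t.2.2
  rw [lo_coe, min_eq_right (by linarith), max_eq_right (by linarith)]

lemma hi_le {t : I} (h : (t : ℝ) ≤ 1 / 2) : (hi t : ℝ) = t + 1 / 2 := by
  have := t.2.1
  rw [hi_coe, min_eq_right (by linarith), max_eq_right (by linarith)]

lemma hi_ge {t : I} (h : 1 / 2 ≤ (t : ℝ)) : (hi t : ℝ) = 1 := by
  rw [hi_coe, min_eq_left (by linarith), max_eq_right (by norm_num)]

lemma lo_cont : Continuous lo := by unfold lo; fun_prop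
lemma hi_cont : Continuous hi := by unfold hi; fun_prop

/-- the map on all continuous functions -/
noncomputable def sw0 (n : ℕ) : C(I, E n) →L[ℝ] C(I, E n) :=
  LinearMap.mkContinuous
    { toFun := fun ω => ω.comp ⟨lo, lo_cont⟩ - ω.comp ⟨hi, hi_cont⟩ + ContinuousMap.const _ (ω mid)
      map_add' := by
        intro a b
        ext t : 1
        simp only [ContinuousMap.add_apply, ContinuousMap.sub_apply, ContinuousMap.comp_apply,
          ContinuousMap.const_apply]
        abel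
      map_smul' := by
        intro c a
        ext t : 1
        simp only [ContinuousMap.add_apply, ContinuousMap.sub_apply, ContinuousMap.comp_apply,
          ContinuousMap.const_apply, ContinuousMap.smul_apply, RingHom.id_apply]
        module } 3 (by
      intro ω
      rw [ContinuousMap.norm_le _ (by positivity)]
      intro t
      show ‖ω (lo t) - ω (hi t) + ω mid‖ ≤ 3 * ‖ω‖
      have h1 := ω.norm_coe_le_norm (lo t)
      have h2 := ω.norm_coe_le_norm (hi t)
      have h3 := ω.norm_coe_le_norm mid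
      have h4 := norm_add_le (ω (lo t) - ω (hi t)) (ω mid)
      have h5 := norm_sub_le (ω (lo t)) (ω (hi t))
      linarith)

lemma sw0_apply (ω : C(I, E n)) (t : I) : sw0 n ω t = ω (lo t) - ω (hi t) + ω mid := rfl

lemma lo_zero : lo 0 = 0 := Subtype.ext (by rw [lo_le (by norm_num)]; rfl)
lemma hi_zero : hi 0 = mid := Subtype.ext (by rw [hi_le (by norm_num), mid_coe]; norm_num)

/-- the map into the continuous functions -/
noncomputable def sw1 (n : ℕ) : Path n →L[ℝ] C(I, E n) := (sw0 n) ∘L inc n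

lemma sw1_mem (ω : Path n) : sw1 n ω ∈ PathS n := by
  rw [mem_PathS]
  show sw0 n ω.1 0 = 0
  rw [sw0_apply, lo_zero, hi_zero, mem_PathS.1 ω.2]
  abel

/-- the map `B (ω¹, ω²) = (-ω², ω¹)`, where `ω¹, ω²` are the two halves of the path -/
noncomputable def sw (n : ℕ) : Path n →L[ℝ] Path n :=
  ((sw1 n).codRestrict (PathS n) sw1_mem : Path n →L[ℝ] ↥(PathS n))

lemma sw_apply (ω : Path n) (t : I) :
    (sw n ω).1 t = ω.1 (lo t) - ω.1 (hi t) + ω.1 mid := rfl

lemma zero_apply' (ω : Path n) {t : I} (ht : (t : ℝ) = 0) : ω.1 t = 0 := by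
  have : t = 0 := Subtype.ext ht
  rw [this]
  exact ω.2

lemma sw_sq (ω : Path n) : sw n (sw n ω) = -ω := by
  refine path_ext fun t => ?_
  show (sw n (sw n ω)).1 t = -(ω.1 t)
  have hmid : (sw n ω).1 mid = -ω.1 1 + ω.1 mid := by
    rw [sw_apply]
    have h1 : ω.1 (lo mid) = 0 := zero_apply' ω (lo_le (by rw [mid_coe]))
    have h2 : hi mid = 1 := Subtype.ext (hi_ge (by rw [mid_coe]))
    rw [h1, h2]
    abel
  rw [sw_apply (sw n ω), hmid]
  rcases le_total (t : ℝ) (1 / 2) with ht | ht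
  · have h1 : (sw n ω).1 (lo t) = 0 := zero_apply' (sw n ω) (lo_le ht)
    have h3 : 1 / 2 ≤ (hi t : ℝ) := by rw [hi_le ht]; linarith [t.2.1]
    have h4 : lo (hi t) = t := Subtype.ext (by rw [lo_ge h3, hi_le ht]; ring)
    have h5 : hi (hi t) = 1 := Subtype.ext (hi_ge h3)
    rw [h1, sw_apply, h4, h5]
    abel
  · have h1 : hi t = 1 := Subtype.ext (hi_ge ht)
    have h3 : (lo t : ℝ) ≤ 1 / 2 := by rw [lo_ge ht]; linarith [t.2.2]
    have h4 : hi (lo t) = t := Subtype.ext (by rw [hi_le h3, lo_ge ht]; ring)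
    have h5 : ω.1 (lo (lo t)) = 0 := zero_apply' ω (lo_le h3)
    have h6 : hi (1 : I) = 1 := Subtype.ext (hi_ge (by norm_num))
    have h7 : lo (1 : I) = mid := Subtype.ext (by
      rw [lo_ge (by norm_num), mid_coe]; norm_num)
    rw [h1, sw_apply ω (lo t), sw_apply ω 1, h4, h5, h6, h7]
    abel

lemma ev_sw (a : E n) (t : I) : (ev a t) ∘L (sw n) = ev a (lo t) - ev a (hi t) + ev a mid := by
  ext ω
  show ⟪a, (sw n ω).1 t⟫ = ⟪a, ω.1 (lo t)⟫ - ⟪a, ω.1 (hi t)⟫ + ⟪a, ω.1 mid⟫
  rw [sw_apply, inner_add_right, inner_sub_right]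

lemma cov_id (s t : I) :
    min (lo s : ℝ) (lo t) - min (lo s : ℝ) (hi t) + min (lo s : ℝ) mid
      - (min (hi s : ℝ) (lo t) - min (hi s : ℝ) (hi t) + min (hi s : ℝ) mid)
      + (min (mid : ℝ) (lo t) - min (mid : ℝ) (hi t) + min (mid : ℝ) mid) = min (s : ℝ) t := by
  have hs0 := s.2.1
  have hs1 := s.2.2
  have ht0 := t.2.1
  have ht1 := t.2.2
  rw [mid_coe]
  rcases le_total (s : ℝ) (1 / 2) with hs | hs <;> rcases le_total (t : ℝ) (1 / 2) with ht | ht
  · rw [lo_le hs, lo_le ht, hi_le hs, hi_le ht, min_add_add_right]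
    rw [min_eq_left (show (0 : ℝ) ≤ 0 by norm_num), min_eq_left (show (0 : ℝ) ≤ t + 1 / 2 by linarith),
      min_eq_left (show (0 : ℝ) ≤ 1 / 2 by norm_num),
      min_eq_right (show (0 : ℝ) ≤ s + 1 / 2 by linarith),
      min_eq_right (show (1 / 2 : ℝ) ≤ s + 1 / 2 by linarith),
      min_eq_right (show (0 : ℝ) ≤ 1 / 2 by norm_num),
      min_eq_left (show (1 / 2 : ℝ) ≤ t + 1 / 2 by linarith), min_self]
    ring
  · rw [lo_le hs, lo_ge ht, hi_le hs, hi_ge ht]
    rw [min_eq_left (show (0 : ℝ) ≤ t - 1 / 2 by linarith), min_eq_left (show (0 : ℝ) ≤ 1 by norm_num),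
      min_eq_left (show (0 : ℝ) ≤ 1 / 2 by norm_num),
      min_eq_right (show (t : ℝ) - 1 / 2 ≤ s + 1 / 2 by linarith),
      min_eq_left (show (s : ℝ) + 1 / 2 ≤ 1 by linarith),
      min_eq_right (show (1 / 2 : ℝ) ≤ s + 1 / 2 by linarith),
      min_eq_right (show (t : ℝ) - 1 / 2 ≤ 1 / 2 by linarith),
      min_eq_left (show (1 / 2 : ℝ) ≤ 1 by norm_num), min_self,
      min_eq_left (show (s : ℝ) ≤ t by linarith)]
    ring
  · rw [lo_ge hs, lo_le ht, hi_ge hs, hi_le ht]
    rw [min_eq_right (show (0 : ℝ) ≤ s - 1 / 2 by linarith),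
      min_eq_left (show (s : ℝ) - 1 / 2 ≤ t + 1 / 2 by linarith),
      min_eq_left (show (s : ℝ) - 1 / 2 ≤ 1 / 2 by linarith),
      min_eq_right (show (0 : ℝ) ≤ 1 by norm_num),
      min_eq_right (show (t : ℝ) + 1 / 2 ≤ 1 by linarith),
      min_eq_right (show (1 / 2 : ℝ) ≤ 1 by norm_num),
      min_eq_right (show (0 : ℝ) ≤ 1 / 2 by norm_num),
      min_eq_left (show (1 / 2 : ℝ) ≤ t + 1 / 2 by linarith), min_self,
      min_eq_right (show (t : ℝ) ≤ s by linarith)]
    ring
  · rw [lo_ge hs, lo_ge ht, hi_ge hs, hi_ge ht]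
    rw [min_sub_sub_right, min_eq_left (show (s : ℝ) - 1 / 2 ≤ 1 by linarith),
      min_eq_left (show (s : ℝ) - 1 / 2 ≤ 1 / 2 by linarith),
      min_eq_right (show (t : ℝ) - 1 / 2 ≤ 1 by linarith), min_self,
      min_eq_right (show (1 / 2 : ℝ) ≤ 1 by norm_num),
      min_eq_right (show (t : ℝ) - 1 / 2 ≤ 1 / 2 by linarith),
      min_eq_left (show (1 / 2 : ℝ) ≤ 1 by norm_num), min_self]
    ring

lemma q_sw_ev {P : Measure (Path n)} (hP : IsWiener P) (a b : E n) (s t : I) :
    covarianceBilinDual P (ev a s ∘L sw n) (ev b t ∘L sw n) =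
      covarianceBilinDual P (ev a s) (ev b t) := by
  rw [ev_sw, ev_sw]
  simp only [map_add, map_sub, ContinuousLinearMap.add_apply, ContinuousLinearMap.sub_apply,
    hP.q_ev]
  rw [← cov_id s t]
  ring

lemma q_sw {P : Measure (Path n)} (hP : IsWiener P) {L M : StrongDual ℝ (Path n)}
    (hL : L ∈ evS n) (hM : M ∈ evS n) :
    covarianceBilinDual P (L ∘L sw n) (M ∘L sw n) = covarianceBilinDual P L M := by
  have h1 : ∀ (a : E n) (s : I), ∀ M ∈ evS n,
      covarianceBilinDual P (ev a s ∘L sw n) (M ∘L sw n) = covarianceBilinDual P (ev a s) M := by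
    intro a s M hM
    refine Submodule.span_induction ?_ ?_ ?_ ?_ hM
    · rintro _ ⟨⟨b, t⟩, rfl⟩
      exact q_sw_ev hP a b s t
    · simp
    · intro x y _ _ hx hy
      rw [ContinuousLinearMap.add_comp, map_add, map_add, hx, hy]
    · intro c x _ hx
      rw [ContinuousLinearMap.smul_comp, map_smul, map_smul, hx]
  refine Submodule.span_induction ?_ ?_ ?_ ?_ hL
  · rintro _ ⟨⟨a, s⟩, rfl⟩
    exact h1 a s M hM
  · simp
  · intro x y _ _ hx hy
    rw [ContinuousLinearMap.add_comp, map_add, map_add, ContinuousLinearMap.add_apply,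
      ContinuousLinearMap.add_apply, hx, hy]
  · intro c x _ hx
    rw [ContinuousLinearMap.smul_comp, map_smul, map_smul, ContinuousLinearMap.smul_apply,
      ContinuousLinearMap.smul_apply, hx]

/-- the map preserves the Wiener measure -/
lemma rot_sw {P : Measure (Path n)} (hP : IsWiener P) : Rot P (sw n) := by
  have := hP.gauss
  refine ⟨hP.mean', sw_sq, ?_⟩
  have : IsFiniteMeasure (P.map (sw n)) := by
    have : IsGaussian (P.map (sw n)) := isGaussian_map _
    infer_instance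
  refine ext_evS fun L hL => ?_
  rw [charFunDual_map, charDual hP.mean', charDual hP.mean', q_sw hP hL hL]

end Pool.Agent.Zk98.WD
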